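import Pool.Agent.H91.MN.Emb

set_option autoImplicit false
set_option maxHeartbeats 4000000
set_option linter.unusedSectionVars false

/-!
# [H91 MN Low] The lower bound for a family of nets
-/

namespace Pool.Agent.H91.MN

open Pool.Agent.H58.OVAC (av pr Str Off Good exists_good pr_nonneg pr_mono pr_le_one pr_exists_le
  pr_not av_nonneg av_mono av_add)
open Pool.Agent.H58.OVPR (avR avR_mono avR_add avR_left avR_right avR_const pmf_pr pmf_exists_le)

variable {n k D : ℕ}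

/-! ### Free planted tests -/

/-- the measure of the planted tests which avoid `Φ` (times `n ^ 2`) -/
noncomputable def freeSum (Φ : Bool × Fin n → Set (Str k D)) : ℝ :=
  ∑ i : Fin n, ∑ j : Fin n, avR fun a b => ind (a ∉ Φ (false, i) ∧ b ∉ Φ (true, j))

theorem exp_surv {Φ : Bool × Fin n → Set (Str k D)} [Nonempty (Str k D)] {B : ℝ}
    (h : Real.exp (-B) ≤ surv Φ) : (∑ p, pr fun a : Str k D => a ∈ Φ p) ≤ B := by
  have h0 : 0 < surv Φ := (Real.exp_pos _).trans_le h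
  refine (mass_le_surv h0).trans ?_
  rw [one_div, Real.log_inv, neg_le]
  have := Real.log_le_log (Real.exp_pos _) h
  rwa [Real.log_exp] at this

theorem free_one (hk : 2 ≤ k) {Φ : Bool × Fin n → Set (Str k D)} {b : ℝ}
    (h : Real.exp (-(b * n)) ≤ surv Φ) : (1 - b) * (n : ℝ) ^ 2 ≤ freeSum Φ := by
  classical
  have hne : Nonempty (Str k D) := ⟨fun _ => ⟨0, by omega⟩⟩
  have h1 := exp_surv h
  have h2 : ∀ i j : Fin n, 1 - ((pr fun a => a ∈ Φ (false, i)) + pr fun a => a ∈ Φ (true, j)) ≤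
      avR fun a b => ind (a ∉ Φ (false, i) ∧ b ∉ Φ (true, j)) := by
    intro i j
    have h3 : (1 : ℝ) ≤ avR (fun a b => ind (a ∉ Φ (false, i) ∧ b ∉ Φ (true, j))) +
        (avR (fun a _ => ind (a ∈ Φ (false, i))) + avR fun _ b => ind (b ∈ Φ (true, j))) := by
      rw [← avR_add, ← avR_add, ← avR_const (k := k) (D := D) hk 1]
      refine avR_mono hk fun a b _ => ?_
      by_cases h4 : a ∈ Φ (false, i)
      · rw [ind_of h4]
        linarith [ind_nonneg (a ∉ Φ (false, i) ∧ b ∉ Φ (true, j)), ind_nonneg (b ∈ Φ (true, j))]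
      · by_cases h5 : b ∈ Φ (true, j)
        · rw [ind_of h5]
          linarith [ind_nonneg (a ∉ Φ (false, i) ∧ b ∉ Φ (true, j)), ind_nonneg (a ∈ Φ (false, i))]
        · rw [ind_of (show a ∉ Φ (false, i) ∧ b ∉ Φ (true, j) from ⟨h4, h5⟩)]
          linarith [ind_nonneg (b ∈ Φ (true, j)), ind_nonneg (a ∈ Φ (false, i))]
    rw [avR_left hk (fun a => ind (a ∈ Φ (false, i))),
      avR_right hk (fun b => ind (b ∈ Φ (true, j))), ← pr_ind, ← pr_ind] at h3
    linarith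
  have h3 : ∑ i : Fin n, ∑ j : Fin n,
      (1 - ((pr fun a => a ∈ Φ (false, i)) + pr fun a => a ∈ Φ (true, j))) ≤ freeSum Φ :=
    Finset.sum_le_sum fun i _ => Finset.sum_le_sum fun j _ => h2 i j
  have h4 : ∑ i : Fin n, ∑ j : Fin n,
      (1 - ((pr fun a => a ∈ Φ (false, i)) + pr fun a => a ∈ Φ (true, j))) =
      (n : ℝ) ^ 2 - n * ∑ p, pr fun a : Str k D => a ∈ Φ p := by
    simp only [Fintype.sum_prod_type, Fintype.sum_bool, Finset.sum_add_distrib,
      Finset.sum_sub_distrib, Finset.sum_const, Finset.card_univ, Fintype.card_fin, nsmul_eq_mul]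
    simp only [← Finset.mul_sum]
    ring
  have h5 : (n : ℝ) * (∑ p, pr fun a : Str k D => a ∈ Φ p) ≤ n * (b * n) :=
    mul_le_mul_of_nonneg_left h1 (Nat.cast_nonneg n)
  nlinarith

theorem exp_half_le {x : ℝ} (h0 : 0 ≤ x) (h1 : x ≤ 1) : Real.exp (-x) ≤ 1 - x / 2 := by
  have h2 : 1 + x ≤ Real.exp x := by
    have := Real.add_one_le_exp x
    linarith
  rw [Real.exp_neg, inv_eq_one_div, div_le_iff₀ (Real.exp_pos _)]
  have h3 : (1 - x / 2) * (1 + x) ≤ (1 - x / 2) * Real.exp x :=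
    mul_le_mul_of_nonneg_left h2 (by linarith)
  nlinarith

/-- large sets contain many pairs which differ everywhere -/
theorem off_pos (hk : 2 ≤ k) {η c : ℝ} (hη0 : 0 < η) (hη1 : η ≤ 1) (hgood : Good k (1 + η))
    (hc : 0 ≤ c) (hη : η * c ≤ Real.exp (-c) / 4)
    (U V : Str k D → Prop) (hU : Real.exp (-c) ≤ pr U) (hV : Real.exp (-c) ≤ pr V) :
    Real.exp (-c) ^ 2 / 8 ≤ avR fun a b => ind (U a ∧ V b) := by
  classical
  have hne : Nonempty (Str k D) := ⟨fun _ => ⟨0, by omega⟩⟩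
  set θ := Real.exp (-c) with hθ
  have hθ0 : 0 < θ := Real.exp_pos _
  have hθ1 : θ ≤ 1 := Real.exp_le_one_iff.2 (by linarith)
  have hu0 : 0 < pr U := hθ0.trans_le hU
  have h1 : avR (fun a _ => ind (U a)) ≤
      avR (fun a b => ind (U a ∧ V b)) + avR (fun a b => ind (U a ∧ ¬ V b)) := by
    rw [← avR_add]
    refine avR_mono hk fun a b _ => ?_
    by_cases h2 : U a
    · by_cases h3 : V b
      · rw [ind_of h2, ind_of (show U a ∧ V b from ⟨h2, h3⟩)]
        linarith [ind_nonneg (U a ∧ ¬ V b)]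
      · rw [ind_of h2, ind_of (show U a ∧ ¬ V b from ⟨h2, h3⟩)]
        linarith [ind_nonneg (U a ∧ V b)]
    · rw [ind_not h2]
      linarith [ind_nonneg (U a ∧ ¬ V b), ind_nonneg (U a ∧ V b)]
  rw [avR_left hk (fun a => ind (U a)), ← pr_ind] at h1
  have h2 := avR_set hk (by linarith : (1 : ℝ) ≤ 1 + η) (by linarith) hgood U fun b => ¬ V b
  rw [pr_not] at h2
  have h3 : pr U ^ (1 / (1 + η)) ≤ pr U * Real.exp (θ / 4) := by
    rw [Real.rpow_def_of_pos hu0]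
    have h4 : Real.log (pr U) * (1 / (1 + η)) ≤ Real.log (pr U) + θ / 4 := by
      have h5 : Real.log (pr U) * (1 / (1 + η)) =
          Real.log (pr U) + (-Real.log (pr U)) * (η / (1 + η)) := by
        field_simp
        ring
      rw [h5]
      have h6 : -Real.log (pr U) ≤ c := by
        have := Real.log_le_log hθ0 hU
        rw [hθ, Real.log_exp] at this
        linarith
      have h7 : η / (1 + η) ≤ η := div_le_self hη0.le (by linarith)
      have h8 : 0 ≤ η / (1 + η) := by positivity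
      have h9 : (-Real.log (pr U)) * (η / (1 + η)) ≤ c * η :=
        mul_le_mul h6 h7 h8 hc
      linarith
    calc Real.exp (Real.log (pr U) * (1 / (1 + η))) ≤ Real.exp (Real.log (pr U) + θ / 4) :=
          Real.exp_le_exp.2 h4
      _ = _ := by rw [Real.exp_add, Real.exp_log hu0]
  have h4 : (1 - pr V) ^ (1 / (1 + η)) ≤ Real.exp (-(θ / 2)) := by
    have h5 : 0 ≤ 1 - pr V := by linarith [pr_le_one V]
    have h6 : 1 - pr V ≤ Real.exp (-θ) := by
      have := Real.add_one_le_exp (-θ)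
      linarith
    calc (1 - pr V) ^ (1 / (1 + η)) ≤ Real.exp (-θ) ^ (1 / (1 + η)) :=
          Real.rpow_le_rpow h5 h6 (by positivity)
      _ = Real.exp (-θ * (1 / (1 + η))) := by rw [← Real.exp_mul]
      _ ≤ _ := by
          refine Real.exp_le_exp.2 ?_
          have h7 : 1 / 2 ≤ 1 / (1 + η) := one_div_le_one_div_of_le (by linarith) (by linarith)
          nlinarith
  have h5 : pr U ^ (1 / (1 + η)) * (1 - pr V) ^ (1 / (1 + η)) ≤ pr U * (1 - θ / 8) := by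
    calc pr U ^ (1 / (1 + η)) * (1 - pr V) ^ (1 / (1 + η))
        ≤ (pr U * Real.exp (θ / 4)) * Real.exp (-(θ / 2)) :=
          mul_le_mul h3 h4 (Real.rpow_nonneg (by linarith [pr_le_one V]) _) (by positivity)
      _ = pr U * Real.exp (-(θ / 4)) := by
          rw [mul_assoc, ← Real.exp_add]
          congr 2
          ring
      _ ≤ pr U * (1 - θ / 4 / 2) :=
          mul_le_mul_of_nonneg_left (exp_half_le (by positivity) (by linarith)) hu0.le
      _ = _ := by ring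
  nlinarith

/-- most positions have large complements -/
theorem bad_card [Nonempty (Str k D)] {Φ : Bool × Fin n → Set (Str k D)} {b : ℝ} (hb : 0 < b)
    (h : Real.exp (-(b * n)) ≤ surv Φ) (s : Bool) (B : Finset (Fin n))
    (hB : ∀ i ∈ B, (pr fun a => a ∉ Φ (s, i)) < Real.exp (-(4 * b))) :
    (B.card : ℝ) ≤ n / 4 := by
  classical
  have h0 : 0 < surv Φ := (Real.exp_pos _).trans_le h
  have h1 : surv Φ = ∏ p, pr fun a : Str k D => a ∉ Φ p := surv_eq Φ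
  have hpos : ∀ p, 0 < pr fun a : Str k D => a ∉ Φ p := by
    intro p
    rcases (pr_nonneg fun a : Str k D => a ∉ Φ p).lt_or_eq with h2 | h2
    · exact h2
    · rw [h1, Finset.prod_eq_zero (Finset.mem_univ p) h2.symm] at h0
      exact absurd h0 (lt_irrefl _)
  have h2 : -Real.log (surv Φ) = ∑ p, -Real.log (pr fun a : Str k D => a ∉ Φ p) := by
    rw [h1, Real.log_prod fun p _ => (hpos p).ne', Finset.sum_neg_distrib]
  have h3 : -Real.log (surv Φ) ≤ b * n := by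
    have := Real.log_le_log (Real.exp_pos _) h
    rw [Real.log_exp] at this
    linarith
  have h4 : ∑ i ∈ B, -Real.log (pr fun a : Str k D => a ∉ Φ (s, i)) ≤
      ∑ p, -Real.log (pr fun a : Str k D => a ∉ Φ p) := by
    have h5 : ∑ i ∈ B, -Real.log (pr fun a : Str k D => a ∉ Φ (s, i)) =
        ∑ p ∈ B.map ⟨fun i => (s, i), fun i j hij => (Prod.ext_iff.1 hij).2⟩,
          -Real.log (pr fun a : Str k D => a ∉ Φ p) := by
      rw [Finset.sum_map]
      rfl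
    rw [h5]
    refine Finset.sum_le_sum_of_subset_of_nonneg (Finset.subset_univ _) fun p _ _ => ?_
    have := Real.log_nonpos (pr_nonneg _) (pr_le_one fun a : Str k D => a ∉ Φ p)
    linarith
  have h5 : (B.card : ℝ) * (4 * b) ≤ ∑ i ∈ B, -Real.log (pr fun a : Str k D => a ∉ Φ (s, i)) := by
    rw [← nsmul_eq_mul]
    refine Finset.card_nsmul_le_sum _ _ _ fun i hi => ?_
    have := Real.log_lt_log (hpos (s, i)) (hB i hi)
    rw [Real.log_exp] at this
    linarith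
  have h6 : (B.card : ℝ) * (4 * b) ≤ b * n := by linarith
  nlinarith

theorem free_two (hk : 2 ≤ k) {η b : ℝ} (hη0 : 0 < η) (hη1 : η ≤ 1) (hgood : Good k (1 + η))
    (hb : 0 < b) (hη : η ≤ Real.exp (-(4 * b)) / (16 * b)) {Φ : Bool × Fin n → Set (Str k D)}
    (h : Real.exp (-(b * n)) ≤ surv Φ) :
    Real.exp (-(4 * b)) ^ 2 / 16 * (n : ℝ) ^ 2 ≤ freeSum Φ := by
  classical
  have hne : Nonempty (Str k D) := ⟨fun _ => ⟨0, by omega⟩⟩
  set θ := Real.exp (-(4 * b)) with hθ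
  have hθ0 : 0 < θ := Real.exp_pos _
  have hη' : η * (4 * b) ≤ Real.exp (-(4 * b)) / 4 := by
    rw [le_div_iff₀ (by positivity)] at hη
    linarith
  let B : Bool → Finset (Fin n) := fun s =>
    Finset.univ.filter fun i => (pr fun a => a ∉ Φ (s, i)) < θ
  have hB : ∀ s, ((B s).card : ℝ) ≤ n / 4 := fun s =>
    bad_card hb h s (B s) fun i hi => (Finset.mem_filter.1 hi).2
  have hcompl : ∀ s, (3 / 4 : ℝ) * n ≤ ((B s)ᶜ).card := by
    intro s
    have h1 := Finset.card_add_card_compl (B s)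
    rw [Fintype.card_fin] at h1
    have h2 : ((B s).card : ℝ) + ((B s)ᶜ).card = n := by exact_mod_cast h1
    have := hB s
    linarith
  have hnn : ∀ i j : Fin n, 0 ≤ avR fun a b => ind (a ∉ Φ (false, i) ∧ b ∉ Φ (true, j)) := by
    intro i j
    rw [← avR_const (k := k) (D := D) hk 0]
    exact avR_mono hk fun a b _ => ind_nonneg _
  have hgoodp : ∀ i ∈ (B false)ᶜ, ∀ j ∈ (B true)ᶜ, θ ^ 2 / 8 ≤
      avR fun a b => ind (a ∉ Φ (false, i) ∧ b ∉ Φ (true, j)) := by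
    intro i hi j hj
    refine off_pos hk hη0 hη1 hgood (by positivity) hη' _ _ ?_ ?_
    · have : i ∉ B false := Finset.mem_compl.1 hi
      simp only [B, Finset.mem_filter, Finset.mem_univ, true_and, not_lt] at this
      exact this
    · have : j ∉ B true := Finset.mem_compl.1 hj
      simp only [B, Finset.mem_filter, Finset.mem_univ, true_and, not_lt] at this
      exact this
  have h1 : ∑ i ∈ (B false)ᶜ, ∑ j ∈ (B true)ᶜ, θ ^ 2 / 8 ≤ freeSum Φ := by
    unfold freeSum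
    refine le_trans (Finset.sum_le_sum fun i hi => Finset.sum_le_sum fun j hj =>
      hgoodp i hi j hj) ?_
    refine le_trans (Finset.sum_le_sum fun i _ => Finset.sum_le_sum_of_subset_of_nonneg
      (Finset.subset_univ _) fun j _ _ => hnn i j) ?_
    exact Finset.sum_le_sum_of_subset_of_nonneg (Finset.subset_univ _) fun i _ _ =>
      Finset.sum_nonneg fun j _ => hnn i j
  simp only [Finset.sum_const, nsmul_eq_mul] at h1
  have h2 : ((3 / 4 : ℝ) * n) * ((3 / 4 : ℝ) * n) ≤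
      (((B false)ᶜ).card : ℝ) * (((B true)ᶜ).card : ℝ) :=
    mul_le_mul (hcompl false) (hcompl true) (by positivity) (Nat.cast_nonneg _)
  have h3 : ((3 / 4 : ℝ) * n) * ((3 / 4 : ℝ) * n) * (θ ^ 2 / 8) ≤
      (((B false)ᶜ).card : ℝ) * (((B true)ᶜ).card : ℝ) * (θ ^ 2 / 8) :=
    mul_le_mul_of_nonneg_right h2 (by positivity)
  have h4 : 0 ≤ θ ^ 2 * (n : ℝ) ^ 2 := by positivity
  nlinarith

/-! ### Numbers -/

theorem rej {n M : ℕ} {a b ρ : ℝ} (hρ : 0 < ρ) (hn : 6 ≤ n * (b / 2 - a * Real.log 2))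
    (hM : (M : ℝ) ≤ ρ * 2 ^ (a * n)) :
    M * (2 * Real.sqrt (Real.exp (-(b * n)))) < ρ / 10 := by
  have h1 : Real.sqrt (Real.exp (-(b * n))) = Real.exp (-(b * n / 2)) := by
    rw [← Real.exp_half]
    congr 1
    ring
  have h2 : (2 : ℝ) ^ (a * n) = Real.exp (Real.log 2 * (a * n)) := by
    rw [Real.rpow_def_of_pos (by norm_num)]
  have h3 : Real.exp (Real.log 2 * (a * n)) * (2 * Real.exp (-(b * n / 2))) ≤
      2 * Real.exp (-6) := by
    rw [mul_left_comm, ← Real.exp_add]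
    refine mul_le_mul_of_nonneg_left (Real.exp_le_exp.2 ?_) (by norm_num)
    nlinarith
  have h4 : Real.exp (-6) ≤ 1 / 25 := by
    rw [Real.exp_neg, ← one_div]
    refine one_div_le_one_div_of_le (by norm_num) ?_
    have := Real.quadratic_le_exp_of_nonneg (x := 6) (by norm_num)
    linarith
  calc M * (2 * Real.sqrt (Real.exp (-(b * n))))
      ≤ ρ * Real.exp (Real.log 2 * (a * n)) * (2 * Real.exp (-(b * n / 2))) := by
        rw [h1, ← h2]
        exact mul_le_mul_of_nonneg_right hM (by positivity)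
    _ = ρ * (Real.exp (Real.log 2 * (a * n)) * (2 * Real.exp (-(b * n / 2)))) := by ring
    _ ≤ ρ * (2 * Real.exp (-6)) := mul_le_mul_of_nonneg_left h3 hρ.le
    _ < ρ / 10 := by nlinarith

theorem eventually_num {ε β : ℝ} (hε : 0 < ε) (hβ : 0 < β) (K : ℕ) : ∃ n₀ : ℕ, ∀ n ≥ n₀,
    2 ≤ n ∧ 2 * ((K : ℝ) + 1) * Real.log n ≤ β / 2 * n ∧
      4 / β * (2 * ((K : ℝ) + 1) * Real.log n + 1) ^ 2 ≤ (n : ℝ) ^ (ε / 2) := by
  have hK : (0 : ℝ) ≤ K := Nat.cast_nonneg K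
  have h1 := (Real.isLittleO_log_id_atTop).def
    (show (0 : ℝ) < β / (4 * ((K : ℝ) + 1)) by positivity)
  have h2 := (isLittleO_log_rpow_rpow_atTop 2 (show (0 : ℝ) < ε / 2 by positivity)).def
    (show (0 : ℝ) < 1 / (4 / β * (2 * ((K : ℝ) + 1) + 2) ^ 2) by positivity)
  have h3 := tendsto_natCast_atTop_atTop (R := ℝ)
  have h4 := h3.eventually h1
  have h5 := h3.eventually h2
  obtain ⟨n₀, hn₀⟩ := (h4.and h5).exists_forall_of_atTop
  refine ⟨max n₀ 2, fun n hn => ?_⟩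
  obtain ⟨h6, h7⟩ := hn₀ n ((le_max_left _ _).trans hn)
  have hn2 : 2 ≤ n := (le_max_right _ _).trans hn
  have hn2' : (2 : ℝ) ≤ n := by exact_mod_cast hn2
  have hlog : 1 / 2 ≤ Real.log n := by
    have := Real.log_two_gt_d9
    have h8 := Real.log_le_log (by norm_num) hn2'
    linarith
  refine ⟨hn2, ?_, ?_⟩
  · rw [Real.norm_of_nonneg (by linarith), id, Real.norm_of_nonneg (by linarith)] at h6
    have h8 := mul_le_mul_of_nonneg_left h6 (show 0 ≤ 2 * ((K : ℝ) + 1) by positivity)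
    refine h8.trans (le_of_eq ?_)
    field_simp
    ring
  · rw [Real.norm_of_nonneg (Real.rpow_nonneg (by linarith) _),
      Real.norm_of_nonneg (Real.rpow_nonneg (by linarith) _), one_div, ← div_eq_inv_mul,
      le_div_iff₀ (by positivity)] at h7
    have h8 : Real.log n ^ (2 : ℝ) = Real.log n ^ 2 := by
      rw [← Real.rpow_natCast]
      norm_num
    rw [h8] at h7
    have h9 : 2 * ((K : ℝ) + 1) * Real.log n + 1 ≤ (2 * ((K : ℝ) + 1) + 2) * Real.log n := by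
      linarith
    have h10 : (2 * ((K : ℝ) + 1) * Real.log n + 1) ^ 2 ≤
        ((2 * ((K : ℝ) + 1) + 2) * Real.log n) ^ 2 :=
      pow_le_pow_left₀ (by positivity) h9 2
    calc 4 / β * (2 * ((K : ℝ) + 1) * Real.log n + 1) ^ 2
        ≤ 4 / β * ((2 * ((K : ℝ) + 1) + 2) * Real.log n) ^ 2 :=
          mul_le_mul_of_nonneg_left h10 (by positivity)
      _ = Real.log n ^ 2 * (4 / β * (2 * ((K : ℝ) + 1) + 2) ^ 2) := by ring
      _ ≤ _ := h7

/-! ### The lower bound -/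

theorem low {ε β η₀ : ℝ} (hε : 0 < ε) (hβ : 0 < β) (hη₀ : 0 < η₀) (K : ℕ) :
    ∃ (η : ℝ) (k : ℕ), 0 < η ∧ η ≤ 1 ∧ η ≤ η₀ ∧ 2 ≤ k ∧ Good k (1 + η) ∧ ∃ n₀ : ℕ, ∀ n ≥ n₀,
    ∀ (D M : ℕ) (Gs : Fin M → ℕ) (Ns : ∀ w, Net (Bool × Fin n) (Str k D) (Gs w))
    (_ : ∀ w, OneL (Ns w)) (o : ∀ w, Fin (Gs w)) (ands : ∀ w, Finset (Fin (Gs w)))
    (_ : ∀ w g J, (Ns w).kind g = Kind.and J → g ∈ ands w) (s : ℕ)
    (_ : ∀ w, (ands w).card ≤ s) (_ : ∀ w, Gs w ≤ n ^ K) (m κ : ℝ) (_ : 0 < m)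
    (_ : M * (2 * Real.sqrt m) <
      pr fun z : Bool × Fin n → Str k D => ∃ w, ¬ (Ns w).val (o w) (full z))
    (_ : ∀ Φ : Bool × Fin n → Set (Str k D), m ≤ surv Φ → κ * (n : ℝ) ^ 2 ≤ freeSum Φ)
    (_ : (pr fun τ : PT n k D => ∃ w, ¬ (Ns w).val (o w) (pl τ.1.1 τ.1.2 τ.2.1.1 τ.2.1.2)) ≤
      κ - β),
    (n : ℝ) ^ (2 - ε) ≤ s := by
  classical
  set e : ℝ := min ε 1 with he
  have he0 : 0 < e := lt_min hε one_pos
  have he1 : e ≤ 1 := min_le_right _ _
  have heε : e ≤ ε := min_le_left _ _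
  have hK : (0 : ℝ) ≤ K := Nat.cast_nonneg K
  set η : ℝ := min (e / (2 * ((K : ℝ) + 2))) η₀ with hη
  have hη0 : 0 < η := lt_min (by positivity) hη₀
  have hηe : η ≤ e / (2 * ((K : ℝ) + 2)) := min_le_left _ _
  have hη1 : η ≤ 1 := by
    refine hηe.trans ?_
    rw [div_le_one (by positivity)]
    linarith
  obtain ⟨k, hk, hgood⟩ := exists_good hη0 hη1
  obtain ⟨n₀, hn₀⟩ := eventually_num he0 hβ K
  refine ⟨η, k, hη0, hη1, min_le_right _ _, hk, hgood, n₀, ?_⟩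
  intro n hn D M Gs Ns hN o ands hands s hs hG m κ hm0 hE hfree hA
  obtain ⟨hn2, hnum1, hnum2⟩ := hn₀ n hn
  have hn2' : (2 : ℝ) ≤ n := by exact_mod_cast hn2
  have hn0 : (0 : ℝ) < n := by linarith
  have hn1 : (1 : ℝ) ≤ n := by linarith
  have hne : Nonempty (Str k D) := ⟨fun _ => ⟨0, by omega⟩⟩
  -- a circuit which rejects often
  obtain ⟨w, hw⟩ : ∃ w, 2 * Real.sqrt m <
      pr fun z : Bool × Fin n → Str k D => ¬ (Ns w).val (o w) (full z) := by
    by_contra hcon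
    push Not at hcon
    have h1 : pr (fun z : Bool × Fin n → Str k D => ∃ w, ¬ (Ns w).val (o w) (full z)) ≤
        ∑ w ∈ (Finset.univ : Finset (Fin M)),
          pr (fun z : Bool × Fin n → Str k D => ¬ (Ns w).val (o w) (full z)) := by
      refine le_trans (pr_mono fun z hz => ?_) (pr_exists_le _ _)
      obtain ⟨w, hw⟩ := hz
      exact ⟨w, Finset.mem_univ _, hw⟩
    have h2 : (∑ w ∈ (Finset.univ : Finset (Fin M)),
        pr (fun z : Bool × Fin n → Str k D => ¬ (Ns w).val (o w) (full z))) ≤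
          M * (2 * Real.sqrt m) := by
      refine (Finset.sum_le_card_nsmul _ _ _ fun w _ => hcon w).trans ?_
      rw [Finset.card_univ, Fintype.card_fin, nsmul_eq_mul]
    linarith
  have hG1 : 1 ≤ Gs w := (Nat.zero_le _).trans_lt (o w).2
  have hG1' : (1 : ℝ) ≤ Gs w := by exact_mod_cast hG1
  obtain ⟨z, σ, hz, hΦ, hlaw⟩ := hist (Ns w) hG1 hm0
    (fun z => ¬ (Ns w).val (o w) (full z)) hw
  have ho : ¬ σ.c (o w) := fun h => hz ((hlaw (o w)).sound (Or.inl h))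
  set K1 : ℝ := Real.log (1 / (1 / (2 * (Gs w : ℝ))) ^ 2) with hK1
  have hK1eq : K1 = 2 * Real.log (2 * Gs w) := by
    rw [hK1, one_div_pow, one_div_one_div, Real.log_pow]
    norm_num
  have hK10 : 0 ≤ K1 := by
    rw [hK1eq]
    have := Real.log_nonneg (show (1 : ℝ) ≤ 2 * Gs w by linarith)
    positivity
  have hmain := free_le (n := n) hk (by linarith : (1 : ℝ) ≤ 1 + η) (by linarith) hgood (Ns w)
    (hN w) (c := σ.c) (φ := σ.φ) (Φ := σ.Φ) (K := K1) (fun g => (hlaw g).cst)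
    (fun g p => (hlaw g).fn p) (fun g hg => (hlaw g).light hg) hK10 (ands w) (hands w) ho
  -- the planted tests
  have hpl : κ * (n : ℝ) ^ 2 ≤ (∑ i, ∑ j, avR fun a b : Str k D =>
      ind ((Ns w).val (o w) (pl i j a b) ∧ a ∉ σ.Φ (false, i) ∧ b ∉ σ.Φ (true, j))) +
      (n : ℝ) ^ 2 * (κ - β) := by
    have h1 : (∑ i, ∑ j, avR fun a b : Str k D => ind (¬ (Ns w).val (o w) (pl i j a b))) ≤
        (n : ℝ) ^ 2 * (κ - β) := by
      rw [← pr_pt hk fun i j a b => ¬ (Ns w).val (o w) (pl i j a b)]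
      refine mul_le_mul_of_nonneg_left (le_trans (pr_mono fun τ h => ⟨w, h⟩) hA) (by positivity)
    refine (hfree σ.Φ hΦ).trans (le_trans ?_ (add_le_add_right h1 _))
    rw [← Finset.sum_add_distrib]
    unfold freeSum
    refine Finset.sum_le_sum fun i _ => ?_
    rw [← Finset.sum_add_distrib]
    refine Finset.sum_le_sum fun j _ => ?_
    rw [← avR_add]
    refine avR_mono hk fun a b _ => ?_
    by_cases h2 : a ∉ σ.Φ (false, i) ∧ b ∉ σ.Φ (true, j)
    · by_cases h3 : (Ns w).val (o w) (pl i j a b)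
      · rw [ind_of h2, ind_of (show (Ns w).val (o w) (pl i j a b) ∧ a ∉ σ.Φ (false, i) ∧
          b ∉ σ.Φ (true, j) from ⟨h3, h2⟩)]
        linarith [ind_nonneg (¬ (Ns w).val (o w) (pl i j a b))]
      · rw [ind_of h2, ind_of (show ¬ (Ns w).val (o w) (pl i j a b) from h3)]
        linarith [ind_nonneg ((Ns w).val (o w) (pl i j a b) ∧ a ∉ σ.Φ (false, i) ∧
          b ∉ σ.Φ (true, j))]
    · rw [ind_not h2]
      linarith [ind_nonneg (¬ (Ns w).val (o w) (pl i j a b)),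
        ind_nonneg ((Ns w).val (o w) (pl i j a b) ∧ a ∉ σ.Φ (false, i) ∧
          b ∉ σ.Φ (true, j))]
  -- numbers
  set L : ℝ := 2 * ((K : ℝ) + 1) * Real.log n with hL
  have hlog0 : 0 ≤ Real.log n := Real.log_nonneg hn1
  have hL0 : 0 ≤ L := by positivity
  have hGn : (Gs w : ℝ) ≤ (n : ℝ) ^ K := by exact_mod_cast hG w
  have hK1L : K1 ≤ L := by
    have h1 : Real.log (2 * Gs w) ≤ ((K : ℝ) + 1) * Real.log n := by
      have h2 : ((K : ℝ) + 1) * Real.log n = Real.log ((n : ℝ) ^ (K + 1)) := by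
        rw [Real.log_pow]
        push_cast
        ring
      rw [h2]
      refine Real.log_le_log (by positivity) ?_
      rw [pow_succ, mul_comm]
      exact mul_le_mul hGn (by linarith) (by norm_num) (by positivity)
    rw [hK1eq, hL]
    linarith
  have hexp : 1 - 1 / (1 + η) ≤ η := by
    rw [sub_le_iff_le_add, ← sub_le_iff_le_add']
    rw [le_div_iff₀ (by linarith)]
    nlinarith
  have hexp0 : 0 ≤ 1 - 1 / (1 + η) := by
    rw [sub_nonneg, div_le_one (by linarith)]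
    linarith
  have hb1 : (n : ℝ) ^ (1 - 1 / (1 + η)) ≤ (n : ℝ) ^ η :=
    Real.rpow_le_rpow_of_exponent_le hn1 hexp
  have hb2 : (n * Gs w : ℝ) ^ (1 - 1 / (1 + η)) ≤ (n : ℝ) ^ (((K : ℝ) + 1) * η) := by
    have h1 : (1 : ℝ) ≤ n * Gs w := by nlinarith
    have h2 : (n * Gs w : ℝ) ≤ (n : ℝ) ^ ((K : ℝ) + 1) := by
      have h3 : (n : ℝ) ^ ((K : ℝ) + 1) = (n : ℝ) ^ (K + 1) := by
        rw [← Real.rpow_natCast]
        push_cast
        rfl
      rw [h3, pow_succ, mul_comm]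
      exact mul_le_mul_of_nonneg_right hGn hn0.le
    calc (n * Gs w : ℝ) ^ (1 - 1 / (1 + η)) ≤ (n * Gs w : ℝ) ^ η :=
          Real.rpow_le_rpow_of_exponent_le h1 hexp
      _ ≤ ((n : ℝ) ^ ((K : ℝ) + 1)) ^ η := Real.rpow_le_rpow (by linarith) h2 hη0.le
      _ = _ := by rw [← Real.rpow_mul hn0.le]
  have hprod : (n : ℝ) ^ η * (n : ℝ) ^ (((K : ℝ) + 1) * η) ≤ (n : ℝ) ^ (e / 2) := by
    rw [← Real.rpow_add hn0]
    refine Real.rpow_le_rpow_of_exponent_le hn1 ?_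
    rw [le_div_iff₀ (by positivity)] at hηe
    linarith
  have hB : (n : ℝ) ^ (1 - 1 / (1 + η)) * (K1 + 1) *
      ((n * Gs w : ℝ) ^ (1 - 1 / (1 + η)) * (K1 + 1)) ≤ (n : ℝ) ^ (e / 2) * (L + 1) ^ 2 := by
    have h1 : 0 ≤ (n : ℝ) ^ (1 - 1 / (1 + η)) := Real.rpow_nonneg hn0.le _
    have h2 : 0 ≤ (n * Gs w : ℝ) ^ (1 - 1 / (1 + η)) := Real.rpow_nonneg (by positivity) _
    have h3 : (n : ℝ) ^ (1 - 1 / (1 + η)) * (n * Gs w : ℝ) ^ (1 - 1 / (1 + η)) ≤
        (n : ℝ) ^ (e / 2) :=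
      (mul_le_mul hb1 hb2 h2 (Real.rpow_nonneg hn0.le _)).trans hprod
    have h4 : (K1 + 1) ^ 2 ≤ (L + 1) ^ 2 := pow_le_pow_left₀ (by linarith) (by linarith) 2
    calc (n : ℝ) ^ (1 - 1 / (1 + η)) * (K1 + 1) *
      ((n * Gs w : ℝ) ^ (1 - 1 / (1 + η)) * (K1 + 1)) =
        ((n : ℝ) ^ (1 - 1 / (1 + η)) * (n * Gs w : ℝ) ^ (1 - 1 / (1 + η))) * (K1 + 1) ^ 2 := by
          ring
      _ ≤ (n : ℝ) ^ (e / 2) * (L + 1) ^ 2 :=
          mul_le_mul h3 h4 (by positivity) (Real.rpow_nonneg hn0.le _)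
  have hs' : ((ands w).card : ℝ) ≤ s := by exact_mod_cast hs w
  have hne2 : 0 ≤ (n : ℝ) ^ (e / 2) := Real.rpow_nonneg hn0.le _
  have hterm : ((ands w).card : ℝ) * (2 * ((n : ℝ) ^ (1 - 1 / (1 + η)) * (K1 + 1) *
      ((n * Gs w : ℝ) ^ (1 - 1 / (1 + η)) * (K1 + 1)))) ≤
      s * (2 * ((n : ℝ) ^ (e / 2) * (L + 1) ^ 2)) := by
    refine mul_le_mul hs' (by linarith) ?_ (Nat.cast_nonneg _)
    have h1 : 0 ≤ (n : ℝ) ^ (1 - 1 / (1 + η)) := Real.rpow_nonneg hn0.le _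
    have h2 : 0 ≤ (n * Gs w : ℝ) ^ (1 - 1 / (1 + η)) := Real.rpow_nonneg (by positivity) _
    positivity
  have hfin2 : (n : ℝ) * K1 ≤ n * (β / 2 * n) := by
    refine mul_le_mul_of_nonneg_left (hK1L.trans hnum1) hn0.le
  have hfin3 : β * (n : ℝ) ^ 2 ≤ n * (β / 2 * n) +
      s * (2 * ((n : ℝ) ^ (e / 2) * (L + 1) ^ 2)) := by
    nlinarith
  have hfin4 : (n : ℝ) ^ 2 ≤ s * ((n : ℝ) ^ (e / 2) * (4 / β * (L + 1) ^ 2)) := by
    have h1 : β / 2 * (n : ℝ) ^ 2 ≤ s * (2 * ((n : ℝ) ^ (e / 2) * (L + 1) ^ 2)) := by nlinarith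
    have h2 : (n : ℝ) ^ 2 = 2 / β * (β / 2 * (n : ℝ) ^ 2) := by field_simp
    rw [h2]
    refine (mul_le_mul_of_nonneg_left h1 (by positivity)).trans (le_of_eq ?_)
    ring
  have hfin5 : (n : ℝ) ^ 2 ≤ s * (n : ℝ) ^ e := by
    have h1 : (n : ℝ) ^ e = (n : ℝ) ^ (e / 2) * (n : ℝ) ^ (e / 2) := by
      rw [← Real.rpow_add hn0]
      congr 1
      ring
    rw [h1]
    refine hfin4.trans (mul_le_mul_of_nonneg_left (mul_le_mul_of_nonneg_left hnum2 hne2)
      (Nat.cast_nonneg _))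
  calc (n : ℝ) ^ (2 - ε) ≤ (n : ℝ) ^ (2 - e) :=
        Real.rpow_le_rpow_of_exponent_le hn1 (by linarith)
    _ = (n : ℝ) ^ 2 / (n : ℝ) ^ e := by
        rw [Real.rpow_sub hn0]
        congr 1
        exact Real.rpow_natCast _ 2
    _ ≤ s := by
        rw [div_le_iff₀ (Real.rpow_pos_of_pos hn0 _)]
        exact hfin5

/-! ### Averaging -/

theorem yaoW {Γ T₁ T₂ : Type} [Fintype T₁] [Nonempty T₁] [Fintype T₂] [Nonempty T₂] (μ : PMF Γ)
    (E₁ : Γ → T₁ → Prop) (E₂ : Γ → T₂ → Prop) (b₁ : T₁ → ℝ) (b₂ : T₂ → ℝ)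
    (hb₁ : ∀ τ, 0 ≤ b₁ τ) (hb₂ : ∀ τ, 0 ≤ b₂ τ)
    (h₁ : ∀ τ, μ.toOuterMeasure {A | E₁ A τ} ≤ ENNReal.ofReal (b₁ τ))
    (h₂ : ∀ τ, μ.toOuterMeasure {A | E₂ A τ} ≤ ENNReal.ofReal (b₂ τ)) {c : ℝ} (hc : 0 ≤ c) :
    ∃ A ∈ μ.support, c * pr (E₁ A) + pr (E₂ A) ≤ c * av b₁ + av b₂ := by
  have h3 := pmf_pr μ E₁ b₁ hb₁ h₁
  have h4 := pmf_pr μ E₂ b₂ hb₂ h₂
  have h5 : ∑' A, μ A * ENNReal.ofReal (c * pr (E₁ A) + pr (E₂ A)) ≤
      ENNReal.ofReal (c * av b₁ + av b₂) := by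
    rw [ENNReal.ofReal_add (mul_nonneg hc (av_nonneg hb₁)) (av_nonneg hb₂),
      ENNReal.ofReal_mul hc]
    refine le_trans (le_of_eq ?_) (add_le_add (mul_le_mul_right h3 (ENNReal.ofReal c)) h4)
    rw [← ENNReal.tsum_mul_left, ← ENNReal.tsum_add]
    congr 1
    funext A
    rw [ENNReal.ofReal_add (mul_nonneg hc (pr_nonneg _)) (pr_nonneg _), ENNReal.ofReal_mul hc]
    ring
  obtain ⟨A, hA, h6⟩ := pmf_exists_le μ _ _ ENNReal.ofReal_ne_top h5
  refine ⟨A, hA, ?_⟩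
  rwa [ENNReal.ofReal_le_ofReal_iff (add_nonneg (mul_nonneg hc (av_nonneg hb₁))
    (av_nonneg hb₂))] at h6

theorem compl_le' {Γ : Type} (μ : PMF Γ) (P : Γ → Prop) {ρ : ℝ} (h0 : 0 ≤ ρ) (h1 : ρ ≤ 1)
    (h : ENNReal.ofReal ρ ≤ μ.toOuterMeasure {A | ¬ P A}) :
    μ.toOuterMeasure {A | P A} ≤ ENNReal.ofReal (1 - ρ) := by
  classical
  have h2 : μ.toOuterMeasure {A | ¬ P A} + μ.toOuterMeasure {A | P A} = 1 := by
    rw [PMF.toOuterMeasure_apply, PMF.toOuterMeasure_apply, ← ENNReal.tsum_add,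
      ← PMF.tsum_coe μ]
    congr 1
    funext A
    by_cases h : P A <;> simp [Set.indicator, h]
  have h3 : ENNReal.ofReal ρ + ENNReal.ofReal (1 - ρ) = 1 := by
    rw [← ENNReal.ofReal_add h0 (by linarith)]
    norm_num
  have h4 : ENNReal.ofReal ρ + μ.toOuterMeasure {A | P A} ≤
      ENNReal.ofReal ρ + ENNReal.ofReal (1 - ρ) := by
    rw [h3, ← h2]
    gcongr
  exact (ENNReal.add_le_add_iff_left ENNReal.ofReal_ne_top).1 h4

end Pool.Agent.H91.MN
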