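import Pool.Agent.H91.MN.Plant
import Pool.Agent.H58.OVAC.Embed
import Pool.Agent.H58.OVAC.FssMain
import Pool.Agent.H58.OVPR.Menu
import Pool.Agent.H58.OVPR.Yao

set_option autoImplicit false
set_option maxHeartbeats 4000000
set_option linter.unusedSectionVars false

/-!
# [H91 MN Emb] Tests as inputs

The vector of an empty position has ones in all blocks, the vector of a string has one one in every block.
-/

namespace Pool.Agent.H91.MN

open Pool.Agent.H58.OVAC (av pr Str Off Vec Input IsValid Orthogonal tst emb emb_orthogonal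
  exists_code pr_mix pr_congr pr_mono pr_exists_le mix av_const av_congr count_off' pr_prod
  av_mul_left one_sub_inv_pow_le av_sum)
open Pool.Agent.H58.OVPR (avR avR_eq avR_sum)

variable {n k D : ℕ}

/-- the vector of a string or of the empty string -/
def embO {l : ℕ} (d : ℕ) (code : Fin n → Fin l → Bool) (p : Bool × Fin n) :
    Option (Str k D) → Vec d
  | some s => emb d code p s
  | none => fun x =>
    if h : x.1 < l then (if p.1 = false then code p.2 ⟨x.1, h⟩ else false)
    else if h : x.1 < 2 * l then (if p.1 = false then false else code p.2 ⟨x.1 - l, by omega⟩)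
    else decide (x.1 < 2 * l + D * k)

/-- the input of a test -/
def inp {l : ℕ} (d : ℕ) (code : Fin n → Fin l → Bool) (z : Bool × Fin n → Option (Str k D)) :
    Input n d := fun p => embO d code p (z p)

theorem embO_prefix {l d : ℕ} (code : Fin n → Fin l → Bool) (p : Bool × Fin n)
    (o : Option (Str k D)) (x : Fin d) (hx : x.1 < 2 * l) : embO d code p o x =
    (if h : x.1 < l then (if p.1 = false then code p.2 ⟨x.1, h⟩ else false)
    else (if p.1 = false then false else code p.2 ⟨x.1 - l, by omega⟩)) := by
  cases o with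
  | none =>
    unfold embO
    by_cases h : x.1 < l
    · simp only [h, dif_pos]
    · simp only [h, dif_neg, not_false_iff, hx, dif_pos]
  | some s =>
    unfold embO emb
    by_cases h : x.1 < l
    · simp only [h, dif_pos]
    · simp only [h, dif_neg, not_false_iff, hx, dif_pos]

theorem inp_valid {l d : ℕ} (hd : 2 * l ≤ d) (code : Fin n → Fin l → Bool)
    (hcode : ∀ i j, i < j →
      ∃ k : Fin l, (∀ q < k, code i q = code j q) ∧ code i k = false ∧ code j k = true)
    (z : Bool × Fin n → Option (Str k D)) : IsValid (inp d code z) := by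
  constructor
  · intro p q hpq
    obtain ⟨k', hk1, hk2, hk3⟩ := hcode p q hpq
    refine ⟨⟨k'.1, by omega⟩, ?_, ?_⟩
    · intro s hs
      have hs' : s.1 < k'.1 := hs
      have h1 : s.1 < l := by omega
      show embO d code (false, p) (z (false, p)) s = embO d code (false, q) (z (false, q)) s
      rw [embO_prefix _ _ _ _ (by omega), embO_prefix _ _ _ _ (by omega), dif_pos h1, dif_pos h1]
      simp only [if_true]
      exact hk1 ⟨s.1, h1⟩ hs'
    · show embO d code (false, p) (z (false, p)) _ < embO d code (false, q) (z (false, q)) _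
      rw [embO_prefix _ _ _ _ (show (⟨k'.1, by omega⟩ : Fin d).1 < 2 * l by simp only; omega),
        embO_prefix _ _ _ _ (show (⟨k'.1, by omega⟩ : Fin d).1 < 2 * l by simp only; omega),
        dif_pos (show (⟨k'.1, by omega⟩ : Fin d).1 < l from k'.2),
        dif_pos (show (⟨k'.1, by omega⟩ : Fin d).1 < l from k'.2)]
      simp only [if_true]
      rw [hk2, hk3]
      decide
  · intro p q hpq
    obtain ⟨k', hk1, hk2, hk3⟩ := hcode p q hpq
    refine ⟨⟨l + k'.1, by omega⟩, ?_, ?_⟩
    · intro s hs
      have hs' : s.1 < l + k'.1 := hs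
      show embO d code (true, p) (z (true, p)) s = embO d code (true, q) (z (true, q)) s
      rw [embO_prefix _ _ _ _ (by omega), embO_prefix _ _ _ _ (by omega)]
      by_cases h1 : s.1 < l
      · rw [dif_pos h1, dif_pos h1]
        simp
      · rw [dif_neg h1, dif_neg h1]
        simp only [Bool.true_eq_false, if_false]
        exact hk1 ⟨s.1 - l, by omega⟩ (by rw [Fin.lt_def]; simp only; omega)
    · show embO d code (true, p) (z (true, p)) _ < embO d code (true, q) (z (true, q)) _
      rw [embO_prefix _ _ _ _ (show (⟨l + k'.1, by omega⟩ : Fin d).1 < 2 * l by simp only; omega),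
        embO_prefix _ _ _ _ (show (⟨l + k'.1, by omega⟩ : Fin d).1 < 2 * l by simp only; omega)]
      have h1 : ¬ (l + k'.1 < l) := by omega
      have h3 : (⟨l + k'.1 - l, by omega⟩ : Fin l) = k' := by ext; simp
      simp only [h1, dif_neg, not_false_iff, Bool.true_eq_false, if_false]
      rw [h3, hk2, hk3]
      decide

/-- the vector of the empty string has more ones -/
theorem embO_le {l d : ℕ} (code : Fin n → Fin l → Bool) (p : Bool × Fin n)
    {o o' : Option (Str k D)} (h : o = none ∨ o = o') : embO d code p o' ≤ embO d code p o := by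
  rcases h with h | h
  · subst h
    cases o' with
    | none => exact le_rfl
    | some s =>
      intro x
      by_cases hx : x.1 < 2 * l
      · rw [embO_prefix code p none x hx, embO_prefix code p (some s) x hx]
      · have h1 : ¬ x.1 < l := by omega
        by_cases h3 : x.1 < 2 * l + D * k
        · have e : embO d code p (none : Option (Str k D)) x = true := by
            unfold embO
            simp only [h1, hx, dif_neg, not_false_iff, h3, decide_true]
          rw [e]
          exact Bool.le_true _
        · have e : embO d code p (some s) x = false := by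
            unfold embO emb
            simp only [h1, hx, dif_neg, not_false_iff, h3]
          rw [e]
          exact Bool.false_le _
  · rw [h]

theorem inp_full {l d : ℕ} (hd : 2 * l + D * k ≤ d) (code : Fin n → Fin l → Bool)
    (z : Bool × Fin n → Str k D) (i j : Fin n) :
    Orthogonal (inp d code (full z)) i j ↔ Off (z (false, i)) (z (true, j)) := by
  have h := emb_orthogonal hd code (fun i => z (false, i)) (fun j => z (true, j)) i j
  rw [← h]
  have e : inp d code (full z) = tst (emb d code) (fun i => z (false, i)) fun j => z (true, j) := by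
    funext p
    obtain ⟨b, i⟩ := p
    cases b <;> rfl
  rw [e]

theorem inp_pl {l d : ℕ} (hd : 2 * l + D * k ≤ d) (code : Fin n → Fin l → Bool)
    (i j : Fin n) (a b : Str k D) :
    Orthogonal (inp d code (pl i j a b)) i j ↔ Off a b := by
  have h := emb_orthogonal hd code (fun _ => a) (fun _ => b) i j
  rw [← h]
  unfold Orthogonal
  have e1 : inp d code (pl i j a b) (false, i) =
      tst (emb d code) (fun _ => a) (fun _ => b) (false, i) := by
    show embO d code (false, i) (pl i j a b (false, i)) = _
    have : pl i j a b (false, i) = some a := by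
      unfold pl
      rw [if_pos rfl]
    rw [this]
    rfl
  have e2 : inp d code (pl i j a b) (true, j) =
      tst (emb d code) (fun _ => a) (fun _ => b) (true, j) := by
    show embO d code (true, j) (pl i j a b (true, j)) = _
    have : pl i j a b (true, j) = some b := by
      unfold pl
      rw [if_neg (by simp), if_pos rfl]
    rw [this]
    rfl
  rw [e1, e2]

theorem pr_off1 (hk : 2 ≤ k) (i j : Fin n) :
    pr (fun y : Bool × Fin n → Str k D => Off (y (false, i)) (y (true, j))) =
      (((k : ℝ) - 1) / k) ^ D := by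
  classical
  have hne : Nonempty (Str k D) := ⟨fun _ => ⟨0, by omega⟩⟩
  rw [← pr_mix {(false, i)} fun y : Bool × Fin n → Str k D =>
    Off (y (false, i)) (y (true, j))]
  have h1 : ∀ u : Bool × Fin n → Str k D, (pr fun v : Bool × Fin n → Str k D =>
      Off (mix {(false, i)} u v (false, i)) (mix {(false, i)} u v (true, j))) =
      (((k : ℝ) - 1) / k) ^ D := by
    intro u
    have h2 : (pr fun v : Bool × Fin n → Str k D =>
        Off (mix {(false, i)} u v (false, i)) (mix {(false, i)} u v (true, j))) =
        pr fun v : Bool × Fin n → Str k D => Off (u (false, i)) (v (true, j)) := by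
      refine pr_congr fun v => ?_
      simp [mix]
    rw [h2, Pool.Agent.H58.OVPR.pr_coord (true, j) fun s : Str k D => Off (u (false, i)) s]
    unfold pr av
    have h3 := count_off' (k := k) (D := D) (by omega) (u (false, i))
    have h4 : (∑ s : Str k D, @ite ℝ (Off (u (false, i)) s)
        (Classical.propDecidable _) 1 0) = ((k : ℝ) - 1) ^ D := by
      rw [← h3]
      refine Finset.sum_congr rfl fun s _ => ?_
      by_cases h : Off (u (false, i)) s
      · rw [if_pos h, if_pos h]
      · rw [if_neg h, if_neg h]
    rw [h4, div_pow]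
    simp
  rw [av_congr h1]
  exact av_const _

theorem pr_off_le {l : ℕ} (hk : 2 ≤ k) (hD : D = k * (2 * l + 5)) (hn : n ≤ 2 ^ l) :
    pr (fun y : Bool × Fin n → Str k D => ∃ i j, Off (y (false, i)) (y (true, j))) ≤ 1 / 32 := by
  have hk' : (2 : ℝ) ≤ k := by exact_mod_cast hk
  have hk0 : (0 : ℝ) < k := by linarith
  have hnl : (n : ℝ) ≤ 2 ^ l := by exact_mod_cast hn
  have h1 : pr (fun y : Bool × Fin n → Str k D =>
      ∃ i j, Off (y (false, i)) (y (true, j))) ≤
      ∑ z ∈ (Finset.univ : Finset (Fin n × Fin n)),
        pr (fun y : Bool × Fin n → Str k D => Off (y (false, z.1)) (y (true, z.2))) := by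
    refine le_trans (pr_mono fun y hy => ?_) (pr_exists_le _ _)
    obtain ⟨i, j, hij⟩ := hy
    exact ⟨(i, j), Finset.mem_univ _, hij⟩
  refine h1.trans ?_
  simp only [pr_off1 hk]
  rw [Finset.sum_const, Finset.card_univ, Fintype.card_prod, Fintype.card_fin, nsmul_eq_mul]
  have h2 : (((k : ℝ) - 1) / k) ^ k ≤ 1 / 2 := by
    have := one_sub_inv_pow_le k (by omega)
    have h3 : ((k : ℝ) - 1) / k = 1 - 1 / k := by field_simp
    rw [h3]
    exact this
  have h3 : (((k : ℝ) - 1) / k) ^ D ≤ (1 / 2) ^ (2 * l + 5) := by
    rw [hD, pow_mul]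
    exact pow_le_pow_left₀ (pow_nonneg (div_nonneg (by linarith) hk0.le) _) h2 _
  have h4 : (n : ℝ) ^ 2 ≤ 2 ^ (2 * l) := by
    calc (n : ℝ) ^ 2 ≤ (2 ^ l) ^ 2 := pow_le_pow_left₀ (Nat.cast_nonneg n) hnl 2
      _ = 2 ^ (2 * l) := by rw [← pow_mul, mul_comm]
  calc ((n * n : ℕ) : ℝ) * (((k : ℝ) - 1) / k) ^ D ≤ 2 ^ (2 * l) * (1 / 2) ^ (2 * l + 5) := by
        apply mul_le_mul _ h3 (pow_nonneg (div_nonneg (by linarith) hk0.le) _) (by positivity)
        push_cast
        rw [← sq]
        exact h4
    _ = (2 * (1 / 2)) ^ (2 * l) * (1 / 32) := by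
        rw [pow_add, mul_pow]
        ring
    _ = 1 / 32 := by norm_num

/-- the space of the planted tests -/
abbrev PT (n k D : ℕ) : Type := (Fin n × Fin n) × {ab : Str k D × Str k D // Off ab.1 ab.2}

theorem pr_pt (hk : 2 ≤ k) (G : Fin n → Fin n → Str k D → Str k D → Prop) :
    (n : ℝ) ^ 2 * pr (fun τ : PT n k D => G τ.1.1 τ.1.2 τ.2.1.1 τ.2.1.2) =
      ∑ i, ∑ j, avR fun a b => ind (G i j a b) := by
  rcases Nat.eq_zero_or_pos n with rfl | hn
  · simp
  have hn' : (0 : ℝ) < n := by exact_mod_cast hn
  have h1 : pr (fun τ : PT n k D => G τ.1.1 τ.1.2 τ.2.1.1 τ.2.1.2) =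
      av fun z : Fin n × Fin n => avR fun a b => ind (G z.1 z.2 a b) := by
    refine Eq.trans (pr_prod fun (z : Fin n × Fin n)
      (w : {ab : Str k D × Str k D // Off ab.1 ab.2}) => G z.1 z.2 w.1.1 w.1.2) ?_
    refine av_congr fun z => ?_
    rw [avR_eq hk]
    rfl
  rw [h1]
  unfold av
  rw [Fintype.card_prod, Fintype.card_fin, Fintype.sum_prod_type]
  push_cast
  rw [← sq, mul_div_cancel₀ _ (by positivity)]

end Pool.Agent.H91.MN
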