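import Pool.Agent.H91.MN.NumB

set_option autoImplicit false
set_option maxHeartbeats 4000000

namespace Pool.Agent.H91.MN.FinB

/-! ### Orthogonal Vectors -/

/-- Positions of the `2n` input vectors: `(false, i)` is the `i`-th vector of `A`, and
`(true, j)` is the `j`-th vector of `B`. -/
abbrev Pos (n : ℕ) : Type := Bool × Fin n

/-- Vectors in `{0,1}^d`. -/
abbrev Vec (d : ℕ) : Type := Fin d → Bool

/-- An input: `n` vectors of `A` and `n` vectors of `B`, all in `{0,1}^d`. -/
abbrev Input (n d : ℕ) : Type := Pos n → Vec d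

/-- The list `A` (`b = false`) or the list `B` (`b = true`). -/
def list {n d : ℕ} (x : Input n d) (b : Bool) : Fin n → Vec d := fun i => x (b, i)

/-- Valid inputs: each of the two sets is listed in strictly increasing lexicographic order (so
each consists of exactly `n` distinct vectors, written in the canonical order). -/
def IsValid {n d : ℕ} (x : Input n d) : Prop :=
  StrictMono (fun i : Fin n => toLex (x (false, i))) ∧
  StrictMono (fun j : Fin n => toLex (x (true, j)))

/-- The answer to the Orthogonal Vectors question: some vector of `A` and some vector of `B` have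
inner product `0` over the integers. -/
def HasOrthogonalPair {n d : ℕ} (x : Input n d) : Prop :=
  ∃ i j : Fin n, ∑ k : Fin d, (x (false, i) k).toNat * (x (true, j) k).toNat = 0

/-! ### Monotone circuits -/

/-- A property of inputs which depends only on one of the two lists, and which remains true if some
ones of this list are replaced by zeros (`Antitone` refers to the pointwise order of lists of
vectors with `0 < 1`). -/
def OneSided {n d : ℕ} (u : Input n d → Prop) : Prop :=
  ∃ (b : Bool) (ψ : (Fin n → Vec d) → Prop), Antitone ψ ∧ ∀ x, u x ↔ ψ (list x b)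

/-- A monotone circuit for inputs of size `n, d`: a sequence of gates. An AND gate is the
conjunction of any number of earlier gates. Every other gate is an arbitrary one-sided property or
the disjunction of any number of earlier gates. -/
structure Circuit (n d : ℕ) where
  /-- the number of gates -/
  size : ℕ
  /-- the value of a gate: the gate `g` is true on the input `x` -/
  value : Fin size → Input n d → Prop
  /-- the AND gates -/
  ands : Finset (Fin size)
  /-- an AND gate is the conjunction of the gates of a set `J` of earlier gates -/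
  and_gate : ∀ g ∈ ands, ∃ J : Finset (Fin size),
    (∀ j ∈ J, j < g) ∧ ∀ x, value g x ↔ ∀ j ∈ J, value j x
  /-- every other gate is one-sided or the disjunction of the gates of a set `J` of earlier gates -/
  other_gate : ∀ g, g ∉ ands → OneSided (value g) ∨ ∃ J : Finset (Fin size),
    (∀ j ∈ J, j < g) ∧ ∀ x, value g x ↔ ∃ j ∈ J, value j x
  /-- the output gate -/
  out : Fin size

/-- A proof system with `N` possible certificates: a circuit for every certificate `w`. -/
abbrev Family (n d N : ℕ) : Type := Fin N → Circuit n d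

/-- The answer is yes iff all circuits accept the input. So the answer is no iff there is a
certificate `w` whose circuit rejects: a certificate that there is no orthogonal pair. -/
def Accepts {n d N : ℕ} (F : Family n d N) (x : Input n d) : Prop :=
  ∀ w, (F w).value (F w).out x

/-! ### The lower bound -/

open Pool.Agent.H58.OVAC (av pr Str Off Good exists_code pr_mono pr_nonneg pr_le_one av_const)
open Pool.Agent.H58.OVPR (le_one)
open Pool.Agent.H91.MN (Kind Net OneL pl full inp embO_le inp_valid inp_full inp_pl pr_off_le PT low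
  surv freeSum free_one rej yaoW compl_le' low2 degree rej2 gap)

section

variable {n d k D l : ℕ}

open Classical in
/-- the kinds of the gates -/
private noncomputable def kindOf (C : Circuit n d) (g : Fin C.size) : Kind C.size :=
  if h : g ∈ C.ands then Kind.and (Classical.choose (C.and_gate g h))
  else if h' : OneSided (C.value g) then Kind.leaf
  else Kind.or (Classical.choose ((C.other_gate g h).resolve_left h'))

private theorem kind_leaf {C : Circuit n d} {g : Fin C.size} (h : kindOf C g = Kind.leaf) :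
    OneSided (C.value g) := by
  unfold kindOf at h
  split_ifs at h with h1 h2
  exact h2

private theorem kind_or {C : Circuit n d} {g : Fin C.size} {J : Finset (Fin C.size)}
    (h : kindOf C g = Kind.or J) :
    (∀ j ∈ J, j < g) ∧ ∀ x, C.value g x ↔ ∃ j ∈ J, C.value j x := by
  unfold kindOf at h
  split_ifs at h with h1 h2
  injection h with h3
  rw [← h3]
  exact Classical.choose_spec ((C.other_gate g h1).resolve_left h2)

private theorem kind_and {C : Circuit n d} {g : Fin C.size} {J : Finset (Fin C.size)}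
    (h : kindOf C g = Kind.and J) :
    g ∈ C.ands ∧ (∀ j ∈ J, j < g) ∧ ∀ x, C.value g x ↔ ∀ j ∈ J, C.value j x := by
  unfold kindOf at h
  split_ifs at h with h1 h2
  injection h with h3
  rw [← h3]
  exact ⟨h1, Classical.choose_spec (C.and_gate g h1)⟩

private theorem leaf_le (code : Fin n → Fin l → Bool) {u : Input n d → Prop} (hu : OneSided u) :
    ∃ b : Bool, ∀ z z' : Bool × Fin n → Option (Str k D),
      (∀ p, p.1 = b → z p = none ∨ z p = z' p) → u (inp d code z) → u (inp d code z') := by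
  obtain ⟨b, ψ, hψ, h⟩ := hu
  refine ⟨b, fun z z' hz h1 => ?_⟩
  rw [h] at h1 ⊢
  exact hψ (fun i => embO_le code (b, i) (hz (b, i) rfl)) h1

/-- the circuit on the tests -/
private noncomputable def netOf (k D : ℕ) (code : Fin n → Fin l → Bool) (C : Circuit n d) :
    Net (Bool × Fin n) (Str k D) C.size where
  kind := kindOf C
  val g z := C.value g (inp d code z)
  leaf_mono g hg z z' hz := by
    obtain ⟨b, hb⟩ := leaf_le (k := k) (D := D) code (kind_leaf hg)
    exact hb z z' fun p _ => hz p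
  or_lt g J hg := (kind_or hg).1
  or_val g J hg z := (kind_or hg).2 _
  and_lt g J hg := (kind_and hg).2.1
  and_val g J hg z := (kind_and hg).2.2 _

end

/-- the general form of the two lower bounds: `κ` is the measure of the free planted tests, `κ'` the
allowed measure of the rejected planted tests, `α` the ratio of the two probabilities -/
private theorem core {ε : ℝ} (hε : 0 < ε) (K : ℕ) {a b κ κ' α η₀ : ℝ} (hη₀ : 0 < η₀)
    (hκ' : 0 < κ') (hκ : κ' < κ) (hα0 : 0 ≤ α) (hα : α ≤ (31 / 32 - 1 / 10) * κ') (n₁ : ℕ)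
    (hab : ∀ n : ℕ, n₁ ≤ n → 6 ≤ n * (b / 2 - a * Real.log 2))
    (hfree : ∀ (η : ℝ) (k n D : ℕ), 2 ≤ k → 0 < η → η ≤ 1 → η ≤ η₀ → Good k (1 + η) →
      ∀ Φ : Bool × Fin n → Set (Str k D), Real.exp (-(b * n)) ≤ surv Φ →
        κ * (n : ℝ) ^ 2 ≤ freeSum Φ) :
    ∃ C : ℕ, ∀ n d N s : ℕ, C ≤ n → C * Nat.clog 2 n ≤ d → ∀ ρ : ℝ, 0 < ρ →
      (N : ℝ) ≤ ρ * 2 ^ (a * n) → ∀ μ : PMF (Family n d N),
      (∀ F ∈ μ.support, ∀ w, (F w).size ≤ n ^ K ∧ (F w).ands.card ≤ s) →
      (∀ x : Input n d, IsValid x → ¬ HasOrthogonalPair x →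
        ENNReal.ofReal ρ ≤ μ.toOuterMeasure {F | ¬ Accepts F x}) →
      (∀ x : Input n d, IsValid x → HasOrthogonalPair x →
        μ.toOuterMeasure {F | ¬ Accepts F x} ≤ ENNReal.ofReal (α * ρ)) →
      (n : ℝ) ^ (2 - ε) ≤ s := by
  classical
  obtain ⟨η, k, hη0, hη1, hη2, hk, hgood, n₀, hlow⟩ :=
    low hε (show 0 < κ - κ' by linarith) hη₀ K
  refine ⟨max (max n₀ (max n₁ 2)) (2 + 7 * k ^ 2), ?_⟩
  intro n d N s hn hd ρ hρ0 hN μ hsize hno hyes
  have hn0 : n₀ ≤ n := (le_max_left _ _).trans ((le_max_left _ _).trans hn)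
  have hn12 : max n₁ 2 ≤ n := (le_max_right _ _).trans ((le_max_left _ _).trans hn)
  have hn1 : n₁ ≤ n := (le_max_left _ _).trans hn12
  have hn2 : 2 ≤ n := (le_max_right _ _).trans hn12
  set l : ℕ := Nat.clog 2 n with hl
  have hl1 : 1 ≤ l := Nat.clog_pos (by norm_num) hn2
  have hnl : n ≤ 2 ^ l := Nat.le_pow_clog (by norm_num) n
  set D : ℕ := k * (2 * l + 5) with hD
  have hd1 : 2 * l + D * k ≤ d := by
    have h1 : (2 + 7 * k ^ 2) * l ≤ d := (Nat.mul_le_mul_right l (le_max_right _ _)).trans hd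
    have h2 : 2 * l + D * k ≤ (2 + 7 * k ^ 2) * l := by
      rw [hD]
      have h3 : k * (2 * l + 5) * k ≤ 7 * k ^ 2 * l := by
        have h4 : 2 * l + 5 ≤ 7 * l := by omega
        calc k * (2 * l + 5) * k = k ^ 2 * (2 * l + 5) := by ring
          _ ≤ k ^ 2 * (7 * l) := Nat.mul_le_mul_left _ h4
          _ = 7 * k ^ 2 * l := by ring
      rw [add_mul]
      omega
    exact h2.trans h1
  obtain ⟨code, hcode⟩ := exists_code hnl
  have hne : Nonempty (Str k D) := ⟨fun _ => ⟨0, by omega⟩⟩
  have hneT : Nonempty (PT n k D) := by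
    refine ⟨((⟨0, by omega⟩, ⟨0, by omega⟩), ⟨(fun _ => ⟨0, by omega⟩,
      fun _ => ⟨1, by omega⟩), fun c h => ?_⟩)⟩
    simp at h
  have hval : ∀ z : Bool × Fin n → Option (Str k D), IsValid (inp d code z) := fun z =>
    inp_valid (by omega) code hcode z
  -- random full tests have no orthogonal pair
  set off : (Bool × Fin n → Str k D) → Prop := fun z =>
    ∃ i j, Off (z (false, i)) (z (true, j)) with hoff
  have hoffle : pr off ≤ 1 / 32 := pr_off_le (n := n) hk hD hnl
  have hnooff : ∀ z : Bool × Fin n → Str k D, ¬ off z →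
      ¬ HasOrthogonalPair (inp d code (full z)) := by
    rintro z hz ⟨i, j, hij⟩
    exact hz ⟨i, j, (inp_full hd1 code z i j).1 hij⟩
  have hρ1 : ρ ≤ 1 := by
    obtain ⟨z, hz⟩ : ∃ z, ¬ off z := by
      by_contra hcon
      push Not at hcon
      have h1 : pr off = 1 := by
        have h2 : pr (fun _ : Bool × Fin n → Str k D => True) = 1 := by
          unfold pr
          simp only [if_true]
          exact av_const 1
        rw [← h2]
        exact Pool.Agent.H58.OVAC.pr_congr fun z => iff_of_true (hcon z) trivial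
      linarith
    have h1 := (hno _ (hval _) (hnooff z hz)).trans (le_one μ _)
    exact (ENNReal.ofReal_le_ofReal_iff zero_le_one).1 h1
  -- averaging
  obtain ⟨F, hF, hsum⟩ := yaoW μ
    (fun F (z : Bool × Fin n → Str k D) => Accepts F (inp d code (full z)))
    (fun F (τ : PT n k D) => ¬ Accepts F (inp d code (pl τ.1.1 τ.1.2 τ.2.1.1 τ.2.1.2)))
    (fun z => if off z then 1 else 1 - ρ) (fun _ => α * ρ)
    (fun z => by split_ifs <;> linarith) (fun _ => by positivity)
    (fun z => by
      by_cases h : off z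
      · simp only [h, if_true]
        exact le_one μ _
      · simp only [h, if_false]
        exact compl_le' μ _ hρ0.le hρ1 (hno _ (hval _) (hnooff z h)))
    (fun τ => hyes _ (hval _) ⟨τ.1.1, τ.1.2, (inp_pl hd1 code _ _ _ _).2 τ.2.2⟩) hκ'.le
  have hav : (av fun z => if off z then (1 : ℝ) else 1 - ρ) = 1 - ρ + ρ * pr off := by
    have h1 : ∀ z, (if off z then (1 : ℝ) else 1 - ρ) = (1 - ρ) + ρ * (if off z then 1 else 0) := by
      intro z
      split_ifs <;> ring
    simp only [h1]
    rw [Pool.Agent.H58.OVAC.av_add, av_const, Pool.Agent.H58.OVAC.av_mul_left]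
    congr 2
    unfold pr
    congr 1
    funext z
    congr
  rw [hav, av_const] at hsum
  set X : ℝ := pr fun z : Bool × Fin n → Str k D => Accepts F (inp d code (full z)) with hX
  set Y : ℝ := pr fun τ : PT n k D =>
    ¬ Accepts F (inp d code (pl τ.1.1 τ.1.2 τ.2.1.1 τ.2.1.2)) with hY
  have hX1 : X ≤ 1 := pr_le_one _
  have hY0 : 0 ≤ Y := pr_nonneg _
  have hX0 : 0 ≤ X := pr_nonneg _
  have hb1 : κ' * (1 - ρ + ρ * pr off) + α * ρ ≤ κ' - κ' * ρ / 10 := by
    have h1 : ρ * pr off ≤ ρ * (1 / 32) := mul_le_mul_of_nonneg_left hoffle hρ0.le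
    have h2 : κ' * (1 - ρ + ρ * pr off) ≤ κ' * (1 - ρ + ρ * (1 / 32)) :=
      mul_le_mul_of_nonneg_left (by linarith) hκ'.le
    have h3 : α * ρ ≤ (31 / 32 - 1 / 10) * κ' * ρ := mul_le_mul_of_nonneg_right hα hρ0.le
    nlinarith
  have hrejY : Y ≤ κ' := by
    have h1 : 0 ≤ κ' * X := mul_nonneg hκ'.le hX0
    have h2 : 0 ≤ κ' * ρ / 10 := by positivity
    linarith
  have hrejX : ρ / 10 ≤ 1 - X := by
    have h1 : κ' * X ≤ κ' - κ' * ρ / 10 := by linarith
    have h2 : κ' * (ρ / 10) ≤ κ' * (1 - X) := by linarith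
    exact le_of_mul_le_mul_left h2 hκ'
  refine hlow n hn0 D N (fun w => (F w).size) (fun w => netOf k D code (F w)) ?_
    (fun w => (F w).out) (fun w => (F w).ands) ?_ s (fun w => (hsize F hF w).2)
    (fun w => (hsize F hF w).1) (Real.exp (-(b * n))) κ (Real.exp_pos _) ?_
    (hfree η k n D hk hη0 hη1 hη2 hgood) ?_
  · intro w g hg
    exact leaf_le code (kind_leaf hg)
  · intro w g J hg
    exact (kind_and hg).1
  · -- full tests
    refine (rej hρ0 (hab n hn1) hN).trans_le (hrejX.trans (le_of_eq ?_))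
    rw [hX, ← Pool.Agent.H58.OVAC.pr_not]
    refine Pool.Agent.H58.OVAC.pr_congr fun z => ?_
    unfold Accepts
    push Not
    exact Iff.rfl
  · -- planted tests
    refine le_trans (le_of_eq ?_) (hrejY.trans (by linarith))
    rw [hY]
    refine Pool.Agent.H58.OVAC.pr_congr fun τ => ?_
    unfold Accepts
    push Not
    exact Iff.rfl

private theorem lower (ε : ℝ) (hε : 0 < ε) (K : ℕ) : ∃ C : ℕ, ∀ n d N s : ℕ, C ≤ n →
    C * Nat.clog 2 n ≤ d → ∀ ρ : ℝ, 0 < ρ → (N : ℝ) ≤ ρ * 2 ^ ((n : ℝ) / 10) →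
    ∀ μ : PMF (Family n d N),
    (∀ F ∈ μ.support, ∀ w, (F w).size ≤ n ^ K ∧ (F w).ands.card ≤ s) →
    (∀ x : Input n d, IsValid x → ¬ HasOrthogonalPair x →
      ENNReal.ofReal ρ ≤ μ.toOuterMeasure {F | ¬ Accepts F x}) →
    (∀ x : Input n d, IsValid x → HasOrthogonalPair x →
      μ.toOuterMeasure {F | ¬ Accepts F x} ≤ ENNReal.ofReal (ρ / 2)) →
    (n : ℝ) ^ (2 - ε) ≤ s := by
  obtain ⟨C, hC⟩ := core hε K (a := 1 / 10) (b := 1 / 5) (κ := 4 / 5) (κ' := 3 / 5) (α := 1 / 2)
    (η₀ := 1) one_pos (by norm_num) (by norm_num) (by norm_num) (by norm_num) 200 (fun n hn => by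
      have hn' : (200 : ℝ) ≤ n := by exact_mod_cast hn
      have := Real.log_two_lt_d9
      nlinarith) (fun η k n D hk _ _ _ _ Φ hΦ => by
      have := free_one hk hΦ
      norm_num at this ⊢
      exact this)
  refine ⟨C, fun n d N s hn hd ρ hρ hN μ h1 h2 h3 => hC n d N s hn hd ρ hρ ?_ μ h1 h2 ?_⟩
  · rwa [one_div, ← div_eq_inv_mul]
  · intro x hx hx'
    refine (h3 x hx hx').trans (le_of_eq ?_)
    congr 1
    ring

private theorem lower2 (ε : ℝ) (hε : 0 < ε) (K : ℕ) : ∃ C : ℕ, ∀ n d N s : ℕ, C ≤ n →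
    C * Nat.clog 2 n ≤ d → ∀ ρ a : ℝ, 0 < ρ → 0 ≤ a → C * a ≤ Real.log n →
    (N : ℝ) ≤ ρ * 2 ^ (a * n) → ∀ μ : PMF (Family n d N),
    (∀ F ∈ μ.support, ∀ w, (F w).size ≤ n ^ K ∧ (F w).ands.card ≤ s) →
    (∀ x : Input n d, IsValid x → ¬ HasOrthogonalPair x →
      ENNReal.ofReal ρ ≤ μ.toOuterMeasure {F | ¬ Accepts F x}) →
    (∀ x : Input n d, IsValid x → HasOrthogonalPair x →
      μ.toOuterMeasure {F | ¬ Accepts F x} ≤ ENNReal.ofReal (ρ / (C * 2 ^ (100 * a)))) →
    (n : ℝ) ^ (2 - ε) ≤ s := by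
  classical
  obtain ⟨γ, k, hγ, hk3, n₀, hlow⟩ := low2 hε K
  obtain ⟨C₁, hC₁⟩ := degree k hk3
  obtain ⟨C₂, hC21, hC₂⟩ := gap hγ
  have hk : 2 ≤ k := by omega
  set C₃ : ℕ := max (max n₀ (max C₁ C₂)) (max 8 (2 + 7 * k ^ 2)) with hC₃
  refine ⟨C₃, ?_⟩
  intro n d N s hn hd ρ a hρ0 ha haC hN μ hsize hno hyes
  have i1 : n₀ ≤ C₃ := (le_max_left _ _).trans (le_max_left _ _)
  have i2 : C₁ ≤ C₃ := (le_max_left _ _).trans ((le_max_right _ _).trans (le_max_left _ _))
  have i3 : C₂ ≤ C₃ := (le_max_right _ _).trans ((le_max_right _ _).trans (le_max_left _ _))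
  have i4 : 8 ≤ C₃ := (le_max_left _ _).trans (le_max_right _ _)
  have i5 : 2 + 7 * k ^ 2 ≤ C₃ := (le_max_right _ _).trans (le_max_right _ _)
  have hn0 : n₀ ≤ n := i1.trans hn
  have hn8 : 8 ≤ n := i4.trans hn
  have hn2 : 2 ≤ n := by omega
  have hmono : ∀ C : ℕ, C ≤ C₃ → (C : ℝ) * a ≤ Real.log n := fun C hC =>
    (mul_le_mul_of_nonneg_right (by exact_mod_cast hC) ha).trans haC
  obtain ⟨dg, hdg1, hdg2⟩ := hC₁ n (i2.trans hn) a ha (hmono C₁ i2)
  obtain ⟨hgap1, hgap0⟩ := hC₂ n (i3.trans hn) a ha (hmono C₂ i3)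
  set κ : ℝ := Real.exp (-(32 * ((2 * a + 1) + 2))) / 2 with hκ
  have hκ0 : 0 < κ := by positivity
  have hgap2 : 1 / ((C₃ : ℝ) * 2 ^ (100 * a)) ≤ κ / 2 / 2 := by
    refine le_trans (one_div_le_one_div_of_le ?_ ?_) hgap0
    · have : (0 : ℝ) < C₂ := by exact_mod_cast hC21
      positivity
    · exact mul_le_mul_of_nonneg_right (by exact_mod_cast i3) (by positivity)
  set l : ℕ := Nat.clog 2 n with hl
  have hl1 : 1 ≤ l := Nat.clog_pos (by norm_num) hn2
  have hnl : n ≤ 2 ^ l := Nat.le_pow_clog (by norm_num) n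
  set D : ℕ := k * (2 * l + 5) with hD
  have hd1 : 2 * l + D * k ≤ d := by
    have h1 : (2 + 7 * k ^ 2) * l ≤ d := (Nat.mul_le_mul_right l i5).trans hd
    have h2 : 2 * l + D * k ≤ (2 + 7 * k ^ 2) * l := by
      rw [hD]
      have h3 : k * (2 * l + 5) * k ≤ 7 * k ^ 2 * l := by
        have h4 : 2 * l + 5 ≤ 7 * l := by omega
        calc k * (2 * l + 5) * k = k ^ 2 * (2 * l + 5) := by ring
          _ ≤ k ^ 2 * (7 * l) := Nat.mul_le_mul_left _ h4
          _ = 7 * k ^ 2 * l := by ring
      rw [add_mul]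
      omega
    exact h2.trans h1
  obtain ⟨code, hcode⟩ := exists_code hnl
  have hne : Nonempty (Str k D) := ⟨fun _ => ⟨0, by omega⟩⟩
  have hneT : Nonempty (PT n k D) := by
    refine ⟨((⟨0, by omega⟩, ⟨0, by omega⟩), ⟨(fun _ => ⟨0, by omega⟩,
      fun _ => ⟨1, by omega⟩), fun c h => ?_⟩)⟩
    simp at h
  have hval : ∀ z : Bool × Fin n → Option (Str k D), IsValid (inp d code z) := fun z =>
    inp_valid (by omega) code hcode z
  -- random full tests are typical and have no orthogonal pair
  set off : (Bool × Fin n → Str k D) → Prop := fun z =>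
    ∃ i j, Off (z (false, i)) (z (true, j)) with hoff
  set Typ : (Bool × Fin n → Str k D) → Prop := Pool.H22.MC.Typical dg with hTyp
  set bad : (Bool × Fin n → Str k D) → Prop := fun z => off z ∨ ¬ Typ z with hbad
  have hbadle : pr bad ≤ 1 / 16 := by
    have h1 : pr off ≤ 1 / 32 := pr_off_le (n := n) hk hD hnl
    have h2 : pr (fun z => ¬ Typ z) ≤ 1 / 32 := hdg2 D hD
    have h3 : pr bad ≤ pr off + pr fun z => ¬ Typ z := by
      unfold pr
      rw [← Pool.Agent.H58.OVAC.av_add]
      refine Pool.Agent.H58.OVAC.av_mono fun z => ?_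
      dsimp only
      by_cases h4 : off z
      · rw [if_pos h4]
        refine le_trans (b := 1) ?_ (le_add_of_nonneg_right ?_)
        · split_ifs <;> norm_num
        · split_ifs <;> norm_num
      · by_cases h5 : Typ z
        · rw [if_neg (show ¬ bad z from fun h => h.elim h4 fun h => h h5)]
          refine add_nonneg ?_ ?_
          · split_ifs <;> norm_num
          · split_ifs <;> norm_num
        · rw [if_pos (show ¬ Typ z from h5)]
          refine le_trans (b := 1) ?_ (le_add_of_nonneg_left ?_)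
          · split_ifs <;> norm_num
          · split_ifs <;> norm_num
    linarith
  have hnooff : ∀ z : Bool × Fin n → Str k D, ¬ off z →
      ¬ HasOrthogonalPair (inp d code (full z)) := by
    rintro z hz ⟨i, j, hij⟩
    exact hz ⟨i, j, (inp_full hd1 code z i j).1 hij⟩
  have hρ1 : ρ ≤ 1 := by
    obtain ⟨z, hz⟩ : ∃ z, ¬ bad z := by
      by_contra hcon
      push Not at hcon
      have h1 : pr bad = 1 := by
        have h2 : pr (fun _ : Bool × Fin n → Str k D => True) = 1 := by
          unfold pr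
          simp only [if_true]
          exact av_const 1
        rw [← h2]
        exact Pool.Agent.H58.OVAC.pr_congr fun z => iff_of_true (hcon z) trivial
      linarith
    have h1 := (hno _ (hval _) (hnooff z fun h => hz (Or.inl h))).trans (le_one μ _)
    exact (ENNReal.ofReal_le_ofReal_iff zero_le_one).1 h1
  -- averaging
  have hα : 0 ≤ ρ / ((C₃ : ℝ) * 2 ^ (100 * a)) := by positivity
  obtain ⟨F, hF, hsum⟩ := yaoW μ
    (fun F (z : Bool × Fin n → Str k D) => ¬ (Typ z ∧ ¬ Accepts F (inp d code (full z))))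
    (fun F (τ : PT n k D) => ¬ Accepts F (inp d code (pl τ.1.1 τ.1.2 τ.2.1.1 τ.2.1.2)))
    (fun z => if bad z then 1 else 1 - ρ) (fun _ => ρ / ((C₃ : ℝ) * 2 ^ (100 * a)))
    (fun z => by split_ifs <;> linarith) (fun _ => hα)
    (fun z => by
      by_cases h : bad z
      · simp only [h, if_true]
        exact le_one μ _
      · simp only [h, if_false]
        have h1 : Typ z := by
          by_contra h2
          exact h (Or.inr h2)
        refine le_trans (le_of_eq ?_)
          (compl_le' μ _ hρ0.le hρ1 (hno _ (hval _) (hnooff z fun h' => h (Or.inl h'))))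
        congr 1
        ext F
        show ¬ (Typ z ∧ ¬ Accepts F (inp d code (full z))) ↔ Accepts F (inp d code (full z))
        tauto)
    (fun τ => hyes _ (hval _) ⟨τ.1.1, τ.1.2, (inp_pl hd1 code _ _ _ _).2 τ.2.2⟩)
    (show 0 ≤ κ / 2 by positivity)
  have hav : (av fun z => if bad z then (1 : ℝ) else 1 - ρ) = 1 - ρ + ρ * pr bad := by
    have h1 : ∀ z, (if bad z then (1 : ℝ) else 1 - ρ) = (1 - ρ) + ρ * (if bad z then 1 else 0) := by
      intro z
      split_ifs <;> ring
    simp only [h1]
    rw [Pool.Agent.H58.OVAC.av_add, av_const, Pool.Agent.H58.OVAC.av_mul_left]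
    congr 2
    unfold pr
    refine Pool.Agent.H58.OVAC.av_congr fun z => ?_
    split_ifs <;> rfl
  rw [hav, av_const] at hsum
  set X : ℝ := pr fun z : Bool × Fin n → Str k D =>
    ¬ (Typ z ∧ ¬ Accepts F (inp d code (full z))) with hX
  set Y : ℝ := pr fun τ : PT n k D => ¬ Accepts F (inp d code (pl τ.1.1 τ.1.2 τ.2.1.1 τ.2.1.2))
    with hY
  have hX0 : 0 ≤ X := pr_nonneg _
  have hY0 : 0 ≤ Y := pr_nonneg _
  have hbound : κ / 2 * (1 - ρ + ρ * pr bad) + ρ / ((C₃ : ℝ) * 2 ^ (100 * a)) ≤
      κ / 2 - κ / 2 * ρ / 10 := by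
    have h1 : ρ * pr bad ≤ ρ * (1 / 16) := mul_le_mul_of_nonneg_left hbadle hρ0.le
    have h2 : κ / 2 * (1 - ρ + ρ * pr bad) ≤ κ / 2 * (1 - ρ + ρ * (1 / 16)) :=
      mul_le_mul_of_nonneg_left (by linarith) (by positivity)
    have h3 : ρ / ((C₃ : ℝ) * 2 ^ (100 * a)) ≤ ρ * (κ / 2 / 2) := by
      rw [div_eq_mul_one_div]
      exact mul_le_mul_of_nonneg_left hgap2 hρ0.le
    have h4 : 0 ≤ ρ * κ := by positivity
    nlinarith
  have hrejY : Y ≤ κ / 2 := by
    have h1 : 0 ≤ κ / 2 * X := by positivity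
    have h2 : 0 ≤ κ / 2 * ρ / 10 := by positivity
    linarith
  have hrejX : ρ / 10 ≤ 1 - X := by
    have h1 : κ / 2 * X ≤ κ / 2 - κ / 2 * ρ / 10 := by linarith
    have h2 : κ / 2 * (ρ / 10) ≤ κ / 2 * (1 - X) := by linarith
    exact le_of_mul_le_mul_left h2 (by positivity)
  refine hlow n hn0 D N (fun w => (F w).size) (fun w => netOf k D code (F w)) ?_
    (fun w => (F w).out) (fun w => (F w).ands) ?_ s (fun w => (hsize F hF w).2)
    (fun w => (hsize F hF w).1) (Real.exp (-((2 * a + 1) * n))) κ (κ / 2) (Real.exp_pos _) Typ ?_ ?_ ?_ ?_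
  · intro w g hg
    exact leaf_le code (kind_leaf hg)
  · intro w g J hg
    exact (kind_and hg).1
  · -- full tests
    refine (rej2 hρ0 ha hn8 hN).trans_le (hrejX.trans (le_of_eq ?_))
    rw [hX, ← Pool.Agent.H58.OVAC.pr_not]
    refine Pool.Agent.H58.OVAC.pr_congr fun z => ?_
    rw [not_not]
    refine and_congr_right fun _ => ?_
    unfold Accepts
    push Not
    exact Iff.rfl
  · -- free planted tests
    intro E Φ hE1 hE2 hE3
    refine Pool.H22.MC.key hk3 (by omega) (b := 2 * a + 1) (by positivity) hdg1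
      (E := Finset.univ.filter E) (fun z hz => hE1 z (Finset.mem_filter.1 hz).2) ?_
      (fun z hz => hE3 z (Finset.mem_filter.1 hz).2)
    have h1 : pr E = ((Finset.univ.filter E).card : ℝ) /
        (Fintype.card (Str k D) : ℝ) ^ (2 * n) := by
      unfold pr av
      congr 1
      · rw [Finset.natCast_card_filter]
      · rw [Fintype.card_fun, Fintype.card_prod, Fintype.card_bool, Fintype.card_fin]
        push_cast
        rfl
    rw [h1, le_div_iff₀ (pow_pos (by exact_mod_cast Fintype.card_pos) _)] at hE2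
    exact hE2
  · -- planted tests
    refine le_trans (le_of_eq ?_) hrejY
    rw [hY]
    refine Pool.Agent.H58.OVAC.pr_congr fun τ => ?_
    unfold Accepts
    push Not
    exact Iff.rfl
  · refine hgap1.trans (le_of_eq ?_)
    ring

/-! ### The converses -/

section

variable {n d : ℕ}

/-- circuits from gates with ranks -/
private theorem ofRank {ι : Type} [Fintype ι] [DecidableEq ι] (r : ι → ℕ)
    (v : ι → Input n d → Prop) (A : Finset ι)
    (hA : ∀ g ∈ A, ∃ J : Finset ι, (∀ j ∈ J, r j < r g) ∧ ∀ x, v g x ↔ ∀ j ∈ J, v j x)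
    (hB : ∀ g, g ∉ A → OneSided (v g) ∨
      ∃ J : Finset ι, (∀ j ∈ J, r j < r g) ∧ ∀ x, v g x ↔ ∃ j ∈ J, v j x) (o : ι) :
    ∃ C : Circuit n d, C.size = Fintype.card ι ∧ C.ands.card = A.card ∧
      ∀ x, C.value C.out x ↔ v o x := by
  let e0 : ι ≃ Fin (Fintype.card ι) := Fintype.equivFin ι
  let f : Fin (Fintype.card ι) → ℕ := fun a => r (e0.symm a)
  let σ : Equiv.Perm (Fin (Fintype.card ι)) := Tuple.sort f
  have hσ : Monotone (f ∘ σ) := Tuple.monotone_sort f
  let e : ι ≃ Fin (Fintype.card ι) := e0.trans σ.symm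
  have he : ∀ a, f (σ (e a)) = r a := by
    intro a
    simp [e, f]
  have hlt : ∀ a b, r a < r b → e a < e b := by
    intro a b hab
    by_contra hcon
    have h1 : f (σ (e b)) ≤ f (σ (e a)) := hσ (not_lt.1 hcon)
    rw [he, he] at h1
    omega
  refine ⟨{ size := Fintype.card ι
            value := fun g => v (e.symm g)
            ands := A.map e.toEmbedding
            and_gate := ?_
            other_gate := ?_
            out := e o }, rfl, Finset.card_map _, fun x => ?_⟩
  · intro g hg
    obtain ⟨a, ha, rfl⟩ := Finset.mem_map.1 hg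
    obtain ⟨J, hJ, hv⟩ := hA a ha
    refine ⟨J.map e.toEmbedding, ?_, fun x => ?_⟩
    · intro j hj
      obtain ⟨b, hb, rfl⟩ := Finset.mem_map.1 hj
      exact hlt b a (hJ b hb)
    · simp only [Equiv.coe_toEmbedding, Equiv.symm_apply_apply]
      rw [hv]
      constructor
      · intro h j hj
        obtain ⟨b, hb, rfl⟩ := Finset.mem_map.1 hj
        simpa using h b hb
      · intro h b hb
        simpa using h (e b) (Finset.mem_map_of_mem _ hb)
  · intro g hg
    have hg' : e.symm g ∉ A := by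
      intro h
      apply hg
      have := Finset.mem_map_of_mem e.toEmbedding h
      simpa using this
    rcases hB _ hg' with h | ⟨J, hJ, hv⟩
    · exact Or.inl h
    · right
      refine ⟨J.map e.toEmbedding, ?_, fun x => ?_⟩
      · intro j hj
        obtain ⟨b, hb, rfl⟩ := Finset.mem_map.1 hj
        have := hlt b (e.symm g) (hJ b hb)
        simpa using this
      · rw [hv]
        constructor
        · rintro ⟨b, hb, h⟩
          exact ⟨e b, Finset.mem_map_of_mem _ hb, by simpa using h⟩
        · rintro ⟨j, hj, h⟩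
          obtain ⟨b, hb, rfl⟩ := Finset.mem_map.1 hj
          exact ⟨b, hb, by simpa using h⟩
  · simp

private theorem orth_iff (u v : Vec d) :
    ∑ k : Fin d, (u k).toNat * (v k).toNat = 0 ↔ ∀ k, u k = false ∨ v k = false := by
  rw [Finset.sum_eq_zero_iff]
  constructor
  · intro h k
    have := h k (Finset.mem_univ k)
    cases hu : u k <;> cases hv : v k <;> simp_all
  · intro h k _
    rcases h k with h | h <;> simp [h]

/-- the gates of the trivial circuit -/
private abbrev Gate (n d : ℕ) : Type :=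
  (Bool × Fin n × Fin d) ⊕ (Fin n × Fin n × Fin d) ⊕ (Fin n × Fin n) ⊕ Unit

private def rank : Gate n d → ℕ
  | Sum.inl _ => 0
  | Sum.inr (Sum.inl _) => 1
  | Sum.inr (Sum.inr (Sum.inl _)) => 2
  | Sum.inr (Sum.inr (Sum.inr _)) => 3

private def valT : Gate n d → Input n d → Prop
  | Sum.inl q, x => x (q.1, q.2.1) q.2.2 = false
  | Sum.inr (Sum.inl q), x => x (false, q.1) q.2.2 = false ∨ x (true, q.2.1) q.2.2 = false
  | Sum.inr (Sum.inr (Sum.inl q)), x => ∀ k, x (false, q.1) k = false ∨ x (true, q.2) k = false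
  | Sum.inr (Sum.inr (Sum.inr _)), x => HasOrthogonalPair x

private theorem one : ∃ F : Family n d 1, (∀ x, Accepts F x ↔ HasOrthogonalPair x) ∧
    ∀ w, (F w).size = 2 * n * d + n ^ 2 * d + n ^ 2 + 1 ∧ (F w).ands.card = n ^ 2 := by
  classical
  have hinj : Function.Injective fun q : Fin n × Fin n =>
      (Sum.inr (Sum.inr (Sum.inl q)) : Gate n d) := by
    intro a b h
    simpa using h
  let A : Finset (Gate n d) := (Finset.univ : Finset (Fin n × Fin n)).map ⟨_, hinj⟩
  have hA : ∀ g ∈ A, ∃ J : Finset (Gate n d), (∀ j ∈ J, rank j < rank g) ∧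
      ∀ x, valT g x ↔ ∀ j ∈ J, valT j x := by
    intro g hg
    obtain ⟨⟨i, j⟩, -, rfl⟩ := Finset.mem_map.1 hg
    refine ⟨Finset.univ.image fun k : Fin d => Sum.inr (Sum.inl (i, j, k)), ?_, fun x => ?_⟩
    · intro q hq
      obtain ⟨k, -, rfl⟩ := Finset.mem_image.1 hq
      show 1 < 2
      norm_num
    · constructor
      · intro h q hq
        obtain ⟨k, -, rfl⟩ := Finset.mem_image.1 hq
        exact h k
      · intro h k
        exact h _ (Finset.mem_image_of_mem _ (Finset.mem_univ k))
  have hB : ∀ g, g ∉ A → OneSided (valT g) ∨ ∃ J : Finset (Gate n d),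
      (∀ j ∈ J, rank j < rank g) ∧ ∀ x, valT g x ↔ ∃ j ∈ J, valT j x := by
    intro g hg
    rcases g with ⟨b, i, k⟩ | ⟨i, j, k⟩ | ⟨i, j⟩ | u
    · left
      refine ⟨b, fun y => y i k = false, ?_, fun x => Iff.rfl⟩
      intro y y' hy h
      have h1 := hy i k
      rw [show y' i k = false from h] at h1
      exact Bool.eq_false_of_le_false h1
    · right
      refine ⟨{Sum.inl (false, i, k), Sum.inl (true, j, k)}, ?_, fun x => ?_⟩
      · intro q hq
        rw [Finset.mem_insert, Finset.mem_singleton] at hq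
        rcases hq with rfl | rfl
        · show 0 < 1
          norm_num
        · show 0 < 1
          norm_num
      · constructor
        · rintro (h | h)
          · exact ⟨_, Finset.mem_insert_self _ _, h⟩
          · exact ⟨_, Finset.mem_insert_of_mem (Finset.mem_singleton_self _), h⟩
        · rintro ⟨q, hq, h⟩
          rw [Finset.mem_insert, Finset.mem_singleton] at hq
          rcases hq with rfl | rfl
          · exact Or.inl h
          · exact Or.inr h
    · exact absurd (Finset.mem_map.2 ⟨(i, j), Finset.mem_univ _, rfl⟩) hg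
    · right
      refine ⟨Finset.univ.image fun q : Fin n × Fin n => Sum.inr (Sum.inr (Sum.inl q)), ?_,
        fun x => ?_⟩
      · intro q hq
        obtain ⟨k, -, rfl⟩ := Finset.mem_image.1 hq
        show 2 < 3
        norm_num
      · constructor
        · rintro ⟨i, j, h⟩
          exact ⟨_, Finset.mem_image_of_mem _ (Finset.mem_univ (i, j)), (orth_iff _ _).1 h⟩
        · rintro ⟨q, hq, h⟩
          obtain ⟨⟨i, j⟩, -, rfl⟩ := Finset.mem_image.1 hq
          exact ⟨i, j, (orth_iff _ _).2 h⟩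
  obtain ⟨C, hC1, hC2, hC3⟩ := ofRank (n := n) (d := d) rank valT A hA hB
    (Sum.inr (Sum.inr (Sum.inr ())))
  refine ⟨fun _ => C, fun x => ?_, fun _ => ⟨?_, ?_⟩⟩
  · unfold Accepts
    constructor
    · intro h
      exact (hC3 x).1 (h 0)
    · intro h w
      exact (hC3 x).2 h
  · rw [hC1]
    simp only [Gate, Fintype.card_sum, Fintype.card_prod, Fintype.card_bool, Fintype.card_fin,
      Fintype.card_unit]
    ring
  · rw [hC2, Finset.card_map, Finset.card_univ, Fintype.card_prod, Fintype.card_fin, sq]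

/-- the input with the list `A` of `x` and the list `y` in the place of `B` -/
private def withB (x : Input n d) (y : Fin n → Vec d) : Input n d := fun p =>
  if p.1 = false then x p else y p.2

private theorem many : ∃ F : Family n d (2 ^ (n * d)), (∀ x, Accepts F x ↔ HasOrthogonalPair x) ∧
    ∀ w, (F w).size = 3 ∧ (F w).ands = ∅ := by
  classical
  have hcard : Fintype.card (Fin n → Vec d) = 2 ^ (n * d) := by
    rw [Fintype.card_fun, Fintype.card_fun, Fintype.card_bool, Fintype.card_fin, Fintype.card_fin,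
      ← pow_mul, mul_comm]
  let e : (Fin n → Vec d) ≃ Fin (2 ^ (n * d)) := Fintype.equivFinOfCardEq hcard
  have h1 : ∀ y : Fin n → Vec d, ∃ C : Circuit n d, C.size = 3 ∧ C.ands = ∅ ∧
      ∀ x, C.value C.out x ↔ (HasOrthogonalPair (withB x y) ∨ ¬ y ≤ list x true) := by
    intro y
    let v : Fin 3 → Input n d → Prop := fun g x =>
      if g = 0 then HasOrthogonalPair (withB x y) else
        if g = 1 then ¬ y ≤ list x true else
          (HasOrthogonalPair (withB x y) ∨ ¬ y ≤ list x true)
    have hB : ∀ g, g ∉ (∅ : Finset (Fin 3)) → OneSided (v g) ∨ ∃ J : Finset (Fin 3),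
        (∀ j ∈ J, j.1 < g.1) ∧ ∀ x, v g x ↔ ∃ j ∈ J, v j x := by
      intro g _
      fin_cases g
      · left
        refine ⟨false, fun a => ∃ i j : Fin n,
          ∑ k : Fin d, (a i k).toNat * (y j k).toNat = 0, ?_, fun x => ?_⟩
        · rintro a a' ha ⟨i, j, h⟩
          refine ⟨i, j, (orth_iff _ _).2 fun k => ?_⟩
          rcases (orth_iff _ _).1 h k with h2 | h2
          · left
            have h3 := ha i k
            rw [h2] at h3
            exact Bool.eq_false_of_le_false h3
          · exact Or.inr h2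
        · simp [v, HasOrthogonalPair, withB, list]
      · left
        refine ⟨true, fun b => ¬ y ≤ b, ?_, fun x => ?_⟩
        · intro b b' hb h h2
          exact h (h2.trans hb)
        · simp [v]
      · right
        refine ⟨{0, 1}, ?_, fun x => ?_⟩
        · intro q hq
          rw [Finset.mem_insert, Finset.mem_singleton] at hq
          rcases hq with rfl | rfl
          · show (0 : ℕ) < 2
            norm_num
          · show (1 : ℕ) < 2
            norm_num
        · simp [v]
    obtain ⟨C, hC1, hC2, hC3⟩ := ofRank (n := n) (d := d) (ι := Fin 3) (fun g => g.1) v ∅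
      (fun g hg => absurd hg (Finset.notMem_empty g)) hB 2
    refine ⟨C, by rw [hC1, Fintype.card_fin], Finset.card_eq_zero.1 (by rw [hC2]; rfl),
      fun x => ?_⟩
    rw [hC3]
    simp [v]
  choose C hC1 hC2 hC3 using h1
  refine ⟨fun w => C (e.symm w), fun x => ?_, fun w => ⟨hC1 _, hC2 _⟩⟩
  unfold Accepts
  constructor
  · intro h
    have h2 := (hC3 _ x).1 (h (e (list x true)))
    rw [Equiv.symm_apply_apply] at h2
    rcases h2 with h2 | h2
    · have h3 : withB x (list x true) = x := by
        funext p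
        obtain ⟨b, i⟩ := p
        cases b <;> simp [withB, list]
      rwa [h3] at h2
    · exact absurd le_rfl h2
  · rintro ⟨i, j, h⟩ w
    rw [hC3]
    by_cases h2 : e.symm w ≤ list x true
    · left
      refine ⟨i, j, (orth_iff _ _).2 fun k => ?_⟩
      rcases (orth_iff _ _).1 h k with h3 | h3
      · left
        simpa [withB] using h3
      · right
        have h4 := h2 j k
        have h5 : list x true j k = false := h3
        rw [h5] at h4
        have h6 := Bool.eq_false_of_le_false h4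
        simpa [withB] using h6
    · exact Or.inr h2

end

/-- **Certificates do not help monotone circuits.** -/
theorem result :
    (∀ ε : ℝ, 0 < ε → ∀ K : ℕ, ∃ C : ℕ, ∀ n d N s : ℕ, C ≤ n → C * Nat.clog 2 n ≤ d →
      ∀ ρ : ℝ, 0 < ρ → (N : ℝ) ≤ ρ * 2 ^ ((n : ℝ) / 10) → ∀ μ : PMF (Family n d N),
      (∀ F ∈ μ.support, ∀ w, (F w).size ≤ n ^ K ∧ (F w).ands.card ≤ s) →
      (∀ x : Input n d, IsValid x → ¬ HasOrthogonalPair x →
        ENNReal.ofReal ρ ≤ μ.toOuterMeasure {F | ¬ Accepts F x}) →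
      (∀ x : Input n d, IsValid x → HasOrthogonalPair x →
        μ.toOuterMeasure {F | ¬ Accepts F x} ≤ ENNReal.ofReal (ρ / 2)) →
      (n : ℝ) ^ (2 - ε) ≤ s) ∧
    (∀ ε : ℝ, 0 < ε → ∀ K : ℕ, ∃ C : ℕ, ∀ n d N s : ℕ, C ≤ n → C * Nat.clog 2 n ≤ d →
      ∀ ρ a : ℝ, 0 < ρ → 0 ≤ a → C * a ≤ Real.log n → (N : ℝ) ≤ ρ * 2 ^ (a * n) →
      ∀ μ : PMF (Family n d N),
      (∀ F ∈ μ.support, ∀ w, (F w).size ≤ n ^ K ∧ (F w).ands.card ≤ s) →
      (∀ x : Input n d, IsValid x → ¬ HasOrthogonalPair x →
        ENNReal.ofReal ρ ≤ μ.toOuterMeasure {F | ¬ Accepts F x}) →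
      (∀ x : Input n d, IsValid x → HasOrthogonalPair x →
        μ.toOuterMeasure {F | ¬ Accepts F x} ≤ ENNReal.ofReal (ρ / (C * 2 ^ (100 * a)))) →
      (n : ℝ) ^ (2 - ε) ≤ s) ∧
    (∀ n d : ℕ, ∃ F : Family n d 1, (∀ x : Input n d, Accepts F x ↔ HasOrthogonalPair x) ∧
      ∀ w, (F w).size = 2 * n * d + n ^ 2 * d + n ^ 2 + 1 ∧ (F w).ands.card = n ^ 2) ∧
    (∀ n d : ℕ, ∃ F : Family n d (2 ^ (n * d)),
      (∀ x : Input n d, Accepts F x ↔ HasOrthogonalPair x) ∧
      ∀ w, (F w).size = 3 ∧ (F w).ands = ∅) :=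
  ⟨lower, lower2, fun _ _ => one, fun _ _ => many⟩

end Pool.Agent.H91.MN.FinB
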