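import Pool.Agent.H58.OVAC.Avg

set_option autoImplicit false
set_option maxHeartbeats 4000000

/-!
# [H91 MN Hist] Histories of selected gates

THEOREM N (MP_0f984e_lc, think 1064): nondeterministic OV hypothesis for monotone circuits.

`P` positions, `X` contents, a test is a map `P → Option X` (`none` = empty). A `Net` has `G` gates: leaves (monotone
functions of the test), OR gates and AND gates of earlier gates. For a full test `z : P → X` the gates are processed in order;
the state keeps accumulated sets `Φ p ⊆ X`, the set of constant gates and the row functions `φ g p ⊆ X`. A gate whose row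
functions would lower the survival probability `surv Φ = P(z avoids Φ)` by more than a factor `(2G)^(-2)` is heavy: it is
made constant if `z` meets its row functions, otherwise it is selected (its sets are added to `Φ`).
-/

set_option linter.unusedSectionVars false

namespace Pool.Agent.H91.MN

open Pool.Agent.H58.OVAC

/-- kinds of gates -/
inductive Kind (G : ℕ) : Type
  | leaf : Kind G
  | or (J : Finset (Fin G)) : Kind G
  | and (J : Finset (Fin G)) : Kind G

/-- monotone circuits on tests -/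
structure Net (P X : Type) (G : ℕ) where
  kind : Fin G → Kind G
  val : Fin G → (P → Option X) → Prop
  leaf_mono : ∀ g, kind g = Kind.leaf → ∀ z z' : P → Option X, (∀ p, z p = none ∨ z p = z' p) →
    val g z → val g z'
  or_lt : ∀ g J, kind g = Kind.or J → ∀ j ∈ J, j < g
  or_val : ∀ g J, kind g = Kind.or J → ∀ z, val g z ↔ ∃ j ∈ J, val j z
  and_lt : ∀ g J, kind g = Kind.and J → ∀ j ∈ J, j < g
  and_val : ∀ g J, kind g = Kind.and J → ∀ z, val g z ↔ ∀ j ∈ J, val j z

variable {P X : Type} {G : ℕ}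

/-- the test with one nonempty position -/
def single [DecidableEq P] (p : P) (a : X) : P → Option X := fun q => if q = p then some a else none

/-- the full test -/
def full (z : P → X) : P → Option X := fun p => some (z p)

/-- survival probability -/
noncomputable def surv [Fintype P] [DecidableEq P] [Fintype X] (Φ : P → Set X) : ℝ :=
  pr fun z : P → X => ∀ p, z p ∉ Φ p

/-- total measure of the row functions off the accumulated sets -/
noncomputable def mass [Fintype P] [Fintype X] (Φ φ : P → Set X) : ℝ :=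
  ∑ p, pr fun a : X => a ∈ φ p ∧ a ∉ Φ p

/-- the candidate for a constant -/
def cc [DecidableEq P] (N : Net P X G) (c : Fin G → Prop) (g : Fin G) : Prop :=
  match N.kind g with
  | Kind.leaf => N.val g fun _ => none
  | Kind.or J => ∃ j ∈ J, c j
  | Kind.and J => ∀ j ∈ J, c j

/-- the candidate row functions -/
def ff [DecidableEq P] (N : Net P X G) (c : Fin G → Prop) (φ : Fin G → P → Set X) (g : Fin G) :
    P → Set X :=
  match N.kind g with
  | Kind.leaf => fun p => {a | N.val g (single p a)}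
  | Kind.or J => fun p => {a | ∃ j ∈ J, a ∈ φ j p}
  | Kind.and J => fun p => {a | ∀ j ∈ J, c j ∨ a ∈ φ j p}

/-- states -/
structure St (P X : Type) (G : ℕ) where
  Φ : P → Set X
  c : Fin G → Prop
  φ : Fin G → P → Set X

/-- union of two families -/
def un (Φ φ : P → Set X) : P → Set X := fun p => Φ p ∪ φ p

section

variable [Fintype P] [DecidableEq P] [Fintype X] [Nonempty X]

/-- heavy gates -/
def heavy (N : Net P X G) (τ : ℝ) (g : Fin G) (σ : St P X G) : Prop :=
  ¬ cc N σ.c g ∧ surv (un σ.Φ (ff N σ.c σ.φ g)) < τ * surv σ.Φ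

/-- select the gate -/
def selS (N : Net P X G) (g : Fin G) (σ : St P X G) : St P X G where
  Φ := un σ.Φ (ff N σ.c σ.φ g)
  c := σ.c
  φ := Function.update σ.φ g (ff N σ.c σ.φ g)

open Classical in
/-- do not select the gate -/
noncomputable def keepS (N : Net P X G) (τ : ℝ) (g : Fin G) (σ : St P X G) : St P X G where
  Φ := σ.Φ
  c := Function.update σ.c g (cc N σ.c g ∨ heavy N τ g σ)
  φ := Function.update σ.φ g (ff N σ.c σ.φ g)

open Classical in
/-- the process -/
noncomputable def go (N : Net P X G) (τ : ℝ) (z : P → X) : ℕ → St P X G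
  | 0 => ⟨fun _ => ∅, fun _ => False, fun _ _ => ∅⟩
  | t + 1 => if h : t < G then
      (if heavy N τ ⟨t, h⟩ (go N τ z t) ∧ ∀ p, z p ∉ ff N (go N τ z t).c (go N τ z t).φ ⟨t, h⟩ p then
        selS N ⟨t, h⟩ (go N τ z t) else keepS N τ ⟨t, h⟩ (go N τ z t))
    else go N τ z t

/-- the laws which the state satisfies at the gate `g` -/
structure Law (N : Net P X G) (τ : ℝ) (z : P → X) (σ : St P X G) (g : Fin G) : Prop where
  sound : (σ.c g ∨ ∃ p, z p ∈ σ.φ g p) → N.val g (full z)
  cst : cc N σ.c g → σ.c g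
  fn : ∀ p, σ.φ g p = ff N σ.c σ.φ g p
  light : ¬ σ.c g → mass σ.Φ (σ.φ g) ≤ Real.log (1 / τ)

theorem surv_eq (Φ : P → Set X) : surv Φ = ∏ p, pr fun a : X => a ∉ Φ p := by
  unfold surv
  have := pr_forall_mem (Finset.univ : Finset P) fun p (a : X) => a ∉ Φ p
  simpa using this

theorem surv_nonneg (Φ : P → Set X) : 0 ≤ surv Φ := pr_nonneg _

theorem surv_pos {Φ : P → Set X} {z : P → X} (h : ∀ p, z p ∉ Φ p) : 0 < surv Φ := by
  classical
  unfold surv pr av
  have hc : (0 : ℝ) < Fintype.card (P → X) := by exact_mod_cast Fintype.card_pos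
  refine div_pos (Finset.sum_pos' (fun ω _ => by split_ifs <;> norm_num)
    ⟨z, Finset.mem_univ _, ?_⟩) hc
  rw [if_pos h]
  norm_num

theorem mass_nonneg (Φ φ : P → Set X) : 0 ≤ mass Φ φ :=
  Finset.sum_nonneg fun _ _ => pr_nonneg _

theorem surv_un (Φ φ : P → Set X) : surv (un Φ φ) ≤ surv Φ * Real.exp (-mass Φ φ) := by
  have h1 : ∀ p, (pr fun a : X => a ∉ un Φ φ p) ≤
      (pr fun a : X => a ∉ Φ p) * Real.exp (-(pr fun a : X => a ∈ φ p ∧ a ∉ Φ p)) := by
    intro p
    set m := pr fun a : X => a ∈ φ p ∧ a ∉ Φ p with hm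
    set u := pr fun a : X => a ∉ Φ p with hu
    set w := pr fun a : X => a ∉ un Φ φ p with hw
    have h2 : w + m ≤ u := by
      have e : u = w + m := by
        rw [hu, hw, hm]
        unfold pr
        rw [← av_add]
        refine av_congr fun a => ?_
        unfold un
        by_cases h3 : a ∈ Φ p <;> by_cases h4 : a ∈ φ p <;> simp [h3, h4]
      rw [e]
    have h3 : 0 ≤ m := pr_nonneg _
    have h4 : u ≤ 1 := pr_le_one _
    have h5 : 0 ≤ u := pr_nonneg _
    have h6 : 1 - m ≤ Real.exp (-m) := by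
      have := Real.add_one_le_exp (-m)
      linarith
    calc w ≤ u - m := by linarith
      _ ≤ u * (1 - m) := by nlinarith
      _ ≤ u * Real.exp (-m) := mul_le_mul_of_nonneg_left h6 h5
  rw [surv_eq, surv_eq]
  calc ∏ p, (pr fun a : X => a ∉ un Φ φ p) ≤
      ∏ p, ((pr fun a : X => a ∉ Φ p) * Real.exp (-(pr fun a : X => a ∈ φ p ∧ a ∉ Φ p))) :=
        Finset.prod_le_prod (fun _ _ => pr_nonneg _) fun p _ => h1 p
    _ = (∏ p, pr fun a : X => a ∉ Φ p) * Real.exp (-mass Φ φ) := by
        rw [Finset.prod_mul_distrib, ← Real.exp_sum]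
        unfold mass
        rw [Finset.sum_neg_distrib]

theorem mass_le {Φ φ : P → Set X} {τ : ℝ} (hτ : 0 < τ) (h0 : 0 < surv Φ)
    (h : τ * surv Φ ≤ surv (un Φ φ)) : mass Φ φ ≤ Real.log (1 / τ) := by
  have h1 := h.trans (surv_un Φ φ)
  have h2 : τ ≤ Real.exp (-mass Φ φ) := by
    have h3 : surv Φ * τ ≤ surv Φ * Real.exp (-mass Φ φ) := by linarith
    exact le_of_mul_le_mul_left h3 h0
  have h4 := Real.log_le_log hτ h2
  rw [Real.log_exp] at h4
  rw [one_div, Real.log_inv]
  linarith

theorem mass_le_surv {Φ : P → Set X} (h0 : 0 < surv Φ) :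
    (∑ p, pr fun a : X => a ∈ Φ p) ≤ Real.log (1 / surv Φ) := by
  have h1 : surv (un (fun _ => ∅) Φ) ≤ surv (fun _ : P => (∅ : Set X)) *
      Real.exp (-mass (fun _ => ∅) Φ) := surv_un _ _
  have h2 : un (fun _ => ∅) Φ = Φ := by
    funext p
    unfold un
    simp
  have h3 : surv (fun _ : P => (∅ : Set X)) ≤ 1 := pr_le_one _
  have h4 : mass (fun _ => ∅) Φ = ∑ p, pr fun a : X => a ∈ Φ p := by
    unfold mass
    simp
  rw [h2, h4] at h1
  have h5 : surv Φ ≤ Real.exp (-∑ p, pr fun a : X => a ∈ Φ p) := by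
    refine h1.trans ?_
    have := Real.exp_pos (-∑ p, pr fun a : X => a ∈ Φ p)
    nlinarith
  have h6 := Real.log_le_log h0 h5
  rw [Real.log_exp] at h6
  rw [one_div, Real.log_inv]
  linarith

omit [Fintype P] [Fintype X] [Nonempty X] in
theorem cc_congr (N : Net P X G) {c c' : Fin G → Prop} (g : Fin G) (h : ∀ j < g, (c j ↔ c' j)) :
    cc N c g ↔ cc N c' g := by
  unfold cc
  split
  · rfl
  · rename_i J hJ
    exact exists_congr fun j => and_congr_right fun hj => h j (N.or_lt g J hJ j hj)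
  · rename_i J hJ
    exact forall₂_congr fun j hj => h j (N.and_lt g J hJ j hj)

omit [Fintype P] [Fintype X] [Nonempty X] in
theorem ff_congr (N : Net P X G) {c c' : Fin G → Prop} {φ φ' : Fin G → P → Set X} (g : Fin G)
    (h : ∀ j < g, (c j ↔ c' j)) (h' : ∀ j < g, φ j = φ' j) : ff N c φ g = ff N c' φ' g := by
  unfold ff
  split
  · rfl
  · rename_i J hJ
    funext p
    ext a
    exact exists_congr fun j => and_congr_right fun hj => by rw [h' j (N.or_lt g J hJ j hj)]
  · rename_i J hJ
    funext p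
    ext a
    exact forall₂_congr fun j hj => by rw [h' j (N.and_lt g J hJ j hj), h j (N.and_lt g J hJ j hj)]

omit [Fintype P] [Fintype X] [Nonempty X] in
theorem cc_sound (N : Net P X G) {z : P → X} {σ : St P X G} (g : Fin G)
    (h : ∀ j < g, (σ.c j ∨ ∃ p, z p ∈ σ.φ j p) → N.val j (full z)) (hc : cc N σ.c g) :
    N.val g (full z) := by
  unfold cc at hc
  split at hc
  · rename_i hk
    exact N.leaf_mono g hk _ _ (fun p => Or.inl rfl) hc
  · rename_i J hJ
    obtain ⟨j, hj, hcj⟩ := hc
    exact (N.or_val g J hJ _).2 ⟨j, hj, h j (N.or_lt g J hJ j hj) (Or.inl hcj)⟩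
  · rename_i J hJ
    exact (N.and_val g J hJ _).2 fun j hj => h j (N.and_lt g J hJ j hj) (Or.inl (hc j hj))

omit [Fintype P] [Fintype X] [Nonempty X] in
theorem ff_leaf (N : Net P X G) (c : Fin G → Prop) (φ : Fin G → P → Set X) {g : Fin G}
    (hk : N.kind g = Kind.leaf) : ff N c φ g = fun p => {a | N.val g (single p a)} := by
  unfold ff
  rw [hk]

omit [Fintype P] [Fintype X] [Nonempty X] in
theorem ff_or (N : Net P X G) (c : Fin G → Prop) (φ : Fin G → P → Set X) {g : Fin G}
    {J : Finset (Fin G)} (hk : N.kind g = Kind.or J) :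
    ff N c φ g = fun p => {a | ∃ j ∈ J, a ∈ φ j p} := by
  unfold ff
  rw [hk]

omit [Fintype P] [Fintype X] [Nonempty X] in
theorem ff_and (N : Net P X G) (c : Fin G → Prop) (φ : Fin G → P → Set X) {g : Fin G}
    {J : Finset (Fin G)} (hk : N.kind g = Kind.and J) :
    ff N c φ g = fun p => {a | ∀ j ∈ J, c j ∨ a ∈ φ j p} := by
  unfold ff
  rw [hk]

omit [Fintype P] [Fintype X] [Nonempty X] in
theorem cc_leaf (N : Net P X G) (c : Fin G → Prop) {g : Fin G}
    (hk : N.kind g = Kind.leaf) : cc N c g ↔ N.val g fun _ => none := by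
  unfold cc
  rw [hk]

omit [Fintype P] [Fintype X] [Nonempty X] in
theorem cc_or (N : Net P X G) (c : Fin G → Prop) {g : Fin G} {J : Finset (Fin G)}
    (hk : N.kind g = Kind.or J) : cc N c g ↔ ∃ j ∈ J, c j := by
  unfold cc
  rw [hk]

omit [Fintype P] [Fintype X] [Nonempty X] in
theorem cc_and (N : Net P X G) (c : Fin G → Prop) {g : Fin G} {J : Finset (Fin G)}
    (hk : N.kind g = Kind.and J) : cc N c g ↔ ∀ j ∈ J, c j := by
  unfold cc
  rw [hk]

omit [Fintype P] [Fintype X] [Nonempty X] in
theorem ff_sound (N : Net P X G) {z : P → X} {σ : St P X G} (g : Fin G)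
    (h : ∀ j < g, (σ.c j ∨ ∃ p, z p ∈ σ.φ j p) → N.val j (full z)) {p : P}
    (hc : z p ∈ ff N σ.c σ.φ g p) : N.val g (full z) := by
  rcases hk : N.kind g with _ | J | J
  · rw [ff_leaf N _ _ hk] at hc
    refine N.leaf_mono g hk (single p (z p)) _ (fun q => ?_) hc
    unfold single full
    by_cases hq : q = p
    · right
      rw [if_pos hq, hq]
    · left
      rw [if_neg hq]
  · rw [ff_or N _ _ hk] at hc
    obtain ⟨j, hj, hcj⟩ := hc
    exact (N.or_val g J hk _).2 ⟨j, hj, h j (N.or_lt g J hk j hj) (Or.inr ⟨p, hcj⟩)⟩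
  · rw [ff_and N _ _ hk] at hc
    refine (N.and_val g J hk _).2 fun j hj => h j (N.and_lt g J hk j hj) ?_
    rcases hc j hj with h1 | h1
    · exact Or.inl h1
    · exact Or.inr ⟨p, h1⟩

theorem mass_anti {Φ Ψ φ : P → Set X} (h : ∀ p, Φ p ⊆ Ψ p) : mass Ψ φ ≤ mass Φ φ :=
  Finset.sum_le_sum fun p _ => pr_mono fun _ ha => ⟨ha.1, fun h1 => ha.2 (h p h1)⟩

theorem mass_un (Φ φ : P → Set X) : mass (un Φ φ) φ = 0 := by
  unfold mass
  refine Finset.sum_eq_zero fun p _ => pr_eq_zero fun a ha => ha.2 (Or.inr ha.1)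

/-- a law of an earlier gate is preserved -/
theorem Law.step {N : Net P X G} {τ : ℝ} {z : P → X} {σ σ' : St P X G} {g g' : Fin G}
    (hg : g' < g) (h : Law N τ z σ g') (hc : ∀ j, j ≠ g → (σ'.c j ↔ σ.c j))
    (hφ : ∀ j, j ≠ g → σ'.φ j = σ.φ j) (hΦ : ∀ p, σ.Φ p ⊆ σ'.Φ p) : Law N τ z σ' g' := by
  have hne : ∀ j ≤ g', j ≠ g := fun j hj => (lt_of_le_of_lt hj hg).ne
  have e1 : cc N σ'.c g' ↔ cc N σ.c g' := cc_congr N g' fun j hj => hc j (hne j hj.le)
  have e2 : ff N σ'.c σ'.φ g' = ff N σ.c σ.φ g' :=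
    ff_congr N g' (fun j hj => hc j (hne j hj.le)) fun j hj => hφ j (hne j hj.le)
  constructor
  · rw [hc g' (hne g' le_rfl), hφ g' (hne g' le_rfl)]
    exact h.sound
  · rw [e1, hc g' (hne g' le_rfl)]
    exact h.cst
  · intro p
    rw [e2, hφ g' (hne g' le_rfl)]
    exact h.fn p
  · intro h1
    rw [hc g' (hne g' le_rfl)] at h1
    rw [hφ g' (hne g' le_rfl)]
    exact (mass_anti hΦ).trans (h.light h1)

theorem go_inv (N : Net P X G) {τ : ℝ} (hτ : 0 < τ) (hτ1 : τ ≤ 1) (z : P → X) : ∀ t : ℕ,
    (∀ p, z p ∉ (go N τ z t).Φ p) ∧ (∀ g : Fin G, g.1 < t → Law N τ z (go N τ z t) g) ∧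
      ∀ g : Fin G, t ≤ g.1 → ¬ (go N τ z t).c g := by
  classical
  intro t
  induction t with
  | zero =>
    refine ⟨fun p => by simp [go], fun g hg => absurd hg (by omega), fun g _ => by simp [go]⟩
  | succ t ih =>
    obtain ⟨ih1, ih2, ih3⟩ := ih
    by_cases h : t < G
    · set σ := go N τ z t with hσ
      set g : Fin G := ⟨t, h⟩ with hgdef
      have hgo : go N τ z (t + 1) = if heavy N τ g σ ∧ ∀ p, z p ∉ ff N σ.c σ.φ g p then
          selS N g σ else keepS N τ g σ := by
        rw [hσ, hgdef]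
        conv_lhs => unfold go
        rw [dif_pos h]
      have hlt : ∀ j < g, j.1 < t := fun j hj => hj
      have hsound : ∀ j < g, (σ.c j ∨ ∃ p, z p ∈ σ.φ j p) → N.val j (full z) :=
        fun j hj => (ih2 j (hlt j hj)).sound
      have hcg : ¬ σ.c g := ih3 g le_rfl
      have hself : ∀ (c' : Fin G → Prop) (φ' : Fin G → P → Set X),
          (∀ j, j ≠ g → (c' j ↔ σ.c j)) → (∀ j, j ≠ g → φ' j = σ.φ j) →
          (cc N c' g ↔ cc N σ.c g) ∧ ff N c' φ' g = ff N σ.c σ.φ g := fun c' φ' h1 h2 =>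
        ⟨cc_congr N g fun j hj => h1 j hj.ne, ff_congr N g (fun j hj => h1 j hj.ne)
          fun j hj => h2 j hj.ne⟩
      rw [hgo]
      by_cases hsel : heavy N τ g σ ∧ ∀ p, z p ∉ ff N σ.c σ.φ g p
      · rw [if_pos hsel]
        have e1 : ∀ j, j ≠ g → ((selS N g σ).c j ↔ σ.c j) := fun j _ => Iff.rfl
        have e2 : ∀ j, j ≠ g → (selS N g σ).φ j = σ.φ j := fun j hj => by
          show Function.update σ.φ g (ff N σ.c σ.φ g) j = σ.φ j
          rw [Function.update_of_ne hj]
        have e3 : (selS N g σ).φ g = ff N σ.c σ.φ g := by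
          show Function.update σ.φ g (ff N σ.c σ.φ g) g = _
          rw [Function.update_self]
        obtain ⟨e4, e5⟩ := hself _ _ e1 e2
        refine ⟨fun p hp => ?_, fun g' hg' => ?_, fun g' hg' => ?_⟩
        · rcases hp with hp | hp
          · exact ih1 p hp
          · exact hsel.2 p hp
        · rcases Nat.lt_or_ge g'.1 t with h1 | h1
          · exact (ih2 g' h1).step (g := g) h1 e1 e2 fun p a ha => Or.inl ha
          · have h2 : g' = g := Fin.ext (by show g'.1 = t; omega)
            rw [h2]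
            constructor
            · rintro (h3 | ⟨p, h3⟩)
              · exact absurd h3 hcg
              · rw [e3] at h3
                exact absurd h3 (hsel.2 p)
            · intro h3
              exact absurd (e4.1 h3) hsel.1.1
            · intro p
              rw [e3, e5]
            · intro _
              rw [e3]
              show mass (un σ.Φ (ff N σ.c σ.φ g)) (ff N σ.c σ.φ g) ≤ _
              rw [mass_un]
              exact Real.log_nonneg (by rw [le_div_iff₀ hτ]; linarith)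
        · exact ih3 g' (by omega)
      · rw [if_neg hsel]
        have e1 : ∀ j, j ≠ g → ((keepS N τ g σ).c j ↔ σ.c j) := fun j hj => by
          show Function.update σ.c g (cc N σ.c g ∨ heavy N τ g σ) j ↔ σ.c j
          rw [Function.update_of_ne hj]
        have e2 : ∀ j, j ≠ g → (keepS N τ g σ).φ j = σ.φ j := fun j hj => by
          show Function.update σ.φ g (ff N σ.c σ.φ g) j = σ.φ j
          rw [Function.update_of_ne hj]
        have e3 : (keepS N τ g σ).φ g = ff N σ.c σ.φ g := by
          show Function.update σ.φ g (ff N σ.c σ.φ g) g = _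
          rw [Function.update_self]
        have e6 : (keepS N τ g σ).c g ↔ (cc N σ.c g ∨ heavy N τ g σ) := by
          show Function.update σ.c g (cc N σ.c g ∨ heavy N τ g σ) g ↔ _
          rw [Function.update_self]
        obtain ⟨e4, e5⟩ := hself _ _ e1 e2
        refine ⟨fun p hp => ih1 p hp, fun g' hg' => ?_, fun g' hg' => ?_⟩
        · rcases Nat.lt_or_ge g'.1 t with h1 | h1
          · exact (ih2 g' h1).step (g := g) h1 e1 e2 fun p a ha => ha
          · have h2 : g' = g := Fin.ext (by show g'.1 = t; omega)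
            rw [h2]
            constructor
            · rintro (h3 | ⟨p, h3⟩)
              · rcases e6.1 h3 with h4 | h4
                · exact cc_sound N g hsound h4
                · have h5 : ∃ p, z p ∈ ff N σ.c σ.φ g p := by
                    by_contra h6
                    push Not at h6
                    exact hsel ⟨h4, h6⟩
                  obtain ⟨p, hp⟩ := h5
                  exact ff_sound N g hsound hp
              · rw [e3] at h3
                exact ff_sound N g hsound h3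
            · intro h3
              exact e6.2 (Or.inl (e4.1 h3))
            · intro p
              rw [e3, e5]
            · intro h3
              rw [e6] at h3
              push Not at h3
              rw [e3]
              show mass σ.Φ (ff N σ.c σ.φ g) ≤ _
              refine mass_le hτ (surv_pos ih1) ?_
              by_contra h4
              push Not at h4
              exact h3.2 ⟨h3.1, h4⟩
        · have h1 : g' ≠ g := fun h2 => by
            have : g'.1 = t := by rw [h2]
            omega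
          rw [e1 g' h1]
          exact ih3 g' (by omega)
    · have hgo : go N τ z (t + 1) = go N τ z t := by
        conv_lhs => unfold go
        rw [dif_neg h]
      rw [hgo]
      refine ⟨ih1, fun g _ => ih2 g (by have := g.2; omega), fun g hg => ih3 g (by omega)⟩

open Classical in
/-- the reachable states -/
noncomputable def reach (N : Net P X G) (τ : ℝ) (t : ℕ) : Finset (St P X G) :=
  Finset.univ.image fun z : P → X => go N τ z t

open Classical in
private theorem reach_succ (N : Net P X G) (τ : ℝ) {t : ℕ} (h : t < G) :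
    reach N τ (t + 1) ⊆ (reach N τ t).image (keepS N τ ⟨t, h⟩) ∪
      ((reach N τ t).filter (heavy N τ ⟨t, h⟩)).image (selS N ⟨t, h⟩) := by
  intro σ hσ
  unfold reach at hσ
  obtain ⟨z, -, rfl⟩ := Finset.mem_image.1 hσ
  have hz : go N τ z t ∈ reach N τ t := Finset.mem_image_of_mem _ (Finset.mem_univ z)
  have hgo : go N τ z (t + 1) = if heavy N τ ⟨t, h⟩ (go N τ z t) ∧
      ∀ p, z p ∉ ff N (go N τ z t).c (go N τ z t).φ ⟨t, h⟩ p then
        selS N ⟨t, h⟩ (go N τ z t) else keepS N τ ⟨t, h⟩ (go N τ z t) := by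
    conv_lhs => unfold go
    rw [dif_pos h]
  show go N τ z (t + 1) ∈ _
  rw [hgo]
  split_ifs with h1
  · exact Finset.mem_union_right _ (Finset.mem_image_of_mem _ (Finset.mem_filter.2 ⟨hz, h1.1⟩))
  · exact Finset.mem_union_left _ (Finset.mem_image_of_mem _ hz)

private theorem sum_image_le' {α β : Type} [DecidableEq β] (s : Finset α) (f : α → β) (w : β → ℝ)
    (hw : ∀ b, 0 ≤ w b) : ∑ b ∈ s.image f, w b ≤ ∑ a ∈ s, w (f a) := by
  classical
  induction s using Finset.induction_on with
  | empty => simp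
  | insert a s ha ih =>
    rw [Finset.sum_insert ha, Finset.image_insert]
    by_cases h : f a ∈ s.image f
    · rw [Finset.insert_eq_of_mem h]
      linarith [hw (f a)]
    · rw [Finset.sum_insert h]
      linarith

theorem weight (N : Net P X G) {τ : ℝ} (hτ : 0 ≤ τ) : ∀ t ≤ G,
    ∑ σ ∈ reach N τ t, Real.sqrt (surv σ.Φ) ≤ (1 + Real.sqrt τ) ^ t := by
  classical
  intro t
  induction t with
  | zero =>
    intro _
    have h1 : reach N τ 0 = {⟨fun _ => ∅, fun _ => False, fun _ _ => ∅⟩} := by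
      unfold reach
      ext σ
      simp only [Finset.mem_image, Finset.mem_univ, true_and, Finset.mem_singleton]
      constructor
      · rintro ⟨z, rfl⟩
        rfl
      · rintro rfl
        exact ⟨Classical.arbitrary _, rfl⟩
    rw [h1, Finset.sum_singleton, pow_zero]
    have h2 : surv (fun _ : P => (∅ : Set X)) ≤ 1 := pr_le_one _
    calc Real.sqrt (surv (fun _ : P => (∅ : Set X))) ≤ Real.sqrt 1 := Real.sqrt_le_sqrt h2
      _ = 1 := Real.sqrt_one
  | succ t ih =>
    intro ht
    have ih' := ih (by omega)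
    have h : t < G := by omega
    set R := reach N τ t with hR
    have h1 : ∑ σ ∈ reach N τ (t + 1), Real.sqrt (surv σ.Φ) ≤
        ∑ σ ∈ R, Real.sqrt (surv σ.Φ) +
          ∑ σ ∈ R.filter (heavy N τ ⟨t, h⟩), Real.sqrt (surv (selS N ⟨t, h⟩ σ).Φ) := by
      calc ∑ σ ∈ reach N τ (t + 1), Real.sqrt (surv σ.Φ) ≤
          ∑ σ ∈ R.image (keepS N τ ⟨t, h⟩) ∪
            (R.filter (heavy N τ ⟨t, h⟩)).image (selS N ⟨t, h⟩), Real.sqrt (surv σ.Φ) :=
            Finset.sum_le_sum_of_subset_of_nonneg (reach_succ N τ h) fun _ _ _ =>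
              Real.sqrt_nonneg _
        _ ≤ ∑ σ ∈ R.image (keepS N τ ⟨t, h⟩), Real.sqrt (surv σ.Φ) +
            ∑ σ ∈ (R.filter (heavy N τ ⟨t, h⟩)).image (selS N ⟨t, h⟩), Real.sqrt (surv σ.Φ) := by
            rw [← Finset.sum_union_inter]
            exact le_add_of_nonneg_right (Finset.sum_nonneg fun _ _ => Real.sqrt_nonneg _)
        _ ≤ _ := by
            refine add_le_add ?_ ?_
            · exact sum_image_le' R _ (fun σ : St P X G => Real.sqrt (surv σ.Φ)) fun _ => Real.sqrt_nonneg _
            · exact sum_image_le' _ _ (fun σ : St P X G => Real.sqrt (surv σ.Φ)) fun _ => Real.sqrt_nonneg _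
    have h2 : ∑ σ ∈ R.filter (heavy N τ ⟨t, h⟩), Real.sqrt (surv (selS N ⟨t, h⟩ σ).Φ) ≤
        Real.sqrt τ * ∑ σ ∈ R, Real.sqrt (surv σ.Φ) := by
      rw [Finset.mul_sum]
      refine (Finset.sum_le_sum (g := fun σ => Real.sqrt τ * Real.sqrt (surv σ.Φ)) ?_).trans
        (Finset.sum_le_sum_of_subset_of_nonneg (Finset.filter_subset _ _) fun _ _ _ =>
          mul_nonneg (Real.sqrt_nonneg _) (Real.sqrt_nonneg _))
      intro σ hσ
      have h3 := (Finset.mem_filter.1 hσ).2
      rw [← Real.sqrt_mul hτ]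
      exact Real.sqrt_le_sqrt h3.2.le
    calc ∑ σ ∈ reach N τ (t + 1), Real.sqrt (surv σ.Φ) ≤
        (1 + Real.sqrt τ) * ∑ σ ∈ R, Real.sqrt (surv σ.Φ) := by linarith
      _ ≤ (1 + Real.sqrt τ) * (1 + Real.sqrt τ) ^ t :=
          mul_le_mul_of_nonneg_left ih' (by positivity)
      _ = (1 + Real.sqrt τ) ^ (t + 1) := by rw [pow_succ]; ring

theorem bad_le (N : Net P X G) {τ m : ℝ} (hτ : 0 < τ) (hτ1 : τ ≤ 1) (hm : 0 ≤ m) :
    (pr fun z : P → X => surv (go N τ z G).Φ ≤ m) ≤ Real.sqrt m * (1 + Real.sqrt τ) ^ G := by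
  classical
  have h1 : (pr fun z : P → X => surv (go N τ z G).Φ ≤ m) ≤
      pr fun z : P → X => ∃ σ ∈ (reach N τ G).filter fun σ => surv σ.Φ ≤ m, go N τ z G = σ := by
    refine pr_mono fun z hz => ⟨go N τ z G, Finset.mem_filter.2 ⟨?_, hz⟩, rfl⟩
    exact Finset.mem_image_of_mem _ (Finset.mem_univ z)
  refine h1.trans ((pr_exists_le _ _).trans ?_)
  have h2 : ∀ σ ∈ (reach N τ G).filter (fun σ => surv σ.Φ ≤ m),
      (pr fun z : P → X => go N τ z G = σ) ≤ Real.sqrt m * Real.sqrt (surv σ.Φ) := by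
    intro σ hσ
    have h3 := (Finset.mem_filter.1 hσ).2
    have h4 : (pr fun z : P → X => go N τ z G = σ) ≤ surv σ.Φ := by
      refine pr_mono fun z hz => ?_
      rw [← hz]
      exact (go_inv N hτ hτ1 z G).1
    have h5 := surv_nonneg σ.Φ
    calc (pr fun z : P → X => go N τ z G = σ) ≤ surv σ.Φ := h4
      _ = Real.sqrt (surv σ.Φ) * Real.sqrt (surv σ.Φ) := (Real.mul_self_sqrt h5).symm
      _ ≤ Real.sqrt m * Real.sqrt (surv σ.Φ) :=
          mul_le_mul_of_nonneg_right (Real.sqrt_le_sqrt h3) (Real.sqrt_nonneg _)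
  refine (Finset.sum_le_sum h2).trans ?_
  rw [← Finset.mul_sum]
  refine mul_le_mul_of_nonneg_left ?_ (Real.sqrt_nonneg _)
  exact (Finset.sum_le_sum_of_subset_of_nonneg (Finset.filter_subset _ _) fun _ _ _ =>
    Real.sqrt_nonneg _).trans (weight N hτ.le G le_rfl)

/-- every set of full tests which is not too small contains a test with a cheap history -/
theorem hist (N : Net P X G) {m : ℝ} (hG : 1 ≤ G) (hm : 0 < m) (E : (P → X) → Prop)
    (hE : 2 * Real.sqrt m < pr E) : ∃ (z : P → X) (σ : St P X G), E z ∧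
      m ≤ surv σ.Φ ∧ ∀ g, Law N ((1 / (2 * G : ℝ)) ^ 2) z σ g := by
  classical
  have hG' : (1 : ℝ) ≤ G := by exact_mod_cast hG
  set τ : ℝ := (1 / (2 * G : ℝ)) ^ 2 with hτdef
  have hτ : 0 < τ := by positivity
  have hle : 1 / (2 * G : ℝ) ≤ 1 := by
    rw [div_le_one (by positivity)]
    linarith
  have hτ1 : τ ≤ 1 := pow_le_one₀ (by positivity) hle
  have hsq : Real.sqrt τ = 1 / (2 * G : ℝ) := Real.sqrt_sq (by positivity)
  have h1 := bad_le N hτ hτ1 hm.le
  have h2 : (1 + Real.sqrt τ) ^ G ≤ 2 := by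
    rw [hsq]
    have h3 : 1 + 1 / (2 * G : ℝ) ≤ Real.exp (1 / (2 * G : ℝ)) := by
      have := Real.add_one_le_exp (1 / (2 * G : ℝ))
      linarith
    calc (1 + 1 / (2 * G : ℝ)) ^ G ≤ Real.exp (1 / (2 * G : ℝ)) ^ G :=
          pow_le_pow_left₀ (by positivity) h3 G
      _ = Real.exp (1 / 2) := by
          rw [← Real.exp_nat_mul]
          congr 1
          field_simp
      _ ≤ 2 := by
          have h4 : Real.exp (1 / 2) ^ 2 ≤ 2 ^ 2 := by
            rw [← Real.exp_nat_mul]
            norm_num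
            have := Real.exp_one_lt_d9
            linarith
          exact le_of_sq_le_sq h4 (by norm_num)
  have h3 : (pr fun z : P → X => surv (go N τ z G).Φ ≤ m) < pr E := by
    have h4 : Real.sqrt m * (1 + Real.sqrt τ) ^ G ≤ Real.sqrt m * 2 :=
      mul_le_mul_of_nonneg_left h2 (Real.sqrt_nonneg _)
    linarith
  obtain ⟨z, hz, hz'⟩ : ∃ z, E z ∧ ¬ surv (go N τ z G).Φ ≤ m := by
    by_contra hcon
    push Not at hcon
    exact absurd (pr_mono hcon) (not_le.2 h3)
  push Not at hz'
  obtain ⟨i1, i2, -⟩ := go_inv N hτ hτ1 z G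
  exact ⟨z, go N τ z G, hz, hz'.le, fun g => i2 g g.2⟩

end

end Pool.Agent.H91.MN
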