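import Pool.Agent.H91.MN.Low

set_option autoImplicit false
set_option maxHeartbeats 4000000
set_option linter.unusedSectionVars false

/-!
# [H91 MN LowB] The lower bound for a family of nets, with a set of typical full tests

Only few states have a survival probability which is not too small, so one state belongs to many full tests; the free planted
tests are those which avoid the sets `Φ` of this state, and all the full tests of this state avoid `Φ`.
-/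

namespace Pool.Agent.H91.MN

open Pool.Agent.H58.OVAC (av pr Str Off Good exists_good pr_nonneg pr_mono pr_le_one pr_exists_le
  pr_not av_nonneg av_mono av_add pr_eq_zero)
open Pool.Agent.H58.OVPR (avR avR_mono avR_add avR_left avR_right avR_const pmf_pr pmf_exists_le)

section

variable {P X : Type} {G : ℕ} [Fintype P] [DecidableEq P] [Fintype X] [Nonempty X]

/-- one state belongs to many tests of every set which is not too small -/
theorem hist2 (N : Net P X G) {m : ℝ} (hG : 1 ≤ G) (hm : 0 < m) (E : (P → X) → Prop)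
    (hE : 4 * Real.sqrt m < pr E) : ∃ (E' : (P → X) → Prop) (σ : St P X G), (∀ z, E' z → E z) ∧
      m ≤ pr E' ∧ (∀ z, E' z → ∀ p, z p ∉ σ.Φ p) ∧
      ∀ z, E' z → ∀ g, Law N ((1 / (2 * G : ℝ)) ^ 2) z σ g := by
  classical
  have hG' : (1 : ℝ) ≤ G := by exact_mod_cast hG
  set τ : ℝ := (1 / (2 * G : ℝ)) ^ 2 with hτdef
  have hτ : 0 < τ := by positivity
  have hle : 1 / (2 * G : ℝ) ≤ 1 := by
    rw [div_le_one (by positivity)]
    linarith
  have hτ1 : τ ≤ 1 := pow_le_one₀ (by positivity) hle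
  have hsq : Real.sqrt τ = 1 / (2 * G : ℝ) := Real.sqrt_sq (by positivity)
  have hsm : 0 < Real.sqrt m := Real.sqrt_pos.2 hm
  have h1 := bad_le N hτ hτ1 hm.le
  have h2 : (1 + Real.sqrt τ) ^ G ≤ 2 := by
    rw [hsq]
    have h3 : 1 + 1 / (2 * G : ℝ) ≤ Real.exp (1 / (2 * G : ℝ)) := by
      have := Real.add_one_le_exp (1 / (2 * G : ℝ))
      linarith
    calc (1 + 1 / (2 * G : ℝ)) ^ G ≤ Real.exp (1 / (2 * G : ℝ)) ^ G :=
          pow_le_pow_left₀ (by positivity) h3 G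
      _ = Real.exp (1 / 2) := by
          rw [← Real.exp_nat_mul]
          congr 1
          field_simp
      _ ≤ 2 := by
          have h4 : Real.exp (1 / 2) ^ 2 ≤ 2 ^ 2 := by
            rw [← Real.exp_nat_mul]
            norm_num
            have := Real.exp_one_lt_d9
            linarith
          exact le_of_sq_le_sq h4 (by norm_num)
  by_contra hcon
  push Not at hcon
  set R := (reach N τ G).filter fun σ => ¬ surv σ.Φ ≤ m with hR
  have hlt : ∀ σ, (pr fun z : P → X => E z ∧ go N τ z G = σ) < m := by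
    intro σ
    by_contra h3
    push Not at h3
    obtain ⟨z, hz, g, hg⟩ := hcon (fun z => E z ∧ go N τ z G = σ) σ (fun z hz => hz.1) h3
      (fun z hz => by
        rw [← hz.2]
        exact (go_inv N hτ hτ1 z G).1)
    apply hg
    rw [← hz.2]
    exact (go_inv N hτ hτ1 z G).2.1 g g.2
  have h3 : pr E ≤ (pr fun z : P → X => surv (go N τ z G).Φ ≤ m) +
      ∑ σ ∈ R, pr fun z : P → X => E z ∧ go N τ z G = σ := by
    have h4 : pr E ≤ (pr fun z : P → X => surv (go N τ z G).Φ ≤ m) +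
        pr fun z : P → X => ∃ σ ∈ R, E z ∧ go N τ z G = σ := by
      unfold pr
      rw [← av_add]
      refine av_mono fun z => ?_
      dsimp only
      by_cases h5 : E z
      · rw [if_pos h5]
        by_cases h6 : surv (go N τ z G).Φ ≤ m
        · rw [if_pos h6]
          refine le_add_of_nonneg_right ?_
          split_ifs <;> norm_num
        · rw [if_neg h6, if_pos ⟨go N τ z G, Finset.mem_filter.2 ⟨Finset.mem_image_of_mem _
            (Finset.mem_univ z), h6⟩, h5, rfl⟩]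
          norm_num
      · rw [if_neg h5]
        refine add_nonneg ?_ ?_
        · split_ifs <;> norm_num
        · split_ifs <;> norm_num
    exact h4.trans (add_le_add_right (pr_exists_le _ _) _)
  have h4 : (R.card : ℝ) * Real.sqrt m ≤ 2 := by
    have h5 : (R.card : ℝ) * Real.sqrt m ≤ ∑ σ ∈ R, Real.sqrt (surv σ.Φ) := by
      rw [← nsmul_eq_mul]
      refine Finset.card_nsmul_le_sum _ _ _ fun σ hσ => Real.sqrt_le_sqrt ?_
      exact (not_le.1 (Finset.mem_filter.1 hσ).2).le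
    have h6 : ∑ σ ∈ R, Real.sqrt (surv σ.Φ) ≤ ∑ σ ∈ reach N τ G, Real.sqrt (surv σ.Φ) :=
      Finset.sum_le_sum_of_subset_of_nonneg (Finset.filter_subset _ _) fun _ _ _ =>
        Real.sqrt_nonneg _
    exact h5.trans (h6.trans ((weight N hτ.le G le_rfl).trans h2))
  have h5 : ∑ σ ∈ R, (pr fun z : P → X => E z ∧ go N τ z G = σ) ≤ R.card * m := by
    rw [← nsmul_eq_mul]
    exact Finset.sum_le_card_nsmul _ _ _ fun σ _ => (hlt σ).le
  have h6 : (R.card : ℝ) * m ≤ 2 * Real.sqrt m := by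
    calc (R.card : ℝ) * m = R.card * Real.sqrt m * Real.sqrt m := by
          rw [mul_assoc, Real.mul_self_sqrt hm.le]
      _ ≤ 2 * Real.sqrt m := mul_le_mul_of_nonneg_right h4 hsm.le
  have h7 : Real.sqrt m * (1 + Real.sqrt τ) ^ G ≤ Real.sqrt m * 2 :=
    mul_le_mul_of_nonneg_left h2 hsm.le
  linarith

end

variable {n k D : ℕ}

theorem exists_good3 {η : ℝ} (h0 : 0 < η) (h1 : η ≤ 1) : ∃ k : ℕ, 3 ≤ k ∧ Good k (1 + η) := by
  have h2 : Filter.Tendsto (fun k : ℕ => (k : ℝ) ^ η) Filter.atTop Filter.atTop :=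
    (tendsto_rpow_atTop h0).comp tendsto_natCast_atTop_atTop
  have h3 : Filter.Tendsto (fun k : ℕ => (k : ℝ)) Filter.atTop Filter.atTop :=
    tendsto_natCast_atTop_atTop
  obtain ⟨k, hk1, hk2, hk3⟩ := ((h2.eventually_ge_atTop 3).and
    ((h3.eventually_ge_atTop (2 / η + 1)).and (Filter.eventually_ge_atTop 3))).exists
  refine ⟨k, hk3, fun w hw0 hwk => ?_⟩
  have hk3' : (3 : ℝ) ≤ k := by exact_mod_cast hk3
  exact Pool.Agent.H58.OVAC.pointwise h0 h1 (by linarith) hk1 (by linarith) hw0 hwk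

theorem low2 {ε : ℝ} (hε : 0 < ε) (K : ℕ) :
    ∃ (γ : ℝ) (k : ℕ), 0 < γ ∧ 3 ≤ k ∧ ∃ n₀ : ℕ, ∀ n ≥ n₀,
    ∀ (D M : ℕ) (Gs : Fin M → ℕ) (Ns : ∀ w, Net (Bool × Fin n) (Str k D) (Gs w))
    (_ : ∀ w, OneL (Ns w)) (o : ∀ w, Fin (Gs w)) (ands : ∀ w, Finset (Fin (Gs w)))
    (_ : ∀ w g J, (Ns w).kind g = Kind.and J → g ∈ ands w) (s : ℕ)
    (_ : ∀ w, (ands w).card ≤ s) (_ : ∀ w, Gs w ≤ n ^ K) (m κ κ' : ℝ) (_ : 0 < m)
    (Typ : (Bool × Fin n → Str k D) → Prop) (_ : M * (4 * Real.sqrt m) <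
      pr fun z : Bool × Fin n → Str k D => Typ z ∧ ∃ w, ¬ (Ns w).val (o w) (full z))
    (_ : ∀ (E : (Bool × Fin n → Str k D) → Prop) (Φ : Bool × Fin n → Set (Str k D)),
      (∀ z, E z → Typ z) → m ≤ pr E → (∀ z, E z → ∀ p, z p ∉ Φ p) →
      κ * (n : ℝ) ^ 2 ≤ freeSum Φ)
    (_ : (pr fun τ : PT n k D => ∃ w, ¬ (Ns w).val (o w) (pl τ.1.1 τ.1.2 τ.2.1.1 τ.2.1.2)) ≤ κ')
    (_ : (n : ℝ) ^ (-γ) ≤ κ - κ'),
    (n : ℝ) ^ (2 - ε) ≤ s := by
  classical
  set e : ℝ := min ε 1 with he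
  have he0 : 0 < e := lt_min hε one_pos
  have he1 : e ≤ 1 := min_le_right _ _
  have heε : e ≤ ε := min_le_left _ _
  have hK : (0 : ℝ) ≤ K := Nat.cast_nonneg K
  set η : ℝ := e / (2 * ((K : ℝ) + 2)) with hη
  have hη0 : 0 < η := by positivity
  have hηe : η ≤ e / (2 * ((K : ℝ) + 2)) := le_rfl
  have hη1 : η ≤ 1 := by
    refine hηe.trans ?_
    rw [div_le_one (by positivity)]
    linarith
  obtain ⟨k, hk3, hgood⟩ := exists_good3 hη0 hη1
  have hk : 2 ≤ k := by omega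
  obtain ⟨n₀, hn₀⟩ := eventually_num (half_pos he0) one_pos K
  refine ⟨e / 4, k, by positivity, hk3, n₀, ?_⟩
  intro n hn D M Gs Ns hN o ands hands s hs hG m κ κ' hm0 Typ hE hfree hA hκ
  obtain ⟨hn2, -, hnum⟩ := hn₀ n hn
  have hn2' : (2 : ℝ) ≤ n := by exact_mod_cast hn2
  have hn0 : (0 : ℝ) < n := by linarith
  have hn1 : (1 : ℝ) ≤ n := by linarith
  have hne : Nonempty (Str k D) := ⟨fun _ => ⟨0, by omega⟩⟩
  set β : ℝ := κ - κ' with hβdef
  have hβn : (n : ℝ) ^ (-(e / 4)) ≤ β := hκ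
  have hβ : 0 < β := (Real.rpow_pos_of_pos hn0 _).trans_le hβn
  have hκβ : κ' = κ - β := by rw [hβdef]; ring
  rw [hκβ] at hA
  have hlogn : 0 ≤ Real.log n := Real.log_nonneg hn1
  have hK' : (0 : ℝ) ≤ 2 * ((K : ℝ) + 1) * Real.log n := by positivity
  have he4 : e / 2 / 2 = e / 4 := by ring
  rw [he4, div_one] at hnum
  have hnum1 : 2 * ((K : ℝ) + 1) * Real.log n ≤ β / 2 * n := by
    have h1 : 2 * ((K : ℝ) + 1) * Real.log n ≤ (n : ℝ) ^ (e / 4) / 4 := by nlinarith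
    have h2 : (n : ℝ) ^ (e / 4) ≤ (n : ℝ) ^ (1 - e / 4) :=
      Real.rpow_le_rpow_of_exponent_le hn1 (by linarith)
    have h3 : (n : ℝ) ^ (1 - e / 4) = (n : ℝ) ^ (-(e / 4)) * n := by
      rw [show (1 : ℝ) - e / 4 = -(e / 4) + 1 by ring, Real.rpow_add hn0, Real.rpow_one]
    have h4 : (n : ℝ) ^ (-(e / 4)) * n ≤ β * n := mul_le_mul_of_nonneg_right hβn hn0.le
    have h5 : 0 ≤ β * n := by positivity
    rw [h3] at h2
    linarith
  have hnum2 : 4 / β * (2 * ((K : ℝ) + 1) * Real.log n + 1) ^ 2 ≤ (n : ℝ) ^ (e / 2) := by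
    have h1 : 4 / β ≤ 4 * (n : ℝ) ^ (e / 4) := by
      rw [div_le_iff₀ hβ]
      have h2 : (n : ℝ) ^ (e / 4) * (n : ℝ) ^ (-(e / 4)) = 1 := by
        rw [← Real.rpow_add hn0]
        simp
      have h3 : (n : ℝ) ^ (e / 4) * (n : ℝ) ^ (-(e / 4)) ≤ (n : ℝ) ^ (e / 4) * β :=
        mul_le_mul_of_nonneg_left hβn (Real.rpow_nonneg hn0.le _)
      linarith
    calc 4 / β * (2 * ((K : ℝ) + 1) * Real.log n + 1) ^ 2
        ≤ 4 * (n : ℝ) ^ (e / 4) * (2 * ((K : ℝ) + 1) * Real.log n + 1) ^ 2 :=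
          mul_le_mul_of_nonneg_right h1 (by positivity)
      _ = (n : ℝ) ^ (e / 4) * (4 * (2 * ((K : ℝ) + 1) * Real.log n + 1) ^ 2) := by ring
      _ ≤ (n : ℝ) ^ (e / 4) * (n : ℝ) ^ (e / 4) :=
          mul_le_mul_of_nonneg_left hnum (Real.rpow_nonneg hn0.le _)
      _ = (n : ℝ) ^ (e / 2) := by
          rw [← Real.rpow_add hn0]
          congr 1
          ring
  -- a circuit which rejects often
  obtain ⟨w, hw⟩ : ∃ w, 4 * Real.sqrt m <
      pr fun z : Bool × Fin n → Str k D => Typ z ∧ ¬ (Ns w).val (o w) (full z) := by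
    by_contra hcon
    push Not at hcon
    have h1 : pr (fun z : Bool × Fin n → Str k D => Typ z ∧ ∃ w, ¬ (Ns w).val (o w) (full z)) ≤
        ∑ w ∈ (Finset.univ : Finset (Fin M)),
          pr (fun z : Bool × Fin n → Str k D => Typ z ∧ ¬ (Ns w).val (o w) (full z)) := by
      refine le_trans (pr_mono fun z hz => ?_) (pr_exists_le _ _)
      obtain ⟨hz, w, hw⟩ := hz
      exact ⟨w, Finset.mem_univ _, hz, hw⟩
    have h2 : (∑ w ∈ (Finset.univ : Finset (Fin M)),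
        pr (fun z : Bool × Fin n → Str k D => Typ z ∧ ¬ (Ns w).val (o w) (full z))) ≤
          M * (4 * Real.sqrt m) := by
      refine (Finset.sum_le_card_nsmul _ _ _ fun w _ => hcon w).trans ?_
      rw [Finset.card_univ, Fintype.card_fin, nsmul_eq_mul]
    linarith
  have hG1 : 1 ≤ Gs w := (Nat.zero_le _).trans_lt (o w).2
  have hG1' : (1 : ℝ) ≤ Gs w := by exact_mod_cast hG1
  obtain ⟨E', σ, hE', hmE, hav, hlaw'⟩ := hist2 (Ns w) hG1 hm0
    (fun z => Typ z ∧ ¬ (Ns w).val (o w) (full z)) hw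
  obtain ⟨z, hzE⟩ : ∃ z, E' z := by
    by_contra hcon
    push Not at hcon
    exact absurd (hmE.trans_eq (pr_eq_zero hcon)) (not_le.2 hm0)
  have hlaw := hlaw' z hzE
  have hz := (hE' z hzE).2
  have hfreeΦ := hfree E' σ.Φ (fun z hz => (hE' z hz).1) hmE hav
  have ho : ¬ σ.c (o w) := fun h => hz ((hlaw (o w)).sound (Or.inl h))
  set K1 : ℝ := Real.log (1 / (1 / (2 * (Gs w : ℝ))) ^ 2) with hK1
  have hK1eq : K1 = 2 * Real.log (2 * Gs w) := by
    rw [hK1, one_div_pow, one_div_one_div, Real.log_pow]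
    norm_num
  have hK10 : 0 ≤ K1 := by
    rw [hK1eq]
    have := Real.log_nonneg (show (1 : ℝ) ≤ 2 * Gs w by linarith)
    positivity
  have hmain := free_le (n := n) hk (by linarith : (1 : ℝ) ≤ 1 + η) (by linarith) hgood (Ns w)
    (hN w) (c := σ.c) (φ := σ.φ) (Φ := σ.Φ) (K := K1) (fun g => (hlaw g).cst)
    (fun g p => (hlaw g).fn p) (fun g hg => (hlaw g).light hg) hK10 (ands w) (hands w) ho
  -- the planted tests
  have hpl : κ * (n : ℝ) ^ 2 ≤ (∑ i, ∑ j, avR fun a b : Str k D =>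
      ind ((Ns w).val (o w) (pl i j a b) ∧ a ∉ σ.Φ (false, i) ∧ b ∉ σ.Φ (true, j))) +
      (n : ℝ) ^ 2 * (κ - β) := by
    have h1 : (∑ i, ∑ j, avR fun a b : Str k D => ind (¬ (Ns w).val (o w) (pl i j a b))) ≤
        (n : ℝ) ^ 2 * (κ - β) := by
      rw [← pr_pt hk fun i j a b => ¬ (Ns w).val (o w) (pl i j a b)]
      refine mul_le_mul_of_nonneg_left (le_trans (pr_mono fun τ h => ⟨w, h⟩) hA) (by positivity)
    refine hfreeΦ.trans (le_trans ?_ (add_le_add_right h1 _))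
    rw [← Finset.sum_add_distrib]
    unfold freeSum
    refine Finset.sum_le_sum fun i _ => ?_
    rw [← Finset.sum_add_distrib]
    refine Finset.sum_le_sum fun j _ => ?_
    rw [← avR_add]
    refine avR_mono hk fun a b _ => ?_
    by_cases h2 : a ∉ σ.Φ (false, i) ∧ b ∉ σ.Φ (true, j)
    · by_cases h3 : (Ns w).val (o w) (pl i j a b)
      · rw [ind_of h2, ind_of (show (Ns w).val (o w) (pl i j a b) ∧ a ∉ σ.Φ (false, i) ∧
          b ∉ σ.Φ (true, j) from ⟨h3, h2⟩)]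
        linarith [ind_nonneg (¬ (Ns w).val (o w) (pl i j a b))]
      · rw [ind_of h2, ind_of (show ¬ (Ns w).val (o w) (pl i j a b) from h3)]
        linarith [ind_nonneg ((Ns w).val (o w) (pl i j a b) ∧ a ∉ σ.Φ (false, i) ∧
          b ∉ σ.Φ (true, j))]
    · rw [ind_not h2]
      linarith [ind_nonneg (¬ (Ns w).val (o w) (pl i j a b)),
        ind_nonneg ((Ns w).val (o w) (pl i j a b) ∧ a ∉ σ.Φ (false, i) ∧
          b ∉ σ.Φ (true, j))]
  -- numbers
  set L : ℝ := 2 * ((K : ℝ) + 1) * Real.log n with hL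
  have hlog0 : 0 ≤ Real.log n := Real.log_nonneg hn1
  have hL0 : 0 ≤ L := by positivity
  have hGn : (Gs w : ℝ) ≤ (n : ℝ) ^ K := by exact_mod_cast hG w
  have hK1L : K1 ≤ L := by
    have h1 : Real.log (2 * Gs w) ≤ ((K : ℝ) + 1) * Real.log n := by
      have h2 : ((K : ℝ) + 1) * Real.log n = Real.log ((n : ℝ) ^ (K + 1)) := by
        rw [Real.log_pow]
        push_cast
        ring
      rw [h2]
      refine Real.log_le_log (by positivity) ?_
      rw [pow_succ, mul_comm]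
      exact mul_le_mul hGn (by linarith) (by norm_num) (by positivity)
    rw [hK1eq, hL]
    linarith
  have hexp : 1 - 1 / (1 + η) ≤ η := by
    rw [sub_le_iff_le_add, ← sub_le_iff_le_add']
    rw [le_div_iff₀ (by linarith)]
    nlinarith
  have hexp0 : 0 ≤ 1 - 1 / (1 + η) := by
    rw [sub_nonneg, div_le_one (by linarith)]
    linarith
  have hb1 : (n : ℝ) ^ (1 - 1 / (1 + η)) ≤ (n : ℝ) ^ η :=
    Real.rpow_le_rpow_of_exponent_le hn1 hexp
  have hb2 : (n * Gs w : ℝ) ^ (1 - 1 / (1 + η)) ≤ (n : ℝ) ^ (((K : ℝ) + 1) * η) := by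
    have h1 : (1 : ℝ) ≤ n * Gs w := by nlinarith
    have h2 : (n * Gs w : ℝ) ≤ (n : ℝ) ^ ((K : ℝ) + 1) := by
      have h3 : (n : ℝ) ^ ((K : ℝ) + 1) = (n : ℝ) ^ (K + 1) := by
        rw [← Real.rpow_natCast]
        push_cast
        rfl
      rw [h3, pow_succ, mul_comm]
      exact mul_le_mul_of_nonneg_right hGn hn0.le
    calc (n * Gs w : ℝ) ^ (1 - 1 / (1 + η)) ≤ (n * Gs w : ℝ) ^ η :=
          Real.rpow_le_rpow_of_exponent_le h1 hexp
      _ ≤ ((n : ℝ) ^ ((K : ℝ) + 1)) ^ η := Real.rpow_le_rpow (by linarith) h2 hη0.le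
      _ = _ := by rw [← Real.rpow_mul hn0.le]
  have hprod : (n : ℝ) ^ η * (n : ℝ) ^ (((K : ℝ) + 1) * η) ≤ (n : ℝ) ^ (e / 2) := by
    rw [← Real.rpow_add hn0]
    refine Real.rpow_le_rpow_of_exponent_le hn1 ?_
    rw [le_div_iff₀ (by positivity)] at hηe
    linarith
  have hB : (n : ℝ) ^ (1 - 1 / (1 + η)) * (K1 + 1) *
      ((n * Gs w : ℝ) ^ (1 - 1 / (1 + η)) * (K1 + 1)) ≤ (n : ℝ) ^ (e / 2) * (L + 1) ^ 2 := by
    have h1 : 0 ≤ (n : ℝ) ^ (1 - 1 / (1 + η)) := Real.rpow_nonneg hn0.le _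
    have h2 : 0 ≤ (n * Gs w : ℝ) ^ (1 - 1 / (1 + η)) := Real.rpow_nonneg (by positivity) _
    have h3 : (n : ℝ) ^ (1 - 1 / (1 + η)) * (n * Gs w : ℝ) ^ (1 - 1 / (1 + η)) ≤
        (n : ℝ) ^ (e / 2) :=
      (mul_le_mul hb1 hb2 h2 (Real.rpow_nonneg hn0.le _)).trans hprod
    have h4 : (K1 + 1) ^ 2 ≤ (L + 1) ^ 2 := pow_le_pow_left₀ (by linarith) (by linarith) 2
    calc (n : ℝ) ^ (1 - 1 / (1 + η)) * (K1 + 1) *
      ((n * Gs w : ℝ) ^ (1 - 1 / (1 + η)) * (K1 + 1)) =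
        ((n : ℝ) ^ (1 - 1 / (1 + η)) * (n * Gs w : ℝ) ^ (1 - 1 / (1 + η))) * (K1 + 1) ^ 2 := by
          ring
      _ ≤ (n : ℝ) ^ (e / 2) * (L + 1) ^ 2 :=
          mul_le_mul h3 h4 (by positivity) (Real.rpow_nonneg hn0.le _)
  have hs' : ((ands w).card : ℝ) ≤ s := by exact_mod_cast hs w
  have hne2 : 0 ≤ (n : ℝ) ^ (e / 2) := Real.rpow_nonneg hn0.le _
  have hterm : ((ands w).card : ℝ) * (2 * ((n : ℝ) ^ (1 - 1 / (1 + η)) * (K1 + 1) *
      ((n * Gs w : ℝ) ^ (1 - 1 / (1 + η)) * (K1 + 1)))) ≤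
      s * (2 * ((n : ℝ) ^ (e / 2) * (L + 1) ^ 2)) := by
    refine mul_le_mul hs' (by linarith) ?_ (Nat.cast_nonneg _)
    have h1 : 0 ≤ (n : ℝ) ^ (1 - 1 / (1 + η)) := Real.rpow_nonneg hn0.le _
    have h2 : 0 ≤ (n * Gs w : ℝ) ^ (1 - 1 / (1 + η)) := Real.rpow_nonneg (by positivity) _
    positivity
  have hfin2 : (n : ℝ) * K1 ≤ n * (β / 2 * n) := by
    refine mul_le_mul_of_nonneg_left (hK1L.trans hnum1) hn0.le
  have hfin3 : β * (n : ℝ) ^ 2 ≤ n * (β / 2 * n) +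
      s * (2 * ((n : ℝ) ^ (e / 2) * (L + 1) ^ 2)) := by
    nlinarith
  have hfin4 : (n : ℝ) ^ 2 ≤ s * ((n : ℝ) ^ (e / 2) * (4 / β * (L + 1) ^ 2)) := by
    have h1 : β / 2 * (n : ℝ) ^ 2 ≤ s * (2 * ((n : ℝ) ^ (e / 2) * (L + 1) ^ 2)) := by nlinarith
    have h2 : (n : ℝ) ^ 2 = 2 / β * (β / 2 * (n : ℝ) ^ 2) := by field_simp
    rw [h2]
    refine (mul_le_mul_of_nonneg_left h1 (by positivity)).trans (le_of_eq ?_)
    ring
  have hfin5 : (n : ℝ) ^ 2 ≤ s * (n : ℝ) ^ e := by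
    have h1 : (n : ℝ) ^ e = (n : ℝ) ^ (e / 2) * (n : ℝ) ^ (e / 2) := by
      rw [← Real.rpow_add hn0]
      congr 1
      ring
    rw [h1]
    refine hfin4.trans (mul_le_mul_of_nonneg_left (mul_le_mul_of_nonneg_left hnum2 hne2)
      (Nat.cast_nonneg _))
  calc (n : ℝ) ^ (2 - ε) ≤ (n : ℝ) ^ (2 - e) :=
        Real.rpow_le_rpow_of_exponent_le hn1 (by linarith)
    _ = (n : ℝ) ^ 2 / (n : ℝ) ^ e := by
        rw [Real.rpow_sub hn0]
        congr 1
        exact Real.rpow_natCast _ 2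
    _ ≤ s := by
        rw [div_le_iff₀ (Real.rpow_pos_of_pos hn0 _)]
        exact hfin5


end Pool.Agent.H91.MN
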