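import Pool.Agent.H22.MC.Key
import Pool.Agent.H91.MN.LowB

set_option autoImplicit false
set_option maxHeartbeats 4000000

/-!
# [H91 MN NumB] Numbers for certificates of `δ n log n` bits
-/

namespace Pool.Agent.H91.MN

open Pool.Agent.H58.OVAC (av pr Str Off)

/-- a suitable degree: typical tests have measure at least `31/32` -/
theorem degree (k : ℕ) (hk : 3 ≤ k) : ∃ C : ℕ, ∀ n : ℕ, C ≤ n → ∀ a : ℝ, 0 ≤ a →
    C * a ≤ Real.log n → ∃ d : ℕ, 16 * Real.exp (16 * ((2 * a + 1) + 2)) ≤ ((k : ℝ) - 1) ^ d ∧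
      ∀ D : ℕ, D = k * (2 * Nat.clog 2 n + 5) →
        pr (fun z : Bool × Fin n → Str k D => ¬ Pool.H22.MC.Typical d z) ≤ 1 / 32 := by
  classical
  have hk' : (3 : ℝ) ≤ k := by exact_mod_cast hk
  set Q : ℝ := 168 * (k : ℝ) ^ 3 with hQ
  have hQ1 : (1 : ℝ) ≤ Q := by
    have h1 : (3 : ℝ) ^ 3 ≤ (k : ℝ) ^ 3 := pow_le_pow_left₀ (by norm_num) hk' 3
    rw [hQ]
    linarith
  have hL0 : 0 ≤ Real.log Q := Real.log_nonneg hQ1
  have h3 := tendsto_natCast_atTop_atTop (R := ℝ)
  have h4 : ∀ᶠ n : ℕ in Filter.atTop, 154 * Real.log Q + 16 ≤ 1 / 16 * Real.log n :=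
    (Filter.Tendsto.const_mul_atTop (by norm_num) (Real.tendsto_log_atTop.comp h3)).eventually_ge_atTop _
  obtain ⟨n₀, hn₀⟩ := h4.exists_forall_of_atTop
  obtain ⟨C₁, hC₁⟩ := exists_nat_ge (1600 * Real.log Q)
  refine ⟨max (max n₀ C₁) 3, fun n hn a ha hCa => ?_⟩
  have hn1 : n₀ ≤ n := (le_max_left _ _).trans ((le_max_left _ _).trans hn)
  have hn3 : 3 ≤ n := (le_max_right _ _).trans hn
  have hn3' : (3 : ℝ) ≤ n := by exact_mod_cast hn3
  have hn0 : (0 : ℝ) < n := by linarith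
  have hlog := hn₀ n hn1
  have hlogn : 1 ≤ Real.log n := by
    have h5 : 0 ≤ 154 * Real.log Q := by positivity
    linarith
  have haL : 1600 * Real.log Q * a ≤ Real.log n := by
    refine le_trans (mul_le_mul_of_nonneg_right (hC₁.trans ?_) ha) hCa
    exact_mod_cast (le_max_right _ _).trans (le_max_left _ _)
  set d : ℕ := ⌈(16 * (2 * a + 3) + 4) / Real.log 2⌉₊ with hd
  have hlog2 : 0 < Real.log 2 := Real.log_pos (by norm_num)
  have hd1 : (16 * (2 * a + 3) + 4) / Real.log 2 ≤ d := Nat.le_ceil _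
  have hd2 : (d : ℝ) ≤ (16 * (2 * a + 3) + 4) / Real.log 2 + 1 :=
    (Nat.ceil_lt_add_one (by positivity)).le
  have hd3 : (d : ℝ) ≤ 47 * a + 77 := by
    have h5 := Real.log_two_gt_d9
    have h6 : (16 * (2 * a + 3) + 4) / Real.log 2 ≤ 47 * a + 76 := by
      rw [div_le_iff₀ hlog2]
      nlinarith
    linarith
  refine ⟨d, ?_, ?_⟩
  · have h5 : (2 : ℝ) ^ d ≤ ((k : ℝ) - 1) ^ d := pow_le_pow_left₀ (by norm_num) (by linarith) d
    have h6 : Real.exp (16 * (2 * a + 3) + 4) ≤ (2 : ℝ) ^ d := by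
      rw [← Real.rpow_natCast, Real.rpow_def_of_pos (by norm_num)]
      refine Real.exp_le_exp.2 ?_
      rw [div_le_iff₀ hlog2] at hd1
      linarith
    have h7 : (16 : ℝ) ≤ Real.exp 4 := by
      have h8 : (2 : ℝ) ≤ Real.exp 1 := by
        have := Real.add_one_le_exp (1 : ℝ)
        linarith
      have h9 : Real.exp 4 = Real.exp 1 ^ 4 := by
        rw [← Real.exp_nat_mul]
        norm_num
      rw [h9]
      calc (16 : ℝ) = 2 ^ 4 := by norm_num
        _ ≤ _ := pow_le_pow_left₀ (by norm_num) h8 4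
    calc 16 * Real.exp (16 * ((2 * a + 1) + 2)) = Real.exp (16 * (2 * a + 3)) * 16 := by
          rw [show (2 * a + 1) + 2 = 2 * a + 3 by ring]
          ring
      _ ≤ Real.exp (16 * (2 * a + 3)) * Real.exp 4 :=
          mul_le_mul_of_nonneg_left h7 (Real.exp_pos _).le
      _ = Real.exp (16 * (2 * a + 3) + 4) := by rw [Real.exp_add]
      _ ≤ _ := h6.trans h5
  · intro D hD
    refine (Pool.H22.MC.not_typical_le (by omega) (by omega) d).trans ?_
    -- the number of indices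
    set x : ℝ := 1 / (168 * (k : ℝ) ^ 2) with hx
    have hx0 : 0 < x := by positivity
    have hx1 : x ≤ 1 := by
      rw [hx, div_le_one (by positivity)]
      nlinarith
    have hcard : ((Pool.H22.MC.low k D d).card : ℝ) ≤ (1 / x) ^ d * Real.exp (k * x * D) :=
      Pool.H22.MC.card_low hx0 hx1 d
    have hl : (Nat.clog 2 n : ℝ) ≤ 3 * Real.log n := by
      have h5 : 2 ^ (Nat.clog 2 n - 1) < n := Nat.pow_pred_clog_lt_self (by norm_num) (by omega)
      have h6 : (2 : ℝ) ^ (Nat.clog 2 n - 1) < n := by exact_mod_cast h5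
      have h7 := Real.log_lt_log (by positivity) h6
      rw [Real.log_pow] at h7
      have h8 : 1 ≤ Nat.clog 2 n := Nat.clog_pos (by norm_num) (by omega)
      rw [Nat.cast_sub h8] at h7
      have h9 := Real.log_two_gt_d9
      have h10 := Real.log_two_lt_d9
      push_cast at h7
      have h11 : (0 : ℝ) ≤ Nat.clog 2 n := Nat.cast_nonneg _
      nlinarith
    have hl1 : (1 : ℝ) ≤ Nat.clog 2 n := by
      exact_mod_cast Nat.clog_pos (by norm_num) (by omega)
    have hkx : k * x * D ≤ 1 / 8 * Real.log n := by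
      have h5 : (D : ℝ) ≤ k * (21 * Real.log n) := by
        rw [hD]
        push_cast
        refine mul_le_mul_of_nonneg_left ?_ (by positivity)
        nlinarith
      calc k * x * D ≤ k * x * (k * (21 * Real.log n)) :=
            mul_le_mul_of_nonneg_left h5 (by positivity)
        _ = 1 / 8 * Real.log n := by
            rw [hx]
            field_simp
            ring
    have hexp : Real.exp (k * x * D) ≤ (n : ℝ) ^ (1 / 8 : ℝ) := by
      rw [Real.rpow_def_of_pos hn0]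
      exact Real.exp_le_exp.2 (by linarith)
    have hQd : Q ^ (2 * d) ≤ (n : ℝ) ^ (1 / 4 : ℝ) / 512 / 32 := by
      have h5 : Q ^ (2 * d) ≤ Real.exp (1 / 4 * Real.log n - 16) := by
        have h6 : Q ^ (2 * d) = Real.exp (2 * d * Real.log Q) := by
          rw [← Real.rpow_natCast, Real.rpow_def_of_pos (by linarith)]
          push_cast
          congr 1
          ring
        rw [h6]
        refine Real.exp_le_exp.2 ?_
        have h7 : 2 * d * Real.log Q ≤ (94 * a + 154) * Real.log Q :=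
          mul_le_mul_of_nonneg_right (by linarith) hL0
        have h8 : 94 * a * Real.log Q ≤ 1 / 16 * Real.log n := by
          have : 0 ≤ a * Real.log Q := mul_nonneg ha hL0
          linarith
        nlinarith
      refine h5.trans ?_
      rw [sub_eq_add_neg, Real.exp_add, Real.rpow_def_of_pos hn0]
      have h6 : Real.exp (-16) ≤ 1 / 512 / 32 := by
        rw [Real.exp_neg, inv_eq_one_div, div_div]
        refine one_div_le_one_div_of_le (by norm_num) ?_
        have h8 : (2 : ℝ) ≤ Real.exp 1 := by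
          have := Real.add_one_le_exp (1 : ℝ)
          linarith
        have h9 : Real.exp 16 = Real.exp 1 ^ 16 := by
          rw [← Real.exp_nat_mul]
          norm_num
        rw [h9]
        calc (512 * 32 : ℝ) ≤ 2 ^ 16 := by norm_num
          _ ≤ _ := pow_le_pow_left₀ (by norm_num) h8 16
      calc Real.exp (1 / 4 * Real.log n) * Real.exp (-16)
          ≤ Real.exp (1 / 4 * Real.log n) * (1 / 512 / 32) :=
            mul_le_mul_of_nonneg_left h6 (Real.exp_pos _).le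
        _ = Real.exp (Real.log n * (1 / 4)) / 512 / 32 := by
            rw [mul_comm (1 / 4 : ℝ)]
            ring
    have hk1 : (1 : ℝ) ≤ (k : ℝ) ^ (2 * d) := one_le_pow₀ (by linarith)
    have hcard2 : ((Pool.H22.MC.low k D d).card : ℝ) ^ 2 * (k : ℝ) ^ (2 * d) ≤
        Q ^ (2 * d) * (n : ℝ) ^ (1 / 4 : ℝ) := by
      have h5 : ((Pool.H22.MC.low k D d).card : ℝ) ^ 2 ≤ ((1 / x) ^ d * (n : ℝ) ^ (1 / 8 : ℝ)) ^ 2 :=
        pow_le_pow_left₀ (Nat.cast_nonneg _)
          (hcard.trans (mul_le_mul_of_nonneg_left hexp (by positivity))) 2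
      have h6 : ((n : ℝ) ^ (1 / 8 : ℝ)) ^ 2 = (n : ℝ) ^ (1 / 4 : ℝ) := by
        rw [← Real.rpow_natCast, ← Real.rpow_mul hn0.le]
        norm_num
      have h7 : ((1 / x) ^ d) ^ 2 * (k : ℝ) ^ (2 * d) = Q ^ (2 * d) := by
        rw [← pow_mul, mul_comm d 2, ← mul_pow, hx, hQ, one_div_one_div]
        congr 1
        ring
      calc _ ≤ ((1 / x) ^ d * (n : ℝ) ^ (1 / 8 : ℝ)) ^ 2 * (k : ℝ) ^ (2 * d) :=
            mul_le_mul_of_nonneg_right h5 (by positivity)
        _ = ((1 / x) ^ d) ^ 2 * (k : ℝ) ^ (2 * d) * ((n : ℝ) ^ (1 / 8 : ℝ)) ^ 2 := by ring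
        _ = _ := by rw [h6, h7]
    have hn4 : (0 : ℝ) < (n : ℝ) ^ (1 / 4 : ℝ) := Real.rpow_pos_of_pos hn0 _
    have hn42 : (n : ℝ) ^ (1 / 4 : ℝ) * (n : ℝ) ^ (1 / 4 : ℝ) ≤ n := by
      rw [← Real.rpow_add hn0]
      calc (n : ℝ) ^ ((1 / 4 : ℝ) + 1 / 4) ≤ (n : ℝ) ^ (1 : ℝ) :=
            Real.rpow_le_rpow_of_exponent_le (by linarith) (by norm_num)
        _ = n := Real.rpow_one _
    have h5 : Q ^ (2 * d) * (n : ℝ) ^ (1 / 4 : ℝ) ≤ n / 512 / 32 := by
      calc Q ^ (2 * d) * (n : ℝ) ^ (1 / 4 : ℝ) ≤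
          (n : ℝ) ^ (1 / 4 : ℝ) / 512 / 32 * (n : ℝ) ^ (1 / 4 : ℝ) :=
            mul_le_mul_of_nonneg_right hQd hn4.le
        _ = ((n : ℝ) ^ (1 / 4 : ℝ) * (n : ℝ) ^ (1 / 4 : ℝ)) / 512 / 32 := by ring
        _ ≤ _ := by
          refine div_le_div_of_nonneg_right (div_le_div_of_nonneg_right hn42 ?_) ?_ <;> norm_num
    rw [div_le_iff₀ hn0]
    have h6 := hcard2.trans h5
    linarith

/-- numbers of the final averaging -/
theorem rej2 {n M : ℕ} {a ρ : ℝ} (hρ : 0 < ρ) (ha : 0 ≤ a) (hn : 8 ≤ n)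
    (hM : (M : ℝ) ≤ ρ * 2 ^ (a * n)) :
    M * (4 * Real.sqrt (Real.exp (-((2 * a + 1) * n)))) < ρ / 10 := by
  have hn' : (8 : ℝ) ≤ n := by exact_mod_cast hn
  have h1 : Real.sqrt (Real.exp (-((2 * a + 1) * n))) = Real.exp (-((2 * a + 1) * n / 2)) := by
    rw [← Real.exp_half]
    congr 1
    ring
  have h2 : (2 : ℝ) ^ (a * n) = Real.exp (Real.log 2 * (a * n)) := by
    rw [Real.rpow_def_of_pos (by norm_num)]
  have h3 : Real.exp (Real.log 2 * (a * n)) * (4 * Real.exp (-((2 * a + 1) * n / 2))) ≤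
      4 * Real.exp (-4) := by
    rw [mul_left_comm, ← Real.exp_add]
    refine mul_le_mul_of_nonneg_left (Real.exp_le_exp.2 ?_) (by norm_num)
    have h4 := Real.log_two_lt_d9
    have h5 : Real.log 2 * (a * n) ≤ 1 * (a * n) :=
      mul_le_mul_of_nonneg_right (by linarith) (by positivity)
    nlinarith
  have h4 : Real.exp (-4) < 1 / 40 := by
    rw [Real.exp_neg, inv_eq_one_div]
    refine one_div_lt_one_div_of_lt (by norm_num) ?_
    have h8 : (2.6 : ℝ) ≤ Real.exp 1 := by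
      have := Real.exp_one_gt_d9
      linarith
    have h9 : Real.exp 4 = Real.exp 1 ^ 4 := by
      rw [← Real.exp_nat_mul]
      norm_num
    rw [h9]
    calc (40 : ℝ) < 2.6 ^ 4 := by norm_num
      _ ≤ _ := pow_le_pow_left₀ (by norm_num) h8 4
  calc M * (4 * Real.sqrt (Real.exp (-((2 * a + 1) * n))))
      ≤ ρ * Real.exp (Real.log 2 * (a * n)) * (4 * Real.exp (-((2 * a + 1) * n / 2))) := by
        rw [h1, ← h2]
        exact mul_le_mul_of_nonneg_right hM (by positivity)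
    _ = ρ * (Real.exp (Real.log 2 * (a * n)) * (4 * Real.exp (-((2 * a + 1) * n / 2)))) := by ring
    _ ≤ ρ * (4 * Real.exp (-4)) := mul_le_mul_of_nonneg_left h3 hρ.le
    _ < ρ / 10 := by nlinarith

/-- numbers of the final averaging -/
theorem gap {γ : ℝ} (hγ : 0 < γ) : ∃ C : ℕ, 1 ≤ C ∧ ∀ n : ℕ, C ≤ n → ∀ a : ℝ, 0 ≤ a →
    C * a ≤ Real.log n →
    (n : ℝ) ^ (-γ) ≤ Real.exp (-(32 * ((2 * a + 1) + 2))) / 2 / 2 ∧
      1 / (C * 2 ^ (100 * a)) ≤ Real.exp (-(32 * ((2 * a + 1) + 2))) / 2 / 2 / 2 := by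
  have h3 := tendsto_natCast_atTop_atTop (R := ℝ)
  have h4 : ∀ᶠ n : ℕ in Filter.atTop, 98 ≤ γ / 2 * Real.log n :=
    (Filter.Tendsto.const_mul_atTop (by positivity)
      (Real.tendsto_log_atTop.comp h3)).eventually_ge_atTop _
  obtain ⟨n₀, hn₀⟩ := h4.exists_forall_of_atTop
  obtain ⟨C₁, hC₁⟩ := exists_nat_ge (128 / γ)
  obtain ⟨C₂, hC₂⟩ := exists_nat_ge (8 * Real.exp 96)
  refine ⟨max (max n₀ C₁) (max C₂ 1), (le_max_right _ _).trans (le_max_right _ _),
    fun n hn a ha hCa => ?_⟩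
  have hn1 : n₀ ≤ n := (le_max_left _ _).trans ((le_max_left _ _).trans hn)
  have hn3 : 1 ≤ n := (le_max_right _ _).trans ((le_max_right _ _).trans hn)
  have hn0 : (0 : ℝ) < n := by exact_mod_cast hn3
  have hlog := hn₀ n hn1
  set C : ℕ := max (max n₀ C₁) (max C₂ 1) with hC
  have hCγ : 128 / γ ≤ C := hC₁.trans (by
    exact_mod_cast (le_max_right _ _).trans (le_max_left _ _))
  have hCe : 8 * Real.exp 96 ≤ C := hC₂.trans (by
    exact_mod_cast (le_max_left _ _).trans (le_max_right _ _))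
  constructor
  · have h5 : 128 * a ≤ γ * Real.log n := by
      have h6 : 128 / γ * a ≤ Real.log n := (mul_le_mul_of_nonneg_right hCγ ha).trans hCa
      have h7 := mul_le_mul_of_nonneg_left h6 hγ.le
      have h8 : γ * (128 / γ * a) = 128 * a := by field_simp
      linarith
    have h6 : Real.exp 2 ≥ 4 := by
      have h8 : (2 : ℝ) ≤ Real.exp 1 := by
        have := Real.add_one_le_exp (1 : ℝ)
        linarith
      have h9 : Real.exp 2 = Real.exp 1 ^ 2 := by
        rw [← Real.exp_nat_mul]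
        norm_num
      rw [h9]
      nlinarith
    have h7 : (n : ℝ) ^ (-γ) ≤ Real.exp (-(32 * ((2 * a + 1) + 2)) - 2) := by
      rw [Real.rpow_def_of_pos hn0]
      refine Real.exp_le_exp.2 ?_
      nlinarith
    refine h7.trans ?_
    rw [sub_eq_add_neg, Real.exp_add, div_div]
    have h8 : Real.exp (-2) ≤ 1 / (2 * 2) := by
      rw [Real.exp_neg, inv_eq_one_div]
      exact one_div_le_one_div_of_le (by norm_num) (by linarith)
    rw [div_eq_mul_one_div]
    exact mul_le_mul_of_nonneg_left h8 (Real.exp_pos _).le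
  · have h5 : Real.exp (-(32 * ((2 * a + 1) + 2))) / 2 / 2 / 2 =
        1 / (8 * Real.exp 96 * Real.exp (64 * a)) := by
      rw [mul_assoc, ← Real.exp_add, Real.exp_neg]
      rw [show 96 + 64 * a = 32 * ((2 * a + 1) + 2) by ring]
      field_simp
      norm_num
    rw [h5]
    refine one_div_le_one_div_of_le (by positivity) ?_
    refine mul_le_mul hCe ?_ (Real.exp_pos _).le (Nat.cast_nonneg _)
    rw [Real.rpow_def_of_pos (by norm_num)]
    refine Real.exp_le_exp.2 ?_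
    have := Real.log_two_gt_d9
    nlinarith

end Pool.Agent.H91.MN
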