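import Pool.Agent.H91.MN.Hist
import Pool.Agent.H58.OVPR.Main

set_option autoImplicit false
set_option maxHeartbeats 4000000
set_option linter.unusedSectionVars false

/-!
# [H91 MN Plant] Planted tests

A planted test has two nonempty positions `(false, i)`, `(true, j)` with strings `a`, `b` which differ everywhere. An AND gate
loses it if all its children are true by one of the two strings but the gate is not true by one string alone. The
number of planted tests which are free (off the accumulated sets) and lost at an AND gate is small (two-function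
inequality `tensor_set`).
-/

namespace Pool.Agent.H91.MN

open Pool.Agent.H58.OVAC (av pr Str Off Good tensor_set av_nonneg av_const av_add av_sum av_congr
  av_mono pr_nonneg pr_mono pr_le_one pr_not)
open Pool.Agent.H58.OVPR (avR avR_mono avR_add avR_sum avR_const avR_left avR_right rpow_sum_le)

variable {n k D G : ℕ}

/-- the planted test -/
def pl (i j : Fin n) (a b : Str k D) : Bool × Fin n → Option (Str k D) := fun p =>
  if p = (false, i) then some a else if p = (true, j) then some b else none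

/-- the planted test is lost at an AND gate with the children `J` -/
def Lost (c : Fin G → Prop) (φ : Fin G → Bool × Fin n → Set (Str k D)) (J : Finset (Fin G))
    (i j : Fin n) (a b : Str k D) : Prop :=
  (∀ t ∈ J, c t ∨ a ∈ φ t (false, i) ∨ b ∈ φ t (true, j)) ∧
    ¬ (∀ t ∈ J, c t ∨ a ∈ φ t (false, i)) ∧ ¬ ∀ t ∈ J, c t ∨ b ∈ φ t (true, j)

/-- the leaves are one-sided -/
def OneL (N : Net (Bool × Fin n) (Str k D) G) : Prop :=
  ∀ g, N.kind g = Kind.leaf → ∃ b : Bool, ∀ z z' : Bool × Fin n → Option (Str k D),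
    (∀ p, p.1 = b → z p = none ∨ z p = z' p) → N.val g z → N.val g z'

theorem planted (N : Net (Bool × Fin n) (Str k D) G) (hN : OneL N) {c : Fin G → Prop}
    {φ : Fin G → Bool × Fin n → Set (Str k D)} (h1 : ∀ g, cc N c g → c g)
    (h2 : ∀ g p, φ g p = ff N c φ g p) (i j : Fin n) (a b : Str k D)
    (hl : ∀ g J, N.kind g = Kind.and J → ¬ Lost c φ J i j a b) :
    ∀ g, N.val g (pl i j a b) → c g ∨ a ∈ φ g (false, i) ∨ b ∈ φ g (true, j) := by
  intro g
  induction hm : g.1 using Nat.strong_induction_on generalizing g with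
  | _ m ih =>
    intro hv
    have ih' : ∀ t < g, N.val t (pl i j a b) → c t ∨ a ∈ φ t (false, i) ∨ b ∈ φ t (true, j) :=
      fun t ht => ih t.1 (by rw [← hm]; exact ht) t rfl
    rcases hk : N.kind g with _ | J | J
    · right
      obtain ⟨s, hs⟩ := hN g hk
      cases s with
      | false =>
        left
        rw [h2, ff_leaf N _ _ hk]
        refine hs _ _ (fun p hp => ?_) hv
        unfold pl single
        by_cases h3 : p = (false, i)
        · right
          rw [if_pos h3, if_pos h3]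
        · left
          have h4 : p ≠ (true, j) := by
            rintro rfl
            simp at hp
          rw [if_neg h3, if_neg h4]
      | true =>
        right
        rw [h2, ff_leaf N _ _ hk]
        refine hs _ _ (fun p hp => ?_) hv
        unfold pl single
        have h4 : p ≠ (false, i) := by
          rintro rfl
          simp at hp
        by_cases h3 : p = (true, j)
        · right
          rw [if_neg h4, if_pos h3]
        · left
          rw [if_neg h4, if_neg h3]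
    · obtain ⟨t, ht, hvt⟩ := (N.or_val g J hk _).1 hv
      rcases ih' t (N.or_lt g J hk t ht) hvt with h3 | h3 | h3
      · exact Or.inl (h1 g ((cc_or N c hk).2 ⟨t, ht, h3⟩))
      · right; left
        rw [h2, ff_or N _ _ hk]
        exact ⟨t, ht, h3⟩
      · right; right
        rw [h2, ff_or N _ _ hk]
        exact ⟨t, ht, h3⟩
    · have h3 : ∀ t ∈ J, c t ∨ a ∈ φ t (false, i) ∨ b ∈ φ t (true, j) := fun t ht =>
        ih' t (N.and_lt g J hk t ht) ((N.and_val g J hk _).1 hv t ht)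
      right
      by_contra h4
      rw [h2, h2, ff_and N _ _ hk] at h4
      push Not at h4
      refine hl g J hk ⟨h3, fun h5 => h4.1 h5, fun h5 => h4.2 h5⟩

variable {q : ℝ}

open Classical in
/-- indicator -/
noncomputable def ind (P : Prop) : ℝ := if P then 1 else 0

theorem ind_nonneg (P : Prop) : 0 ≤ ind P := by
  unfold ind
  split_ifs <;> norm_num

theorem ind_of {P : Prop} (h : P) : ind P = 1 := if_pos h

theorem ind_not {P : Prop} (h : ¬ P) : ind P = 0 := if_neg h

theorem ind_congr {P Q : Prop} (h : P ↔ Q) : ind P = ind Q := by rw [propext h]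

theorem pr_ind {Ω : Type} [Fintype Ω] (P : Ω → Prop) : pr P = av fun a => ind (P a) := rfl

theorem avR_set (hk : 2 ≤ k) (hq1 : 1 ≤ q) (hq2 : q ≤ 2) (hgood : Good k q)
    (U V : Str k D → Prop) :
    avR (fun a b => ind (U a ∧ V b)) ≤ pr U ^ (1 / q) * pr V ^ (1 / q) := by
  have hk' : (2 : ℝ) ≤ k := by exact_mod_cast hk
  have hR : (0 : ℝ) < (k * (k - 1) : ℝ) ^ D := by
    apply pow_pos
    nlinarith
  have hcard : ((Fintype.card (Str k D) : ℕ) : ℝ) = (k : ℝ) ^ D := by
    simp [Fintype.card_fin]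
  have h4 := tensor_set hk hq1 hq2 hgood (D := D)
    (fun a => ind (U a)) (fun b => ind (V b))
    (fun a => by by_cases h : U a <;> simp [ind, h]) (fun b => by by_cases h : V b <;> simp [ind, h])
  have h5 : (∑ a : Str k D, ind (U a)) / (k : ℝ) ^ D = pr U := by
    rw [pr_ind]
    unfold av
    rw [hcard]
  have h6 : (∑ a : Str k D, ind (V a)) / (k : ℝ) ^ D = pr V := by
    rw [pr_ind]
    unfold av
    rw [hcard]
  rw [h5, h6] at h4
  unfold avR
  rw [div_le_iff₀ hR, mul_comm]
  refine le_trans (le_of_eq ?_) h4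
  refine Finset.sum_congr rfl fun a _ => Finset.sum_congr rfl fun b _ => ?_
  by_cases h7 : Off a b
  · rw [if_pos h7, if_pos h7]
    by_cases h8 : U a <;> by_cases h9 : V b <;> simp [ind, h8, h9]
  · rw [if_neg h7, if_neg h7]

/-- one half of the bound for the lost tests: `Q` the event of the first child, `sel` the child which fails at `a` -/
theorem half (hk : 2 ≤ k) (hq1 : 1 ≤ q) (hq2 : q ≤ 2) (hgood : Good k q) (J : Finset (Fin G))
    (Q : Fin n → Str k D → Prop) (sel : Fin n → Str k D → Fin G)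
    (V : Fin G → Fin n → Str k D → Prop) {K : ℝ}
    (hQ : ∑ i, pr (Q i) ≤ K) (hV : ∀ t ∈ J, ∑ j, pr (V t j) ≤ K) :
    ∑ i, ∑ j, avR (fun a b => ind (∃ t ∈ J, (Q i a ∧ sel i a = t) ∧ V t j b)) ≤
      (n : ℝ) ^ (1 - 1 / q) * (K + 1) * ((n * G : ℝ) ^ (1 - 1 / q) * (K + 1)) := by
  have hK : 0 ≤ K := (Finset.sum_nonneg fun i _ => pr_nonneg (Q i)).trans hQ
  have hq0 : 0 < q := by linarith
  have hqq : 0 ≤ 1 - 1 / q := by
    rw [sub_nonneg, div_le_one hq0]
    exact hq1
  have h1 : ∀ i j, avR (fun a b => ind (∃ t ∈ J, (Q i a ∧ sel i a = t) ∧ V t j b)) ≤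
      ∑ t ∈ J, pr (fun a => Q i a ∧ sel i a = t) ^ (1 / q) * pr (V t j) ^ (1 / q) := by
    intro i j
    calc avR (fun a b => ind (∃ t ∈ J, (Q i a ∧ sel i a = t) ∧ V t j b)) ≤
        avR (fun a b => ∑ t ∈ J, ind ((Q i a ∧ sel i a = t) ∧ V t j b)) := by
          refine avR_mono hk fun a b _ => ?_
          by_cases h : ∃ t ∈ J, (Q i a ∧ sel i a = t) ∧ V t j b
          · rw [ind_of h]
            obtain ⟨t, ht, h2⟩ := h
            calc (1 : ℝ) = ind ((Q i a ∧ sel i a = t) ∧ V t j b) := (ind_of h2).symm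
              _ ≤ _ := Finset.single_le_sum (f := fun t =>
                  ind ((Q i a ∧ sel i a = t) ∧ V t j b)) (fun t _ => ind_nonneg _) ht
          · rw [ind_not h]
            exact Finset.sum_nonneg fun t _ => ind_nonneg _
      _ = ∑ t ∈ J, avR (fun a b => ind ((Q i a ∧ sel i a = t) ∧ V t j b)) :=
          avR_sum _ _
      _ ≤ _ := Finset.sum_le_sum fun t _ => avR_set hk hq1 hq2 hgood _ _
  have h2 : ∑ i, ∑ j, ∑ t ∈ J, pr (fun a => Q i a ∧ sel i a = t) ^ (1 / q) * pr (V t j) ^ (1 / q) =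
      ∑ t ∈ J, (∑ i, pr (fun a => Q i a ∧ sel i a = t) ^ (1 / q)) * ∑ j, pr (V t j) ^ (1 / q) := by
    rw [Finset.sum_comm]
    have e1 : ∀ j : Fin n, ∑ i, ∑ t ∈ J, pr (fun a => Q i a ∧ sel i a = t) ^ (1 / q) *
        pr (V t j) ^ (1 / q) = ∑ t ∈ J, ∑ i, pr (fun a => Q i a ∧ sel i a = t) ^ (1 / q) *
        pr (V t j) ^ (1 / q) := fun j => Finset.sum_comm
    simp only [e1]
    rw [Finset.sum_comm]
    refine Finset.sum_congr rfl fun t _ => ?_
    rw [Finset.sum_comm, Finset.sum_mul_sum]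
  have h3 : ∀ t ∈ J, ∑ j, pr (V t j) ^ (1 / q) ≤ (n : ℝ) ^ (1 - 1 / q) * (K + 1) := by
    intro t ht
    have := rpow_sum_le (Finset.univ : Finset (Fin n)) hq1 (fun j => pr (V t j))
      (fun j _ => pr_nonneg _) (hV t ht)
    simpa using this
  have h4 : ∑ t ∈ J, ∑ i, pr (fun a => Q i a ∧ sel i a = t) ^ (1 / q) ≤
      (n * G : ℝ) ^ (1 - 1 / q) * (K + 1) := by
    have h5 : ∑ p ∈ J ×ˢ (Finset.univ : Finset (Fin n)), pr (fun a => Q p.2 a ∧ sel p.2 a = p.1) ≤
        K := by
      rw [Finset.sum_product_right]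
      refine (Finset.sum_le_sum fun i _ => ?_).trans hQ
      calc ∑ t ∈ J, pr (fun a => Q i a ∧ sel i a = t) = av fun a => ∑ t ∈ J,
            ind (Q i a ∧ sel i a = t) := by
            rw [av_sum]
            rfl
        _ ≤ pr (Q i) := by
            rw [pr_ind]
            refine av_mono fun a => ?_
            by_cases h6 : Q i a
            · rw [ind_of h6]
              have h8 : ∀ t, ind (Q i a ∧ sel i a = t) = if sel i a = t then (1 : ℝ) else 0 := by
                intro t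
                by_cases h9 : sel i a = t
                · rw [if_pos h9, ind_of ⟨h6, h9⟩]
                · rw [if_neg h9, ind_not fun h => h9 h.2]
              simp only [h8]
              rw [Finset.sum_ite_eq]
              split_ifs <;> norm_num
            · rw [ind_not h6]
              exact le_of_eq (Finset.sum_eq_zero fun t _ => ind_not fun h => h6 h.1)
    have h7 := rpow_sum_le (J ×ˢ (Finset.univ : Finset (Fin n))) hq1
      (fun p => pr (fun a => Q p.2 a ∧ sel p.2 a = p.1)) (fun p _ => pr_nonneg _) h5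
    rw [Finset.sum_product] at h7
    refine h7.trans (mul_le_mul_of_nonneg_right ?_ (by linarith))
    refine Real.rpow_le_rpow (Nat.cast_nonneg _) ?_ hqq
    rw [Finset.card_product, Finset.card_univ, Fintype.card_fin]
    push_cast
    have h8 : (J.card : ℝ) ≤ G := by
      have := Finset.card_le_univ J
      rw [Fintype.card_fin] at this
      exact_mod_cast this
    nlinarith [Nat.cast_nonneg (α := ℝ) n]
  calc _ ≤ ∑ i, ∑ j, ∑ t ∈ J, pr (fun a => Q i a ∧ sel i a = t) ^ (1 / q) *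
        pr (V t j) ^ (1 / q) := Finset.sum_le_sum fun i _ => Finset.sum_le_sum fun j _ => h1 i j
    _ = _ := h2
    _ ≤ ∑ t ∈ J, (∑ i, pr (fun a => Q i a ∧ sel i a = t) ^ (1 / q)) *
        ((n : ℝ) ^ (1 - 1 / q) * (K + 1)) := by
        refine Finset.sum_le_sum fun t ht => mul_le_mul_of_nonneg_left (h3 t ht) ?_
        exact Finset.sum_nonneg fun i _ => Real.rpow_nonneg (pr_nonneg _) _
    _ = (n : ℝ) ^ (1 - 1 / q) * (K + 1) * ∑ t ∈ J, ∑ i,
        pr (fun a => Q i a ∧ sel i a = t) ^ (1 / q) := by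
        rw [← Finset.sum_mul, mul_comm]
    _ ≤ _ := by
        refine mul_le_mul_of_nonneg_left h4 ?_
        have : 0 ≤ (n : ℝ) ^ (1 - 1 / q) := Real.rpow_nonneg (Nat.cast_nonneg _) _
        positivity

theorem lost_le (hk : 2 ≤ k) (hq1 : 1 ≤ q) (hq2 : q ≤ 2) (hgood : Good k q) {c : Fin G → Prop}
    {φ : Fin G → Bool × Fin n → Set (Str k D)} {Φ : Bool × Fin n → Set (Str k D)} {K : ℝ}
    (hm : ∀ t, ¬ c t → mass Φ (φ t) ≤ K) (J : Finset (Fin G)) (hK : 0 ≤ K) :
    ∑ i, ∑ j, avR (fun a b => ind ((a ∉ Φ (false, i) ∧ b ∉ Φ (true, j)) ∧ Lost c φ J i j a b)) ≤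
      2 * ((n : ℝ) ^ (1 - 1 / q) * (K + 1) * ((n * G : ℝ) ^ (1 - 1 / q) * (K + 1))) := by
  classical
  by_cases hJ : ∃ t ∈ J, ¬ c t
  · obtain ⟨t₁, ht₁, hc₁⟩ := hJ
    have hside : ∀ (s : Bool) (t : Fin G), ¬ c t →
        ∑ i : Fin n, pr (fun a => a ∈ φ t (s, i) ∧ a ∉ Φ (s, i)) ≤ K := by
      intro s t ht
      refine le_trans ?_ (hm t ht)
      unfold mass
      rw [Fintype.sum_prod_type, Fintype.sum_bool]
      have h1 : 0 ≤ ∑ i : Fin n, pr (fun a => a ∈ φ t (true, i) ∧ a ∉ Φ (true, i)) :=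
        Finset.sum_nonneg fun i _ => pr_nonneg _
      have h2 : 0 ≤ ∑ i : Fin n, pr (fun a => a ∈ φ t (false, i) ∧ a ∉ Φ (false, i)) :=
        Finset.sum_nonneg fun i _ => pr_nonneg _
      cases s <;> linarith
    set J' := J.filter fun t => ¬ c t with hJ'
    let sel : Bool → Fin n → Str k D → Fin G := fun s i a =>
      if h : ∃ t ∈ J, ¬ c t ∧ a ∉ φ t (s, i) then h.choose else t₁
    have hsel : ∀ s i a, ¬ (∀ t ∈ J, c t ∨ a ∈ φ t (s, i)) →
        sel s i a ∈ J' ∧ a ∉ φ (sel s i a) (s, i) := by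
      intro s i a h
      have h1 : ∃ t ∈ J, ¬ c t ∧ a ∉ φ t (s, i) := by
        push Not at h
        exact h
      have h2 : sel s i a = h1.choose := dif_pos h1
      rw [h2]
      exact ⟨Finset.mem_filter.2 ⟨h1.choose_spec.1, h1.choose_spec.2.1⟩, h1.choose_spec.2.2⟩
    have hA := half (n := n) hk hq1 hq2 hgood J' (fun i a => a ∈ φ t₁ (false, i) ∧ a ∉ Φ (false, i))
      (sel false) (fun t j b => b ∈ φ t (true, j) ∧ b ∉ Φ (true, j)) (K := K)
      (hside false t₁ hc₁) (fun t ht => hside true t (Finset.mem_filter.1 ht).2)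
    have hB := half (n := n) hk hq1 hq2 hgood J' (fun i a => a ∈ φ t₁ (true, i) ∧ a ∉ Φ (true, i))
      (sel true) (fun t j b => b ∈ φ t (false, j) ∧ b ∉ Φ (false, j)) (K := K)
      (hside true t₁ hc₁) (fun t ht => hside false t (Finset.mem_filter.1 ht).2)
    have hswap : ∀ F : Str k D → Str k D → ℝ, avR (fun a b => F b a) = avR F := by
      intro F
      unfold avR
      congr 1
      rw [Finset.sum_comm]
      refine Finset.sum_congr rfl fun b _ => Finset.sum_congr rfl fun a _ => ?_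
      have : Off a b ↔ Off b a := forall_congr' fun c => ne_comm
      simp only [this]
    have hB' : ∑ i : Fin n, ∑ j : Fin n, avR (fun a b => ind (∃ t ∈ J', ((b ∈ φ t₁ (true, j) ∧
        b ∉ Φ (true, j)) ∧ sel true j b = t) ∧ a ∈ φ t (false, i) ∧ a ∉ Φ (false, i))) ≤
        (n : ℝ) ^ (1 - 1 / q) * (K + 1) * ((n * G : ℝ) ^ (1 - 1 / q) * (K + 1)) := by
      rw [Finset.sum_comm]
      refine le_trans (le_of_eq ?_) hB
      refine Finset.sum_congr rfl fun j _ => Finset.sum_congr rfl fun i _ => ?_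
      exact hswap fun a b => ind (∃ t ∈ J', ((a ∈ φ t₁ (true, j) ∧
        a ∉ Φ (true, j)) ∧ sel true j a = t) ∧ b ∈ φ t (false, i) ∧ b ∉ Φ (false, i))
    rw [two_mul]
    refine le_trans ?_ (add_le_add hA hB')
    rw [← Finset.sum_add_distrib]
    refine Finset.sum_le_sum fun i _ => ?_
    rw [← Finset.sum_add_distrib]
    refine Finset.sum_le_sum fun j _ => ?_
    rw [← avR_add]
    refine avR_mono hk fun a b _ => ?_
    by_cases hL : (a ∉ Φ (false, i) ∧ b ∉ Φ (true, j)) ∧ Lost c φ J i j a b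
    · rw [ind_of hL]
      obtain ⟨⟨ha, hb⟩, h1, h2, h3⟩ := hL
      have h0 : ∀ P : Prop, 0 ≤ ind P := ind_nonneg
      rcases (h1 t₁ ht₁).resolve_left hc₁ with h4 | h4
      · obtain ⟨h5, h6⟩ := hsel false i a h2
        have h7 : b ∈ φ (sel false i a) (true, j) := by
          rcases h1 _ (Finset.mem_filter.1 h5).1 with h8 | h8 | h8
          · exact absurd h8 (Finset.mem_filter.1 h5).2
          · exact absurd h8 h6
          · exact h8
        have h8 : ind (∃ t ∈ J', ((a ∈ φ t₁ (false, i) ∧ a ∉ Φ (false, i)) ∧ sel false i a = t) ∧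
          b ∈ φ t (true, j) ∧ b ∉ Φ (true, j)) = 1 :=
          ind_of ⟨sel false i a, h5, ⟨⟨h4, ha⟩, rfl⟩, h7, hb⟩
        linarith [h0 (∃ t ∈ J', ((b ∈ φ t₁ (true, j) ∧ b ∉ Φ (true, j)) ∧ sel true j b = t) ∧
          a ∈ φ t (false, i) ∧ a ∉ Φ (false, i))]
      · obtain ⟨h5, h6⟩ := hsel true j b h3
        have h7 : a ∈ φ (sel true j b) (false, i) := by
          rcases h1 _ (Finset.mem_filter.1 h5).1 with h8 | h8 | h8
          · exact absurd h8 (Finset.mem_filter.1 h5).2
          · exact h8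
          · exact absurd h8 h6
        have h8 : (ind (∃ t ∈ J', ((b ∈ φ t₁ (true, j) ∧ b ∉ Φ (true, j)) ∧ sel true j b = t) ∧
          a ∈ φ t (false, i) ∧ a ∉ Φ (false, i))) = 1 :=
          ind_of ⟨sel true j b, h5, ⟨⟨h4, hb⟩, rfl⟩, h7, ha⟩
        linarith [h0 (∃ t ∈ J', ((a ∈ φ t₁ (false, i) ∧ a ∉ Φ (false, i)) ∧ sel false i a = t) ∧
          b ∈ φ t (true, j) ∧ b ∉ Φ (true, j))]
    · rw [ind_not hL]
      exact add_nonneg (ind_nonneg _) (ind_nonneg _)
  · push Not at hJ
    have h1 : ∀ (i j : Fin n) (a b : Str k D), ¬ Lost c φ J i j a b := fun i j a b h =>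
      h.2.1 fun t ht => Or.inl (hJ t ht)
    have h3 : ∀ (i j : Fin n), avR (fun a b => ind ((a ∉ Φ (false, i) ∧ b ∉ Φ (true, j)) ∧
        Lost c φ J i j a b)) = 0 := by
      intro i j
      have h2 : avR (fun _ _ : Str k D => (0 : ℝ)) = 0 := avR_const hk 0
      rw [← h2]
      congr 1
      funext a b
      exact ind_not fun h => h1 i j a b h.2
    simp only [h3, Finset.sum_const_zero]
    have : 0 ≤ (n : ℝ) ^ (1 - 1 / q) := Real.rpow_nonneg (Nat.cast_nonneg _) _
    have : 0 ≤ (n * G : ℝ) ^ (1 - 1 / q) := Real.rpow_nonneg (by positivity) _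
    positivity

/-- the free planted tests accepted by the gate `o` -/
theorem free_le (hk : 2 ≤ k) (hq1 : 1 ≤ q) (hq2 : q ≤ 2) (hgood : Good k q)
    (N : Net (Bool × Fin n) (Str k D) G) (hN : OneL N) {c : Fin G → Prop}
    {φ : Fin G → Bool × Fin n → Set (Str k D)} {Φ : Bool × Fin n → Set (Str k D)} {K : ℝ}
    (h1 : ∀ g, cc N c g → c g) (h2 : ∀ g p, φ g p = ff N c φ g p)
    (hm : ∀ t, ¬ c t → mass Φ (φ t) ≤ K) (hK : 0 ≤ K) (ands : Finset (Fin G))
    (hands : ∀ g J, N.kind g = Kind.and J → g ∈ ands) {o : Fin G} (ho : ¬ c o) :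
    ∑ i, ∑ j, avR (fun a b => ind (N.val o (pl i j a b) ∧ a ∉ Φ (false, i) ∧ b ∉ Φ (true, j))) ≤
      n * K + ands.card *
      (2 * ((n : ℝ) ^ (1 - 1 / q) * (K + 1) * ((n * G : ℝ) ^ (1 - 1 / q) * (K + 1)))) := by
  have hpt : ∀ (i j : Fin n) (a b : Str k D),
      ind (N.val o (pl i j a b) ∧ a ∉ Φ (false, i) ∧ b ∉ Φ (true, j)) ≤
      (ind (a ∈ φ o (false, i) ∧ a ∉ Φ (false, i)) +
        (ind (b ∈ φ o (true, j) ∧ b ∉ Φ (true, j)))) +
      ∑ g ∈ ands, ind ((a ∉ Φ (false, i) ∧ b ∉ Φ (true, j)) ∧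
        ∃ J, N.kind g = Kind.and J ∧ Lost c φ J i j a b) := by
    intro i j a b
    have h0 : ∀ P : Prop, 0 ≤ ind P := ind_nonneg
    have hs : 0 ≤ ∑ g ∈ ands, ind ((a ∉ Φ (false, i) ∧ b ∉ Φ (true, j)) ∧
        ∃ J, N.kind g = Kind.and J ∧ Lost c φ J i j a b) :=
      Finset.sum_nonneg fun g _ => h0 _
    by_cases hv : N.val o (pl i j a b) ∧ a ∉ Φ (false, i) ∧ b ∉ Φ (true, j)
    · rw [ind_of hv]
      obtain ⟨hv, ha, hb⟩ := hv
      by_cases hl : ∃ g J, N.kind g = Kind.and J ∧ Lost c φ J i j a b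
      · obtain ⟨g, J, hg, hL⟩ := hl
        have h3 : (1 : ℝ) ≤ ∑ g ∈ ands, ind ((a ∉ Φ (false, i) ∧ b ∉ Φ (true, j)) ∧
            ∃ J, N.kind g = Kind.and J ∧ Lost c φ J i j a b) := by
          have h4 := Finset.single_le_sum (f := fun g => ind ((a ∉ Φ (false, i) ∧ b ∉ Φ (true, j)) ∧
            ∃ J, N.kind g = Kind.and J ∧ Lost c φ J i j a b))
            (fun g _ => h0 _) (hands g J hg)
          have h5 : ind ((a ∉ Φ (false, i) ∧ b ∉ Φ (true, j)) ∧
            ∃ J, N.kind g = Kind.and J ∧ Lost c φ J i j a b) = 1 := ind_of ⟨⟨ha, hb⟩, J, hg, hL⟩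
          rw [← h5]
          exact h4
        linarith [h0 (a ∈ φ o (false, i) ∧ a ∉ Φ (false, i)),
          h0 (b ∈ φ o (true, j) ∧ b ∉ Φ (true, j))]
      · push Not at hl
        rcases (planted N hN h1 h2 i j a b (fun g J hg => hl g J hg) o hv).resolve_left ho with
          h3 | h3
        · rw [ind_of (show a ∈ φ o (false, i) ∧ a ∉ Φ (false, i) from ⟨h3, ha⟩)]
          linarith [h0 (b ∈ φ o (true, j) ∧ b ∉ Φ (true, j))]
        · rw [ind_of (show b ∈ φ o (true, j) ∧ b ∉ Φ (true, j) from ⟨h3, hb⟩)]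
          linarith [h0 (a ∈ φ o (false, i) ∧ a ∉ Φ (false, i))]
    · rw [ind_not hv]
      linarith [h0 (a ∈ φ o (false, i) ∧ a ∉ Φ (false, i)),
        h0 (b ∈ φ o (true, j) ∧ b ∉ Φ (true, j))]
  have hlost : ∀ g ∈ ands, ∑ i : Fin n, ∑ j : Fin n, avR (fun a b : Str k D =>
      ind ((a ∉ Φ (false, i) ∧ b ∉ Φ (true, j)) ∧
        ∃ J, N.kind g = Kind.and J ∧ Lost c φ J i j a b)) ≤
      2 * ((n : ℝ) ^ (1 - 1 / q) * (K + 1) * ((n * G : ℝ) ^ (1 - 1 / q) * (K + 1))) := by
    intro g _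
    by_cases hg : ∃ J, N.kind g = Kind.and J
    · obtain ⟨J, hJ⟩ := hg
      refine le_trans (le_of_eq ?_) (lost_le (n := n) hk hq1 hq2 hgood hm J hK)
      refine Finset.sum_congr rfl fun i _ => Finset.sum_congr rfl fun j _ => ?_
      congr 1
      funext a b
      have h3 : (∃ J, N.kind g = Kind.and J ∧ Lost c φ J i j a b) ↔ Lost c φ J i j a b := by
        constructor
        · rintro ⟨J', h4, h5⟩
          rw [hJ] at h4
          injection h4 with h6
          rw [h6]
          exact h5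
        · exact fun h => ⟨J, hJ, h⟩
      exact ind_congr (and_congr_right fun _ => h3)
    · have h3 : ∀ (i j : Fin n) (a b : Str k D), ¬ ∃ J, N.kind g = Kind.and J ∧
          Lost c φ J i j a b := fun i j a b h => hg ⟨h.choose, h.choose_spec.1⟩
      have h5 : ∀ (i j : Fin n), avR (fun a b => ind ((a ∉ Φ (false, i) ∧ b ∉ Φ (true, j)) ∧
          ∃ J, N.kind g = Kind.and J ∧ Lost c φ J i j a b)) = 0 := by
        intro i j
        have h4 : avR (fun _ _ : Str k D => (0 : ℝ)) = 0 := avR_const hk 0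
        rw [← h4]
        congr 1
        funext a b
        exact ind_not fun h => h3 i j a b h.2
      simp only [h5, Finset.sum_const_zero]
      have : 0 ≤ (n : ℝ) ^ (1 - 1 / q) := Real.rpow_nonneg (Nat.cast_nonneg _) _
      have : 0 ≤ (n * G : ℝ) ^ (1 - 1 / q) := Real.rpow_nonneg (by positivity) _
      positivity
  have hmain : ∀ i j : Fin n,
      avR (fun a b => ind (N.val o (pl i j a b) ∧ a ∉ Φ (false, i) ∧ b ∉ Φ (true, j))) ≤
      (pr (fun a => a ∈ φ o (false, i) ∧ a ∉ Φ (false, i)) +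
        pr (fun b => b ∈ φ o (true, j) ∧ b ∉ Φ (true, j))) +
      ∑ g ∈ ands, avR (fun a b : Str k D =>
      ind ((a ∉ Φ (false, i) ∧ b ∉ Φ (true, j)) ∧
        ∃ J, N.kind g = Kind.and J ∧ Lost c φ J i j a b)) := by
    intro i j
    refine (avR_mono hk fun a b _ => hpt i j a b).trans ?_
    rw [avR_add, avR_add, avR_sum,
      avR_left hk (fun a => ind (a ∈ φ o (false, i) ∧ a ∉ Φ (false, i))),
      avR_right hk (fun b => ind (b ∈ φ o (true, j) ∧ b ∉ Φ (true, j)))]
    exact le_of_eq rfl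
  calc _ ≤ ∑ i : Fin n, ∑ j : Fin n,
      ((pr (fun a => a ∈ φ o (false, i) ∧ a ∉ Φ (false, i)) +
        pr (fun b => b ∈ φ o (true, j) ∧ b ∉ Φ (true, j))) +
      ∑ g ∈ ands, avR (fun a b : Str k D =>
      ind ((a ∉ Φ (false, i) ∧ b ∉ Φ (true, j)) ∧
        ∃ J, N.kind g = Kind.and J ∧ Lost c φ J i j a b))) :=
        Finset.sum_le_sum fun i _ => Finset.sum_le_sum fun j _ => hmain i j
    _ = n * mass Φ (φ o) + ∑ g ∈ ands, ∑ i : Fin n,
        ∑ j : Fin n, avR (fun a b : Str k D => ind ((a ∉ Φ (false, i) ∧ b ∉ Φ (true, j)) ∧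
        ∃ J, N.kind g = Kind.and J ∧ Lost c φ J i j a b)) := by
        have e1 : ∑ g ∈ ands, ∑ i : Fin n, ∑ j : Fin n, avR (fun a b : Str k D =>
            ind ((a ∉ Φ (false, i) ∧ b ∉ Φ (true, j)) ∧
            ∃ J, N.kind g = Kind.and J ∧ Lost c φ J i j a b)) =
            ∑ i : Fin n, ∑ j : Fin n, ∑ g ∈ ands, avR (fun a b : Str k D =>
            ind ((a ∉ Φ (false, i) ∧ b ∉ Φ (true, j)) ∧
            ∃ J, N.kind g = Kind.and J ∧ Lost c φ J i j a b)) := by
          rw [Finset.sum_comm]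
          refine Finset.sum_congr rfl fun i _ => ?_
          rw [Finset.sum_comm]
        rw [e1]
        unfold mass
        simp only [Fintype.sum_prod_type, Fintype.sum_bool, Finset.sum_add_distrib,
          Finset.sum_const, Finset.card_univ, Fintype.card_fin, nsmul_eq_mul]
        simp only [← Finset.mul_sum]
        ring
    _ ≤ _ := by
        refine add_le_add (mul_le_mul_of_nonneg_left (hm o ho) (Nat.cast_nonneg _)) ?_
        refine (Finset.sum_le_sum hlost).trans (le_of_eq ?_)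
        rw [Finset.sum_const, nsmul_eq_mul]

end Pool.Agent.H91.MN
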